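import Pool.Agent.Work.MP_8da9ea_nt.EB.FinDefs

/-!
# Elements of a field in the span of `t` and `p`
-/

set_option autoImplicit false

namespace Pool.Agent.Work.MP_8da9ea_nt.EC

/-- The elements of `F` in the `ℚ`-span of `t` are in `ℚ u_1 + ... + ℚ u_r + 2πiℚ`. -/
def InnT (F : IntermediateField ℚ ℂ) {s r : ℕ} (t : Fin s → ℂ) (u : Fin r → ℂ) : Prop :=
  ∀ x ∈ Submodule.span ℚ (Set.range t), x ∈ F →
    x ∈ Submodule.span ℚ (Set.range u ∪ {2 * (Real.pi : ℂ) * Complex.I})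

/-- The elements of `ω₁ F` in the span of `p` over the field `k` of the lattice `ℤ ω₁ + ℤ ω₂` are in
`k v_1 + ... + k v_r + ℚ ω₁ + ℚ ω₂`. -/
def InnK (F : IntermediateField ℚ ℂ) (ω₁ ω₂ : ℂ) {n r : ℕ} (p : Fin n → ℂ) (v : Fin r → ℂ) : Prop :=
  ∀ g : Fin n → ℂ, (∀ j, InK ω₁ ω₂ (g j)) → (∑ j, g j * p j) / ω₁ ∈ F →
    ∃ (h : Fin r → ℂ) (q q' : ℚ), (∀ i, InK ω₁ ω₂ (h i)) ∧
      ∑ j, g j * p j = ∑ i, h i * v i + q * ω₁ + q' * ω₂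

end Pool.Agent.Work.MP_8da9ea_nt.EC
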