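import Pool.Agent.Work.MP_8da9ea_nt.EC.Stmts2
import Pool.Agent.Work.MP_8da9ea_nt.EC.FinDefs
import Pool.Agent.Work.MP_8da9ea_nt.CD.End

/-!
# Points of a closed field on lines: the final theorem, with defects
-/

set_option autoImplicit false

namespace Pool.Agent.Work.MP_8da9ea_nt.EC

open Pool.Agent.Work.MP_8da9ea_nt.EB Pool.Agent.Work.MP_327059_nt.GL Pool.Agent.Work.MP_8da9ea_nt.S

theorem inK_iff {ω₁ ω₂ : ℂ} (h1 : ω₁ ≠ 0) (g : ℂ) : InK ω₁ ω₂ g ↔ IsE (ω₂ / ω₁) g := by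
  constructor
  · rintro ⟨N, a, b, c, d, hN, h2, h3⟩
    refine ⟨N, hN, mem_Lam.2 ⟨a, b, ?_⟩, mem_Lam.2 ⟨c, d, ?_⟩⟩
    · field_simp
      linear_combination h2
    · field_simp
      linear_combination h3
  · rintro ⟨N, hN, h2, h3⟩
    obtain ⟨a, b, h4⟩ := mem_Lam.1 h2
    obtain ⟨c, d, h5⟩ := mem_Lam.1 h3
    field_simp at h4 h5
    exact ⟨N, a, b, c, d, hN, by linear_combination h4, by linear_combination h5⟩

theorem kli_of {ω₁ ω₂ : ℂ} (h1 : ω₁ ≠ 0) {m : ℕ} {b : Fin m → ℂ} (h : KIndep ω₁ ω₂ b) :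
    KLI (ω₂ / ω₁) b := fun g hg hs => h g (fun j => (inK_iff h1 _).2 (hg j)) hs

theorem innE_of {F : IntermediateField ℚ ℂ} {ω₁ ω₂ : ℂ} (h1 : ω₁ ≠ 0) {n r : ℕ} {p : Fin n → ℂ}
    {v : Fin r → ℂ} (h : InnK F ω₁ ω₂ p v) : InnE F ω₁ ω₂ p v := by
  intro g hg hF
  have e1 : ∑ j, g j * (p j / ω₁) = (∑ j, g j * p j) / ω₁ := by
    rw [Finset.sum_div]
    exact Finset.sum_congr rfl fun j _ => by ring
  rw [e1] at hF ⊢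
  obtain ⟨h', q, q', h2, h3⟩ := h g (fun j => (inK_iff h1 _).2 (hg j)) hF
  refine ⟨h', q, q', fun i => (inK_iff h1 _).1 (h2 i), ?_⟩
  rw [h3]
  have e2 : ∑ i, h' i * (v i / ω₁) = (∑ i, h' i * v i) / ω₁ := by
    rw [Finset.sum_div]
    exact Finset.sum_congr rfl fun j _ => by ring
  rw [e2]
  field_simp

/-- **The final theorem**, from the items. -/
theorem main2 (hM : S_MainS) (hG : S_GenLD) (hA : S_AlgLD) (e₀ : ℕ)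
    (hC : ∀ ω₁ ω₂ : ℂ, (ω₂ / ω₁).im ≠ 0 → IsAlgebraic ℚ (jInv ω₁ ω₂) →
      HasTrdeg (bigField 1 (ω₂ / ω₁) (![] : Fin 0 → ℂ) (![] : Fin 0 → ℂ)) e₀) :
    ∃ cl : Set ℂ → IntermediateField ℚ ℂ,
      (∀ S : Set ℂ, S ⊆ cl S) ∧ (∀ S T : Set ℂ, S ⊆ cl T → cl S ≤ cl T) ∧
      (∀ S x, x ∈ cl S → ∃ T : Finset ℂ, (T : Set ℂ) ⊆ S ∧ x ∈ cl (T : Set ℂ)) ∧
      (∀ S, S.Countable → (cl S : Set ℂ).Countable) ∧
      (∀ S x, IsAlgebraic (cl S) x → x ∈ cl S) ∧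
      (∀ S, ∀ ω₁ ∈ cl S, ∀ ω₂ ∈ cl S, ∀ (s n : ℕ) (t : Fin s → ℂ) (p : Fin n → ℂ),
        (∀ l, t l ∈ cl S) → (∀ i, p i ∈ cl S) → bigField ω₁ ω₂ t p ≤ cl S) ∧
      (∀ S ω₁ ω₂, (ω₂ / ω₁).im ≠ 0 → (jInv ω₁ ω₂ ∈ cl S ↔ ω₂ / ω₁ ∈ cl S)) ∧
      ∀ Q m κ : ℕ, ∃ n₀ : ℕ, ∀ b : Fin m → ℂ, FT Q b → LinearIndependent ℚ b → TrLe κ b →
        ∀ n : ℕ, n₀ ≤ n → ∀ x : Fin n → ℂ, LinearIndependent ℚ x →
        (∃ P : MvPolynomial (Fin n) ℂ, P ≠ 0 ∧ P.totalDegree ≤ m ∧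
          ∀ w : Fin n → ℚ, MvPolynomial.eval (fun i => (w i : ℂ)) P ≠ 0 →
          ∀ z : ℂ, z = ∑ i, (w i : ℂ) * x i →
          ∀ r : ℕ, r + κ + 2 ≤ m →
            ∃ P' : MvPolynomial (Fin r × Fin m) ℂ, P' ≠ 0 ∧ P'.IsHomogeneous r ∧
            ∀ c : Fin r → Fin m → ℚ, MvPolynomial.eval (fun q => (c q.1 q.2 : ℂ)) P' ≠ 0 →
            ∀ u : Fin r → ℂ, (∀ i, u i = (∑ j, (c i j : ℂ) * b j) * z) →
            ∀ S : Set ℂ, S.Countable →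
            ∀ ω₁ ω₂ : ℂ, (ω₂ / ω₁).im ≠ 0 → jInv ω₁ ω₂ ∉ cl S →
            ∀ (s k : ℕ) (t : Fin s → ℂ) (p : Fin k → ℂ) (d : ℕ) (t₀ : Fin d → ℂ),
              InnT (cl S) t (Fin.append u t₀) →
            ∀ (ρ : ℕ) (y : Fin ρ → ℂ), (∀ i, IsAlgebraic (bigField ω₁ ω₂ t p) (y i)) →
              (∀ i, y i ∉ cl (S ∪ y '' {j | j < i})) →
              (d ≤ max 1 ρ → Q1 ω₁ ω₂ t p) ∧
              ∀ N : ℕ, N + d ≤ tDim t + 4 + kDim2 ω₁ ω₂ p + max 1 ρ →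
                HasTrdeg (bigField ω₁ ω₂ t p) N) ∧
        ∀ ω₁ ω₂ : ℂ, LatOK ω₁ ω₂ b →
          ∃ P : MvPolynomial (Fin n) ℂ, P ≠ 0 ∧ P.totalDegree ≤ 2 * m ∧
          ∀ w : Fin n → ℚ, MvPolynomial.eval (fun i => (w i : ℂ)) P ≠ 0 →
          ∀ z : ℂ, z = ∑ i, (w i : ℂ) * x i →
          ∀ r r' : ℕ, r + 2 * r' + κ + 6 ≤ m →
            ∃ P' : MvPolynomial (Fin r × Fin m ⊕ Fin r' × Fin m) ℂ, P' ≠ 0 ∧
            P'.IsHomogeneous (r + 2 * r') ∧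
            ∀ (c : Fin r → Fin m → ℚ) (c' : Fin r' → Fin m → ℚ),
              MvPolynomial.eval (Sum.elim (fun q => (c q.1 q.2 : ℂ))
                (fun q => (c' q.1 q.2 : ℂ))) P' ≠ 0 →
            ∀ (u : Fin r → ℂ) (v : Fin r' → ℂ), (∀ i, u i = (∑ j, (c i j : ℂ) * b j) * z) →
              (∀ i, v i = (∑ j, (c' i j : ℂ) * b j) * z) →
            ∀ S : Set ℂ, S.Countable → ∀ (s k : ℕ) (t : Fin s → ℂ) (p : Fin k → ℂ)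
              (d d' : ℕ) (t₀ : Fin d → ℂ) (p₀ : Fin d' → ℂ),
              InnT (cl S) t (Fin.append u t₀) → InnK (cl S) ω₁ ω₂ p (Fin.append v p₀) →
            ∀ (ρ : ℕ) (y : Fin ρ → ℂ), (∀ i, IsAlgebraic (bigField ω₁ ω₂ t p) (y i)) →
              (∀ i, y i ∉ cl (S ∪ y '' {j | j < i})) →
            ∀ R : ℕ, R = max ρ (min 1 (modDim (cl S) t + modDim2 (cl S) ω₁ ω₂ p)) →
              ((open Classical in if IsCM ω₁ ω₂ then 2 else 4) + d + 2 * d' ≤ e₀ + R →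
                Q1 ω₁ ω₂ t p) ∧
              ∀ N : ℕ, N + d + 2 * d' ≤ e₀ + tDim t + kDim2 ω₁ ω₂ p + R →
                HasTrdeg (bigField ω₁ ω₂ t p) N := by
  refine ⟨CD.cl, CD.subset_cl, fun S T h => CD.cl_min (CD.closed_cl T) h, CD.prf_ClF, CD.prf_ClC,
    fun S x => (CD.closed_cl S).alg x, fun S ω₁ h1 ω₂ h2 s n t p ht hp =>
      CD.closed_big (CD.closed_cl S) h1 h2 ht hp,
    fun S ω₁ ω₂ him => CD.closed_jiff (CD.closed_cl S) him, ?_⟩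
  intro Q m κ
  obtain ⟨n₁, hn₁⟩ := hM Q m
  obtain ⟨n₂, hn₂⟩ := hA Q m κ
  refine ⟨max n₁ n₂, fun b hFT hb hκ n hn x hx => ⟨?_, ?_⟩⟩
  · obtain ⟨P, hP, hPd, hPw⟩ := hn₁ b hFT hb n (le_trans (le_max_left _ _) hn) x hx
    refine ⟨P, hP, hPd, fun w hw z hz r hr => ?_⟩
    have hSch : Sch b z := by
      rw [hz]
      exact hPw w hw
    obtain ⟨P', hP', hP'h, h3⟩ := hG m κ b z hb hκ hSch r hr
    refine ⟨P', hP', hP'h, fun c hc u hu S hS ω₁ ω₂ him hj s k t p d t₀ hI ρ y hy hyc => ?_⟩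
    have h4 := h3 c hc u hu S hS ω₁ ω₂ him hj s k t p d t₀ hI ρ y hy hyc
    refine ⟨fun hd => ?_, h4⟩
    unfold Q1
    rw [if_neg (CD.closed_not_CM (CD.closed_cl S) him hj)]
    exact h4 _ (by omega)
  · rintro ω₁ ω₂ ⟨him, hj, hk⟩
    have h1 : ω₁ ≠ 0 := by
      rintro rfl
      simp at him
    obtain ⟨P, hP, hPd, hPw⟩ := hn₂ b hFT hκ ω₁ ω₂ him hj (kli_of h1 hk) n
      (le_trans (le_max_right _ _) hn) x hx
    refine ⟨P, hP, hPd, fun w hw z hz r r' hr => ?_⟩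
    obtain ⟨P', hP', hP'h, h3⟩ := hPw w hw z hz r r' hr
    refine ⟨P', hP', hP'h, fun c c' hc u v hu hv S hS s k t p d d' t₀ p₀ hI hIK ρ y hy hyc R hR =>
      ?_⟩
    have h4 := h3 c c' hc u v hu hv S hS s k t p d d' t₀ p₀ hI (innE_of h1 hIK) ρ y hy hyc R hR
      e₀ (hC ω₁ ω₂ him hj)
    refine ⟨fun hd => ?_, h4⟩
    unfold Q1
    exact h4 _ (by omega)

end Pool.Agent.Work.MP_8da9ea_nt.EC
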