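import Pool.Agent.Work.MP_8da9ea_nt.EC.Stmts2
import Pool.Agent.Work.MP_8da9ea_nt.CD.End

/-!
# Item GenLD: generic curves, with defects
-/

set_option autoImplicit false

namespace Pool.Agent.Work.MP_8da9ea_nt.EC

open Pool.Agent.Work.MP_8da9ea_nt.EB Pool.Agent.Work.MP_327059_nt.GL Pool.Agent.Work.MP_8da9ea_nt.S
  Pool.Agent.Work.MP_8da9ea_nt.TG

theorem GenLD_pf (h : S_TSel) : S_GenLD := by
  classical
  intro m κ b z hb hκ hSch r hm
  obtain ⟨P', hP', hP'h, hP'c⟩ := rel_indep b z hSch κ hκ r 1 (by omega)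
    (IntermediateField.adjoin ℚ {2 * (Real.pi : ℂ) * Complex.I})
    (fun _ => 2 * (Real.pi : ℂ) * Complex.I) (by
      intro y hy
      have h1 : Set.range (fun _ : Fin 1 => 2 * (Real.pi : ℂ) * Complex.I) =
          {2 * (Real.pi : ℂ) * Complex.I} := Set.range_const
      rw [h1]
      exact isAlgebraic_algebraMap (⟨y, hy⟩ :
        IntermediateField.adjoin ℚ {2 * (Real.pi : ℂ) * Complex.I}))
  refine ⟨P', hP', hP'h, fun c hc u hu S hS ω₁ ω₂ him hj s k t p d t₀ hI ρ y hy hyc N hN => ?_⟩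
  have h1 : AlgebraicIndependent (IntermediateField.adjoin ℚ {2 * (Real.pi : ℂ) * Complex.I})
      (fun i => Complex.exp (u i)) := by
    have h2 := hP'c c hc
    simp only [← hu] at h2
    exact h2
  have hCM : ¬ IsCM ω₁ ω₂ := CD.closed_not_CM (CD.closed_cl S) him hj
  have hk : kDim2 ω₁ ω₂ p = 2 * pDim ω₁ ω₂ p := by
    unfold kDim2 pDim
    rw [if_neg hCM]
  obtain ⟨a, M, A, hMF, hMe, hA, hdim⟩ := h (CD.cl S) (CD.closed_cl S).kap s r d t u t₀ hI
  have hs := mono_indep _ u h1 A hA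
  have h3 := algInd_pi.sumElim_of_tower
    (S := IntermediateField.adjoin ℚ {2 * (Real.pi : ℂ) * Complex.I})
    (by
      rintro _ ⟨i, rfl⟩
      exact ⟨⟨_, IntermediateField.subset_adjoin _ _ rfl⟩, rfl⟩) hs
  have hexp : ∀ M : Fin s → ℤ, Complex.exp (∑ l, (M l : ℂ) * t l) ∈ bigField ω₁ ω₂ t p := by
    intro M
    rw [Complex.exp_sum]
    refine prod_mem fun l _ => ?_
    rw [Complex.exp_int_mul]
    exact zpow_mem (bigField_exp ω₁ ω₂ t p l) _
  have hT : HasTrdeg (bigField ω₁ ω₂ t p ⊓ CD.cl S) (a + 1) := by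
    refine ⟨_, ?_, h3.comp (finSumFinEquiv (m := a) (n := 1)).symm (Equiv.injective _)⟩
    intro i
    have key : ∀ v : Fin a ⊕ Fin 1,
        Sum.elim (fun i => Complex.exp (∑ j, (A i j : ℂ) * u j))
          (fun _ => 2 * (Real.pi : ℂ) * Complex.I) v ∈ bigField ω₁ ω₂ t p ⊓ CD.cl S := by
      rintro (i | i)
      · simp only [Sum.elim_inl]
        rw [← hMe i]
        exact ⟨hexp _, CD.closed_exp (CD.closed_cl S) (hMF i)⟩
      · exact ⟨big_pi' him t p, (CD.closed_cl S).kap⟩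
    exact key _
  have h5 := CD.all_mov (t := t) (p := p) CD.prf_Lin CD.prf_Lin2 CD.prf_Lin3 CD.prf_Add CD.end_Mul
    him hS hj y (fun i => CD.mem_acl.2 (hy i)) hyc
  have h6 := h5.hasTrdeg hT
  exact h6.mono le_rfl (by omega)

end Pool.Agent.Work.MP_8da9ea_nt.EC
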