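import Pool.Agent.Work.MP_8da9ea_nt.EC.Stmts
import Pool.Agent.Work.MP_8da9ea_nt.S.Stmts

/-!
# Item AlgL: the lower bound for lattices with algebraic invariant (assembly)
-/

set_option autoImplicit false

namespace Pool.Agent.Work.MP_8da9ea_nt.EC

open Pool.Agent.Work.MP_8da9ea_nt.EB Pool.Agent.Work.MP_327059_nt.GL Pool.Agent.Work.MP_8da9ea_nt.S
  Submodule

namespace I_AlgL

theorem Lam_neg (τ : ℂ) : Lam (-τ) = Lam τ := by
  ext x
  simp only [mem_Lam]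
  constructor
  · rintro ⟨m, n, rfl⟩
    exact ⟨m, -n, by push_cast; ring⟩
  · rintro ⟨m, n, rfl⟩
    exact ⟨m, -n, by push_cast; ring⟩

theorem IsE_neg (τ g : ℂ) : IsE (-τ) g ↔ IsE τ g := by
  unfold IsE
  rw [Lam_neg]
  constructor
  · rintro ⟨N, h0, h1, h2⟩
    refine ⟨N, h0, h1, ?_⟩
    obtain ⟨m, n, h3⟩ := mem_Lam.1 h2
    refine mem_Lam.2 ⟨-m, -n, ?_⟩
    push_cast
    linear_combination -h3
  · rintro ⟨N, h0, h1, h2⟩
    refine ⟨N, h0, h1, ?_⟩
    obtain ⟨m, n, h3⟩ := mem_Lam.1 h2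
    refine mem_Lam.2 ⟨-m, -n, ?_⟩
    push_cast
    linear_combination -h3

theorem IsE_rat (τ : ℂ) (q : ℚ) : IsE τ q := by
  refine ⟨q.den, by exact_mod_cast q.den_ne_zero, ?_, ?_⟩
  · refine mem_Lam.2 ⟨q.num, 0, ?_⟩
    have h1 : (q : ℂ) = q.num / q.den := by exact_mod_cast (Rat.num_div_den q).symm
    have h2 : (q.den : ℂ) ≠ 0 := by exact_mod_cast q.den_ne_zero
    rw [h1]
    push_cast
    field_simp
    try ring
  · refine mem_Lam.2 ⟨0, q.num, ?_⟩
    have h1 : (q : ℂ) = q.num / q.den := by exact_mod_cast (Rat.num_div_den q).symm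
    have h2 : (q.den : ℂ) ≠ 0 := by exact_mod_cast q.den_ne_zero
    rw [h1]
    push_cast
    field_simp
    try ring

theorem KLI_lin {τ : ℂ} {m : ℕ} {b : Fin m → ℂ} (h : KLI τ b) : LinearIndependent ℚ b := by
  rw [Fintype.linearIndependent_iff]
  intro g hg
  have h1 := h (fun j => (g j : ℂ)) (fun j => IsE_rat τ _) (by
    rw [← hg]
    exact Finset.sum_congr rfl fun j _ => by rw [Rat.smul_def])
  intro i
  have h2 : (g i : ℂ) = 0 := congrFun h1 i
  exact_mod_cast h2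

theorem kDim2_neg (ω₁ ω₂ : ℂ) {n : ℕ} (p : Fin n → ℂ) : kDim2 ω₁ (-ω₂) p = kDim2 ω₁ ω₂ p := by
  classical
  unfold kDim2
  have key : ∀ (A : Set ℂ) (b : ℂ), span ℚ (A ∪ {ω₁, -b}) = span ℚ (A ∪ {ω₁, b}) := by
    intro A b
    apply le_antisymm
    · rw [span_le]
      rintro x (hx | hx | hx)
      · exact subset_span (Or.inl hx)
      · exact subset_span (Or.inr (Or.inl hx))
      · rw [Set.mem_singleton_iff] at hx
        rw [hx]
        exact neg_mem (subset_span (Or.inr (Or.inr rfl)))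
    · rw [span_le]
      rintro x (hx | hx | hx)
      · exact subset_span (Or.inl hx)
      · exact subset_span (Or.inr (Or.inl hx))
      · rw [Set.mem_singleton_iff] at hx
        have h4 : -(-b) ∈ span ℚ (A ∪ {ω₁, -b}) :=
          neg_mem (subset_span (Or.inr (Or.inr rfl)))
        rw [hx]
        rwa [neg_neg] at h4
  by_cases h : IsCM ω₁ ω₂
  · rw [if_pos h, if_pos ((IsCM_neg ω₁ ω₂).2 h), key]
    have h2 : span ℚ (Set.range p ∪ Set.range (fun i => -ω₂ / ω₁ * p i) ∪ {ω₁, ω₂}) =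
        span ℚ (Set.range p ∪ Set.range (fun i => ω₂ / ω₁ * p i) ∪ {ω₁, ω₂}) := by
      have h3 : ∀ i, -ω₂ / ω₁ * p i = -(ω₂ / ω₁ * p i) := fun i => by rw [neg_div, neg_mul]
      simp only [h3]
      apply le_antisymm
      · rw [span_le]
        rintro x ((hx | ⟨i, rfl⟩) | hx)
        · exact subset_span (Or.inl (Or.inl hx))
        · exact neg_mem (subset_span (Or.inl (Or.inr ⟨i, rfl⟩)))
        · exact subset_span (Or.inr hx)
      · rw [span_le]
        rintro x ((hx | ⟨i, rfl⟩) | hx)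
        · exact subset_span (Or.inl (Or.inl hx))
        · have h4 : -(-(ω₂ / ω₁ * p i)) ∈ span ℚ
              (Set.range p ∪ Set.range (fun i => -(ω₂ / ω₁ * p i)) ∪ {ω₁, ω₂}) :=
            neg_mem (subset_span (Or.inl (Or.inr ⟨i, rfl⟩)))
          rwa [neg_neg] at h4
        · exact subset_span (Or.inr hx)
    rw [h2]
  · rw [if_neg h, if_neg (fun h' => h ((IsCM_neg ω₁ ω₂).1 h')), key]

theorem InnE_neg {F : IntermediateField ℚ ℂ} {ω₁ ω₂ : ℂ} {n r : ℕ} {p : Fin n → ℂ}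
    {v : Fin r → ℂ} (h : InnE F ω₁ (-ω₂) p v) : InnE F ω₁ ω₂ p v := by
  intro g hg hgF
  obtain ⟨h', q, q', h1, h2⟩ := h g (fun j => by
    rw [neg_div, IsE_neg]
    exact hg j) hgF
  refine ⟨h', q, -q', fun i => ?_, ?_⟩
  · have h3 := h1 i
    rwa [neg_div, IsE_neg] at h3
  · rw [h2, neg_div]
    push_cast
    ring

theorem trdeg_one {ω₁ ω₂ : ℂ} (him : (ω₂ / ω₁).im ≠ 0) :
    HasTrdeg (bigField 1 (ω₂ / ω₁) (![] : Fin 0 → ℂ) (![] : Fin 0 → ℂ)) 1 :=
  ⟨fun _ => kap, fun _ => big_pi' (by rwa [div_one]) _ _, algInd_pi⟩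

end I_AlgL

open I_AlgL in
theorem AlgL_pf (hM : S_MainS) (hE : S_EllRank) (hT : S_TorRank) (hN : S_Norm) (hR : S_RelEC)
    (hO : S_OnL) : S_AlgL := by
  classical
  intro Q m κ
  obtain ⟨n₁, hn₁⟩ := hM Q m
  obtain ⟨n₂, hn₂⟩ := hE Q m
  refine ⟨max n₁ n₂, fun b hFT hκ ω₁ ω₂ him hj hk n hn x hx => ?_⟩
  have hb : LinearIndependent ℚ b := KLI_lin hk
  have h1 : ω₁ ≠ 0 := by
    rintro rfl
    simp at him
  -- the lattice in normal form
  obtain ⟨τ, hτ, hω, hτe⟩ : ∃ τ : ℂ, 0 < τ.im ∧ (ω₂ = ω₁ * τ ∨ ω₂ = -(ω₁ * τ)) ∧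
      (∀ g, IsE (ω₂ / ω₁) g ↔ IsE τ g) := by
    rcases lt_or_gt_of_ne him with hlt | hgt
    · exact ⟨-(ω₂ / ω₁), by simpa using hlt, Or.inr (by field_simp), fun g => (IsE_neg _ g).symm⟩
    · exact ⟨ω₂ / ω₁, hgt, Or.inl (by field_simp), fun g => Iff.rfl⟩
  have hjτ : IsAlgebraic ℚ (jInv 1 τ) := by
    rw [← jInv_smul h1 τ]
    rcases hω with hω | hω
    · rwa [← hω]
    · rw [← jInv_neg, ← hω]
      exact hj
  obtain ⟨μ, hμ, hμa⟩ := hN τ hτ hjτ
  have hkτ : KLI τ b := fun g hg h => hk g (fun j => (hτe _).2 (hg j)) h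
  have hx' : LinearIndependent ℚ (fun i => x i / ω₁) := by
    rw [Fintype.linearIndependent_iff] at hx ⊢
    intro g hg
    apply hx g
    have h2 : ∑ i, g i • x i = (∑ i, g i • (x i / ω₁)) * ω₁ := by
      rw [Finset.sum_mul]
      refine Finset.sum_congr rfl fun i _ => ?_
      rw [smul_mul_assoc, div_mul_cancel₀ _ h1]
    rw [h2, hg, zero_mul]
  obtain ⟨P₁, hP₁, hP₁d, hP₁w⟩ := hn₁ b hFT hb n (le_trans (le_max_left _ _) hn) x hx
  obtain ⟨P₂, hP₂, hP₂d, hP₂w⟩ := hn₂ τ μ b hμ hFT hkτ n (le_trans (le_max_right _ _) hn)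
    (fun i => x i / ω₁) hx' κ hκ
  refine ⟨P₁ * P₂, mul_ne_zero hP₁ hP₂, ?_, fun w hw z hz r r' hr => ?_⟩
  · have := MvPolynomial.totalDegree_mul P₁ P₂
    omega
  rw [map_mul] at hw
  have hSch : Sch b z := by
    rw [hz]
    exact hP₁w w (left_ne_zero_of_mul hw)
  have htor := hT m κ b z hSch hκ
  have hell := hP₂w w (right_ne_zero_of_mul hw)
  have hz' : ∑ i, (w i : ℂ) * (x i / ω₁) = z / ω₁ := by
    rw [hz, Finset.sum_div]
    exact Finset.sum_congr rfl fun i _ => by ring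
  rw [hz'] at hell
  obtain ⟨K, P', hK, hzK, hbK, hP', hP'h, h3⟩ := hR m κ r r' b z (z / ω₁) τ μ hμ hr htor hell
  refine ⟨P', hP', hP'h, fun c c' hc u v hu hv S hS s k t p hI hIE ρ y hy hyc R hRR e he => ?_⟩
  obtain ⟨h4, h5⟩ := h3 c c' hc
  have hu' : (fun i => ∑ j, (c i j : ℂ) * (b j * z)) = u := by
    funext i
    rw [hu i, Finset.sum_mul]
    exact Finset.sum_congr rfl fun j _ => by ring
  have hv' : (fun i => ∑ j, (c' i j : ℂ) * (b j * (z / ω₁))) = fun i => v i / ω₁ := by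
    funext i
    rw [hv i, Finset.sum_mul, Finset.sum_div]
    exact Finset.sum_congr rfl fun j _ => by ring
  rw [hu', hv'] at h5
  have h6 : ∀ i, v i / ω₁ ∉ Lam τ := by
    intro i
    rw [← congrFun hv' i]
    exact h4 i
  have h7 : ∀ i, v i / ω₁ ∈ K := by
    intro i
    rw [← congrFun hv' i]
    exact sum_mem fun j _ => mul_mem (SubfieldClass.ratCast_mem K _) (mul_mem (hbK j) hzK)
  have he' : HasTrdeg (bigField 1 (ω₂ / ω₁) (![] : Fin 0 → ℂ) (![] : Fin 0 → ℂ)) e := by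
    rcases he with he | rfl
    · exact he
    · exact trdeg_one him
  have main : HasTrdeg (bigField ω₁ ω₂ t p) (e + tDim t + kDim2 ω₁ ω₂ p + R) := by
    rcases hω with hω | hω
    · subst hω
      have hdiv : ω₁ * τ / ω₁ = τ := mul_div_cancel_left₀ _ h1
      rw [hdiv] at he'
      rw [hRR]
      exact hO S hS τ μ ω₁ hμ h1 hμa K hK r r' u v h7 h6 h5 s k t p hI hIE ρ y hy hyc e he'
    · have hω' : -ω₂ = ω₁ * τ := by rw [hω, neg_neg]
      have hdiv : ω₂ / ω₁ = -τ := by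
        rw [hω, neg_div, mul_div_cancel_left₀ _ h1]
      have e1 : bigField ω₁ (ω₁ * τ) t p = bigField ω₁ ω₂ t p := by
        rw [← hω', bigField_neg]
      have e2 : modDim2 (CD.cl S) ω₁ (ω₁ * τ) p = modDim2 (CD.cl S) ω₁ ω₂ p := by
        rw [← hω', modDim2_neg]
      have e3 : kDim2 ω₁ (ω₁ * τ) p = kDim2 ω₁ ω₂ p := by
        rw [← hω', kDim2_neg]
      have e4 : bigField 1 (ω₂ / ω₁) (![] : Fin 0 → ℂ) (![] : Fin 0 → ℂ) =
          bigField 1 τ (![] : Fin 0 → ℂ) (![] : Fin 0 → ℂ) := by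
        rw [hdiv, bigField_neg]
      rw [e4] at he'
      have h8 : InnE (CD.cl S) ω₁ (ω₁ * τ) p v := by
        apply InnE_neg
        rw [← hω', neg_neg]
        exact hIE
      have h9 := hO S hS τ μ ω₁ hμ h1 hμa K hK r r' u v h7 h6 h5 s k t p hI h8 ρ y
        (by rw [e1]; exact hy) hyc e he'
      rw [e1, e2, e3] at h9
      rw [hRR]
      exact h9
  refine ⟨main, fun hle => ?_⟩
  unfold Q1
  exact main.mono le_rfl (by omega)

end Pool.Agent.Work.MP_8da9ea_nt.EC
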