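import Pool.Agent.Work.MP_8da9ea_nt.EC.Stmts
import Pool.Agent.Work.MP_8da9ea_nt.CD.End

/-!
# Points of a closed field on lines: the final theorem
-/

set_option autoImplicit false

namespace Pool.Agent.Work.MP_8da9ea_nt.EC

open Pool.Agent.Work.MP_8da9ea_nt.EB Pool.Agent.Work.MP_327059_nt.GL Pool.Agent.Work.MP_8da9ea_nt.S
  Pool.Agent.Work.MP_8da9ea_nt.TG

/-- the closed fields have the property needed for the generic curves -/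
theorem genF_cl (S : Set ℂ) (hS : S.Countable) : GenF (CD.cl S) := by
  classical
  intro ω₁ ω₂ him hj s k t p hsch
  have hCM : ¬ IsCM ω₁ ω₂ := CD.closed_not_CM (CD.closed_cl S) him hj
  have hk : kDim2 ω₁ ω₂ p = 2 * pDim ω₁ ω₂ p := by
    unfold kDim2 pDim
    rw [if_neg hCM]
  obtain ⟨m, t', ht', hdim, hexp⟩ := CD.exists_part (t := t) (p := p) (CD.closed_cl S) him
  have h1 := CD.all_mov (t := t) (p := p) CD.prf_Lin CD.prf_Lin2 CD.prf_Lin3 CD.prf_Add CD.end_Mul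
    him hS hj (r := 0) (fun i => i.elim0) (fun i => i.elim0) (fun i => i.elim0)
  have h2 := h1.hasTrdeg ((hsch m t' ht').mono hexp le_rfl)
  unfold Q1
  rw [if_neg hCM, hk]
  exact h2.mono le_rfl (by omega)

/-- **The final theorem**, from the items. -/
theorem main (hM : S_MainS) (hG : S_GenL) (hA : S_AlgL) :
    ∃ cl : Set ℂ → IntermediateField ℚ ℂ,
      (∀ S : Set ℂ, S ⊆ cl S) ∧ (∀ S T : Set ℂ, S ⊆ cl T → cl S ≤ cl T) ∧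
      (∀ S x, x ∈ cl S → ∃ T : Finset ℂ, (T : Set ℂ) ⊆ S ∧ x ∈ cl (T : Set ℂ)) ∧
      (∀ S, S.Countable → (cl S : Set ℂ).Countable) ∧
      (∀ S x, IsAlgebraic (cl S) x → x ∈ cl S) ∧
      (∀ S, ∀ ω₁ ∈ cl S, ∀ ω₂ ∈ cl S, ∀ (s n : ℕ) (t : Fin s → ℂ) (p : Fin n → ℂ),
        (∀ l, t l ∈ cl S) → (∀ i, p i ∈ cl S) → bigField ω₁ ω₂ t p ≤ cl S) ∧
      (∀ S ω₁ ω₂, (ω₂ / ω₁).im ≠ 0 → (jInv ω₁ ω₂ ∈ cl S ↔ ω₂ / ω₁ ∈ cl S)) ∧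
      ∀ Q m κ : ℕ, ∃ n₀ : ℕ, ∀ b : Fin m → ℂ, FT Q b → LinearIndependent ℚ b → TrLe κ b →
        ∀ n : ℕ, n₀ ≤ n → ∀ x : Fin n → ℂ, LinearIndependent ℚ x →
        (∃ P : MvPolynomial (Fin n) ℂ, P ≠ 0 ∧ P.totalDegree ≤ m ∧
          ∀ w : Fin n → ℚ, MvPolynomial.eval (fun i => (w i : ℂ)) P ≠ 0 →
          ∀ z : ℂ, z = ∑ i, (w i : ℂ) * x i →
          ((∀ j, IsAlgebraic ℚ (b j)) → ∀ S : Set ℂ, S.Countable →
            ∀ ω₁ ω₂ : ℂ, (ω₂ / ω₁).im ≠ 0 → jInv ω₁ ω₂ ∉ cl S →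
            ∀ (s k : ℕ) (t : Fin s → ℂ) (p : Fin k → ℂ), Inn (cl S) t (fun j => b j * z) →
              Q1 ω₁ ω₂ t p) ∧
          ∀ r : ℕ, r + κ + 2 ≤ m →
            ∃ P' : MvPolynomial (Fin r × Fin m) ℂ, P' ≠ 0 ∧ P'.IsHomogeneous r ∧
            ∀ c : Fin r → Fin m → ℚ, MvPolynomial.eval (fun q => (c q.1 q.2 : ℂ)) P' ≠ 0 →
            ∀ u : Fin r → ℂ, (∀ i, u i = (∑ j, (c i j : ℂ) * b j) * z) →
            ∀ S : Set ℂ, S.Countable →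
            ∀ ω₁ ω₂ : ℂ, (ω₂ / ω₁).im ≠ 0 → jInv ω₁ ω₂ ∉ cl S →
            ∀ (s k : ℕ) (t : Fin s → ℂ) (p : Fin k → ℂ), Inn (cl S) t u → Q1 ω₁ ω₂ t p) ∧
        ∀ ω₁ ω₂ : ℂ, (ω₂ / ω₁).im ≠ 0 → IsAlgebraic ℚ (jInv ω₁ ω₂) → KLI (ω₂ / ω₁) b →
          ∃ P : MvPolynomial (Fin n) ℂ, P ≠ 0 ∧ P.totalDegree ≤ 2 * m ∧
          ∀ w : Fin n → ℚ, MvPolynomial.eval (fun i => (w i : ℂ)) P ≠ 0 →
          ∀ z : ℂ, z = ∑ i, (w i : ℂ) * x i →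
          ∀ r r' : ℕ, r + 2 * r' + κ + 6 ≤ m →
            ∃ P' : MvPolynomial (Fin r × Fin m ⊕ Fin r' × Fin m) ℂ, P' ≠ 0 ∧
            P'.IsHomogeneous (r + 2 * r') ∧
            ∀ (c : Fin r → Fin m → ℚ) (c' : Fin r' → Fin m → ℚ),
              MvPolynomial.eval (Sum.elim (fun q => (c q.1 q.2 : ℂ))
                (fun q => (c' q.1 q.2 : ℂ))) P' ≠ 0 →
            ∀ (u : Fin r → ℂ) (v : Fin r' → ℂ), (∀ i, u i = (∑ j, (c i j : ℂ) * b j) * z) →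
              (∀ i, v i = (∑ j, (c' i j : ℂ) * b j) * z) →
            ∀ S : Set ℂ, S.Countable → ∀ (s k : ℕ) (t : Fin s → ℂ) (p : Fin k → ℂ),
              Inn (cl S) t u → InnE (cl S) ω₁ ω₂ p v →
            ∀ (ρ : ℕ) (y : Fin ρ → ℂ), (∀ i, IsAlgebraic (bigField ω₁ ω₂ t p) (y i)) →
              (∀ i, y i ∉ cl (S ∪ y '' {j | j < i})) →
            ∀ R : ℕ, R = max ρ (min 1 (modDim (cl S) t + modDim2 (cl S) ω₁ ω₂ p)) →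
            ∀ e : ℕ, (HasTrdeg (bigField 1 (ω₂ / ω₁) (![] : Fin 0 → ℂ) (![] : Fin 0 → ℂ)) e ∨
                e = 1) →
              HasTrdeg (bigField ω₁ ω₂ t p) (e + tDim t + kDim2 ω₁ ω₂ p + R) ∧
              ((open Classical in if IsCM ω₁ ω₂ then 2 else 4) ≤ e + R → Q1 ω₁ ω₂ t p) := by
  refine ⟨CD.cl, CD.subset_cl, fun S T h => CD.cl_min (CD.closed_cl T) h, CD.prf_ClF, CD.prf_ClC,
    fun S x => (CD.closed_cl S).alg x, fun S ω₁ h1 ω₂ h2 s n t p ht hp =>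
      CD.closed_big (CD.closed_cl S) h1 h2 ht hp,
    fun S ω₁ ω₂ him => CD.closed_jiff (CD.closed_cl S) him, ?_⟩
  intro Q m κ
  obtain ⟨n₁, hn₁⟩ := hM Q m
  obtain ⟨n₂, hn₂⟩ := hA Q m κ
  refine ⟨max n₁ n₂, fun b hFT hb hκ n hn x hx => ⟨?_, ?_⟩⟩
  · obtain ⟨P, hP, hPd, hPw⟩ := hn₁ b hFT hb n (le_trans (le_max_left _ _) hn) x hx
    refine ⟨P, hP, hPd, fun w hw z hz => ?_⟩
    have hSch : Sch b z := by
      rw [hz]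
      exact hPw w hw
    obtain ⟨h1, h2⟩ := hG m κ b z hb hκ hSch
    refine ⟨fun halg S hS => h1 halg _ (genF_cl S hS), fun r hr => ?_⟩
    obtain ⟨P', hP', hP'h, h3⟩ := h2 r hr
    exact ⟨P', hP', hP'h, fun c hc u hu S hS => h3 c hc u hu _ (genF_cl S hS)⟩
  · intro ω₁ ω₂ him hj hk
    exact hn₂ b hFT hκ ω₁ ω₂ him hj hk n (le_trans (le_max_right _ _) hn) x hx

end Pool.Agent.Work.MP_8da9ea_nt.EC
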