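import Pool.Agent.Work.MP_8da9ea_nt.EC.Stmts
import Pool.Agent.Work.MP_8da9ea_nt.CD.Lin2
import Pool.Agent.Work.MP_8da9ea_nt.CD.Lin3

/-!
# Points of a closed field on lines: item PPart
-/

set_option autoImplicit false

namespace Pool.Agent.Work.MP_8da9ea_nt.EC

open Pool.Agent.Work.MP_8da9ea_nt.EB Pool.Agent.Work.MP_327059_nt.GL Pool.Agent.Work.MP_8da9ea_nt.S

namespace I_PPart

open Submodule

/-- multiplication by `ω₁` does not change the dimension -/
lemma scale {n : ℕ} (ω₁ ω₂ : ℂ) (h1 : ω₁ ≠ 0) (p : Fin n → ℂ) :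
    Module.finrank ℚ (span ℚ (Set.range p ∪ Set.range (fun i => ω₂ / ω₁ * p i) ∪ {ω₁, ω₂})) =
      Module.finrank ℚ (span ℚ (Set.range (fun j => p j / ω₁) ∪
        Set.range (fun j => ω₂ / ω₁ * (p j / ω₁)) ∪ {1, ω₂ / ω₁})) := by
  set e : ℂ ≃ₗ[ℚ] ℂ := (LinearEquiv.smulOfNeZero ℂ ℂ ω₁ h1).restrictScalars ℚ with he
  have hee : ∀ x, e x = ω₁ * x := fun x => rfl
  have h2 : (span ℚ (Set.range (fun j => p j / ω₁) ∪
        Set.range (fun j => ω₂ / ω₁ * (p j / ω₁)) ∪ {1, ω₂ / ω₁})).map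
      (e : ℂ →ₗ[ℚ] ℂ) =
      span ℚ (Set.range p ∪ Set.range (fun i => ω₂ / ω₁ * p i) ∪ {ω₁, ω₂}) := by
    rw [Submodule.map_span, Set.image_union, Set.image_union, ← Set.range_comp, ← Set.range_comp,
      Set.image_pair]
    congr 1
    congr 1
    · congr 1
      · congr 1
        funext j
        show ω₁ * (p j / ω₁) = p j
        field_simp
      · congr 1
        funext j
        show ω₁ * (ω₂ / ω₁ * (p j / ω₁)) = ω₂ / ω₁ * p j
        field_simp
    · show {ω₁ * 1, ω₁ * (ω₂ / ω₁)} = _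
      rw [mul_one, mul_div_cancel₀ _ h1]
  rw [← h2]
  exact LinearEquiv.finrank_map_eq e _

/-- a quadratic field has dimension at most two -/
lemma finrank_le_two {τ : ℂ} {a b c : ℤ} (ha : a ≠ 0)
    (h : (a : ℂ) * τ ^ 2 + (b : ℂ) * τ + (c : ℂ) = 0) :
    FiniteDimensional ℚ (IntermediateField.adjoin ℚ {τ}) ∧
      Module.finrank ℚ (IntermediateField.adjoin ℚ {τ}) ≤ 2 := by
  set P : Polynomial ℚ := Polynomial.C (a : ℚ) * Polynomial.X ^ 2 +
    Polynomial.C (b : ℚ) * Polynomial.X + Polynomial.C (c : ℚ) with hP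
  have ha' : (a : ℚ) ≠ 0 := by exact_mod_cast ha
  have hdeg : P.natDegree = 2 := Polynomial.natDegree_quadratic ha'
  have hP0 : P ≠ 0 := by
    intro h0
    rw [h0] at hdeg
    simp at hdeg
  have hev : Polynomial.aeval τ P = 0 := by
    rw [hP]
    simp only [map_add, map_mul, map_pow, Polynomial.aeval_X, Polynomial.aeval_C]
    simpa using h
  have hint : IsIntegral ℚ τ := isAlgebraic_iff_isIntegral.1 ⟨P, hP0, hev⟩
  refine ⟨IntermediateField.adjoin.finiteDimensional hint, ?_⟩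
  rw [IntermediateField.adjoin.finrank hint]
  have := Polynomial.natDegree_le_of_dvd (minpoly.dvd ℚ τ hev) hP0
  rwa [hdeg] at this

/-- the dimension in the CM case -/
lemma kDim2_le (ω₁ ω₂ : ℂ) (h1 : ω₁ ≠ 0) (hCM : IsCM ω₁ ω₂) {n : ℕ} (p : Fin n → ℂ) :
    kDim2 ω₁ ω₂ p ≤ modDim2 (IntermediateField.adjoin ℚ {ω₂ / ω₁}) ω₁ ω₂ p := by
  obtain ⟨a, b, c, ha, habc⟩ := hCM
  obtain ⟨hfd, hle⟩ := finrank_le_two ha habc
  have hCM : IsCM ω₁ ω₂ := ⟨a, b, c, ha, habc⟩
  set K : IntermediateField ℚ ℂ := IntermediateField.adjoin ℚ {ω₂ / ω₁} with hK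
  set KK : Submodule ℚ ℂ := Subalgebra.toSubmodule K.toSubalgebra with hKK
  have hfdK : FiniteDimensional ℚ KK := hfd
  have hfrK : Module.finrank ℚ KK ≤ 2 := hle
  set V : Submodule ℚ ℂ := span ℚ (Set.range (fun j => p j / ω₁) ∪
        Set.range (fun j => ω₂ / ω₁ * (p j / ω₁)) ∪ {1, ω₂ / ω₁}) with hV
  have hfdV : FiniteDimensional ℚ V :=
    FiniteDimensional.span_of_finite ℚ (((Set.finite_range _).union (Set.finite_range _)).union
      ((Set.finite_singleton _).insert _))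
  have hr := CD.Lin2_rank V KK
  have hinf : Module.finrank ℚ (V ⊓ KK : Submodule ℚ ℂ) ≤ 2 :=
    (Submodule.finrank_mono inf_le_right).trans hfrK
  have hτ : ω₂ / ω₁ ∈ K := IntermediateField.mem_adjoin_simple_self ℚ _
  have hmap : V.map KK.mkQ = span ℚ
      (Set.range (fun i => (Submodule.Quotient.mk (p i / ω₁) : ℂ ⧸ KK)) ∪
        Set.range (fun i => (Submodule.Quotient.mk (ω₂ / ω₁ * (p i / ω₁)) : ℂ ⧸ KK))) := by
    rw [hV, Submodule.map_span, Set.image_union, Set.image_union, Set.image_pair,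
      ← Set.range_comp, ← Set.range_comp]
    have h0 : KK.mkQ 1 = 0 := by
      rw [Submodule.mkQ_apply, Submodule.Quotient.mk_eq_zero]
      exact one_mem K
    have h0' : KK.mkQ (ω₂ / ω₁) = 0 := by
      rw [Submodule.mkQ_apply, Submodule.Quotient.mk_eq_zero]
      exact hτ
    rw [h0, h0', Set.pair_eq_singleton, span_union, span_zero_singleton, sup_bot_eq]
    rfl
  unfold kDim2 modDim2
  rw [if_pos hCM, if_pos hCM, scale ω₁ ω₂ h1 p, ← hV, ← hKK, ← hmap]
  omega

/-- endomorphisms are rational if there is no complex multiplication -/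
lemma rational {ω₁ ω₂ : ℂ} (hCM : ¬ IsCM ω₁ ω₂) {c : ℂ} (hc : IsE (ω₂ / ω₁) c) :
    ∃ q : ℚ, c = q := by
  obtain ⟨N, hN, h1, h2⟩ := hc
  obtain ⟨m, n, hmn⟩ := mem_Lam.1 h1
  obtain ⟨m', n', hmn'⟩ := mem_Lam.1 h2
  have hn : n = 0 := by
    by_contra hn
    apply hCM
    refine ⟨n, m - n', -m', hn, ?_⟩
    rw [hmn] at hmn'
    push_cast
    linear_combination hmn'
  have hN' : (N : ℂ) ≠ 0 := by exact_mod_cast hN
  refine ⟨(m : ℚ) / N, ?_⟩
  rw [hn] at hmn
  push_cast at hmn ⊢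
  rw [eq_div_iff hN']
  linear_combination hmn

end I_PPart

theorem PPart_pf : S_PPart := by
  intro F ω₁ ω₂ him hτF n p
  have h1 : ω₁ ≠ 0 := by
    rintro rfl
    rw [div_zero] at him
    exact him rfl
  by_cases hCM : IsCM ω₁ ω₂
  · have hKF : IntermediateField.adjoin ℚ {ω₂ / ω₁} ≤ F :=
      IntermediateField.adjoin_simple_le_iff.2 hτF
    obtain ⟨b, g, hg1, hg2, hg3, hg4⟩ := CD.prf_Lin2 (IntermediateField.adjoin ℚ {ω₂ / ω₁}) F hKF
      ω₁ ω₂ him (IntermediateField.mem_adjoin_simple_self ℚ _) n p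
    refine ⟨b, g, hg1, hg2, ?_, (I_PPart.kDim2_le ω₁ ω₂ h1 hCM p).trans hg4⟩
    intro c q q' hc hsum
    refine hg3 c hc ?_
    rw [hsum]
    exact add_mem (SubfieldClass.ratCast_mem _ _) (mul_mem (SubfieldClass.ratCast_mem _ _)
      (IntermediateField.mem_adjoin_simple_self ℚ _))
  · obtain ⟨b, m, hm1, hm2, hm3⟩ := CD.prf_Lin3 F ω₁ ω₂ him hτF hCM n p
    refine ⟨b, fun i j => (m i j : ℂ), fun i j => CD.isInt_int _ _, hm1, ?_, ?_⟩
    · intro c q q' hc hsum
      choose r hr using fun i => I_PPart.rational hCM (hc i)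
      obtain ⟨N, A, hN, hA⟩ := clear_rat r
      have hq : (q.den : ℂ) * (q : ℂ) = q.num := by
        have := q.den_mul_eq_num
        exact_mod_cast this
      have hq' : (q'.den : ℂ) * (q' : ℂ) = q'.num := by
        have := q'.den_mul_eq_num
        exact_mod_cast this
      have hA' : ∀ i, (A i : ℂ) = (N : ℂ) * c i := by
        intro i
        rw [hr i]
        have := hA i
        exact_mod_cast this
      have h5 := hm2 (fun i => (q.den : ℤ) * q'.den * A i) (N * q'.den * q.num)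
        (N * q.den * q'.num) (by
          have h6 : ∑ i, (((q.den : ℤ) * q'.den * A i : ℤ) : ℂ) * ∑ j, (m i j : ℂ) * (p j / ω₁) =
              (q.den : ℂ) * q'.den * N * ∑ i, c i * ∑ j, (m i j : ℂ) * (p j / ω₁) := by
            rw [Finset.mul_sum]
            refine Finset.sum_congr rfl fun i _ => ?_
            push_cast
            rw [hA' i]
            ring
          rw [h6, hsum]
          push_cast
          linear_combination ((q'.den : ℂ) * N) * hq + ((q.den : ℂ) * N * (ω₂ / ω₁)) * hq')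
      funext i
      have h7 := congrFun h5 i
      have h8 : (q.den : ℤ) * q'.den ≠ 0 :=
        mul_ne_zero (by exact_mod_cast q.den_nz) (by exact_mod_cast q'.den_nz)
      have h9 : A i = 0 := by
        rcases mul_eq_zero.1 h7 with h | h
        · exact absurd h h8
        · exact h
      have h10 := hA' i
      rw [h9] at h10
      have hN' : (N : ℂ) ≠ 0 := by exact_mod_cast hN
      have h11 : (N : ℂ) * c i = 0 := by rw [← h10]; simp
      exact (mul_eq_zero.1 h11).resolve_left hN'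
    · unfold kDim2
      rw [if_neg hCM]
      exact hm3

end Pool.Agent.Work.MP_8da9ea_nt.EC
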