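import Pool.Agent.Work.MP_8da9ea_nt.EC.Stmts

/-!
# Item TPart: the part of `t` in the field of constants
-/

set_option autoImplicit false

namespace Pool.Agent.Work.MP_8da9ea_nt.EC

open Pool.Agent.Work.MP_8da9ea_nt.EB Pool.Agent.Work.MP_327059_nt.GL Pool.Agent.Work.MP_8da9ea_nt.S

theorem TPart_pf : S_TPart := by
  classical
  intro F hF s t
  obtain ⟨m, A, hA, hle⟩ := exists_const_basis F hF t
  set t' : Fin m → ℂ := fun i => ∑ l, (A i l : ℂ) * t l with ht'
  have hkap : (2 * (Real.pi : ℂ) * Complex.I) ≠ 0 := Complex.two_pi_I_ne_zero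
  have ha : LinearIndependent ℚ ![(2 * (Real.pi : ℂ) * Complex.I)] := by
    rw [linearIndependent_unique_iff]
    simp
  obtain ⟨J, hJ, hJc⟩ := exists_rel_basis ![(2 * (Real.pi : ℂ) * Complex.I)] ha t'
  have hr1 : Set.range ![(2 * (Real.pi : ℂ) * Complex.I)] = {2 * (Real.pi : ℂ) * Complex.I} := by
    simp
  rw [hr1] at hJc
  have hdim : tDim t' = J.card := by
    unfold tDim
    omega
  let e : Fin J.card ≃ J := J.equivFin.symm
  refine ⟨J.card, fun i => A (e i), fun i => hA (e i), ?_, ?_⟩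
  · intro c q hc
    rw [Fintype.linearIndependent_iff] at hJ
    have h2 := hJ (Sum.elim (fun _ => -q) (fun j => c (e.symm j))) (by
      rw [Fintype.sum_sum_type]
      simp only [Sum.elim_inl, Sum.elim_inr, Finset.univ_unique, Fin.default_eq_zero,
        Finset.sum_singleton, Matrix.cons_val_zero, Rat.smul_def]
      have h3 : ∑ i : J, (c (e.symm i) : ℂ) * t' i = ∑ i, (c i : ℂ) * t' (e i) := by
        rw [← Equiv.sum_comp e]
        simp
      rw [h3]
      have h4 : ∑ i, (c i : ℂ) * t' (e i) = (q : ℂ) * (2 * (Real.pi : ℂ) * Complex.I) := hc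
      rw [h4]
      push_cast
      ring)
    funext i
    have h3 := h2 (Sum.inr (e i))
    simpa using h3
  · rw [← hdim]
    exact hle

end Pool.Agent.Work.MP_8da9ea_nt.EC
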