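import Pool.Agent.Work.MP_8da9ea_nt.EC.Stmts

/-!
# Points of a closed field on lines, with defects: statements of the items
-/

set_option autoImplicit false

namespace Pool.Agent.Work.MP_8da9ea_nt.EC

open Pool.Agent.Work.MP_8da9ea_nt.EB Pool.Agent.Work.MP_327059_nt.GL Pool.Agent.Work.MP_8da9ea_nt.S

/-- E14: the part of `t` in `F` and on the line -/
def S_TSel : Prop := ∀ F : IntermediateField ℚ ℂ, kap ∈ F → ∀ (s r d : ℕ) (t : Fin s → ℂ)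
  (u : Fin r → ℂ) (t₀ : Fin d → ℂ), TG.Inn F t (Fin.append u t₀) →
  ∃ (a : ℕ) (M : Fin a → Fin s → ℤ) (A : Fin a → Fin r → ℚ),
    (∀ i, ∑ l, (M i l : ℂ) * t l ∈ F) ∧
    (∀ i, Complex.exp (∑ l, (M i l : ℂ) * t l) = Complex.exp (∑ j, (A i j : ℂ) * u j)) ∧
    LinearIndependent ℚ A ∧ tDim t ≤ a + d + modDim F t

/-- E15: the part of `p` in `ω₁ F` and on the line -/
def S_PSel : Prop := ∀ (F : IntermediateField ℚ ℂ) (ω₁ ω₂ : ℂ), 0 < (ω₂ / ω₁).im →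
  ω₂ / ω₁ ∈ F → ∀ (n r d : ℕ) (p : Fin n → ℂ) (v : Fin r → ℂ) (p₀ : Fin d → ℂ),
    InnE F ω₁ ω₂ p (Fin.append v p₀) →
  ∃ (b : ℕ) (g : Fin b → Fin n → ℂ) (G : Fin b → Fin r → ℂ) (ρ : Fin b → ℂ),
    (∀ i j, IsI (ω₂ / ω₁) (g i j)) ∧ (∀ i, ∑ j, g i j * (p j / ω₁) ∈ F) ∧
    (∀ i, ∑ j, g i j * (p j / ω₁) = ∑ l, G i l * (v l / ω₁) + ρ i) ∧
    (∀ i, ∃ q q' : ℚ, ρ i = q + q' * (ω₂ / ω₁)) ∧ (∀ i l, IsE (ω₂ / ω₁) (G i l)) ∧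
    (∀ c : Fin b → ℂ, (∀ i, IsE (ω₂ / ω₁) (c i)) → (∀ l, ∑ i, c i * G i l = 0) → c = 0) ∧
    kDim2 ω₁ ω₂ p ≤ 2 * (b + d) + modDim2 F ω₁ ω₂ p

/-- E16: the lower bound for one lattice, with defects -/
def S_OnLD : Prop := ∀ S : Set ℂ, S.Countable → ∀ (τ μ ω₁ : ℂ), Nrm τ μ → ω₁ ≠ 0 →
  (∀ K : IntermediateField ℚ ℂ, gg2 τ ∈ K → gg3 τ ∈ K → IsAlgebraic K μ) →
  ∀ K : IntermediateField ℚ ℂ, PerK τ μ K →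
  ∀ (r r' : ℕ) (u : Fin r → ℂ) (v : Fin r' → ℂ), (∀ i, v i / ω₁ ∈ K) → (∀ i, v i / ω₁ ∉ Lam τ) →
    AlgebraicIndependent K (fm τ μ u (fun i => v i / ω₁)) →
  ∀ (s n : ℕ) (t : Fin s → ℂ) (p : Fin n → ℂ) (d d' : ℕ) (t₀ : Fin d → ℂ) (p₀ : Fin d' → ℂ),
    TG.Inn (CD.cl S) t (Fin.append u t₀) → InnE (CD.cl S) ω₁ (ω₁ * τ) p (Fin.append v p₀) →
  ∀ (ρ : ℕ) (y : Fin ρ → ℂ), (∀ i, IsAlgebraic (bigField ω₁ (ω₁ * τ) t p) (y i)) → ClInd S y →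
  ∀ e : ℕ, HasTrdeg (bigField 1 τ (![] : Fin 0 → ℂ) (![] : Fin 0 → ℂ)) e →
  ∀ N : ℕ, N + d + 2 * d' ≤ e + tDim t + kDim2 ω₁ (ω₁ * τ) p +
      max ρ (min 1 (modDim (CD.cl S) t + modDim2 (CD.cl S) ω₁ (ω₁ * τ) p)) →
    HasTrdeg (bigField ω₁ (ω₁ * τ) t p) N

/-- E17: the lower bound for lattices with algebraic invariant, with defects -/
def S_AlgLD : Prop := ∀ Q m κ : ℕ, ∃ n₀ : ℕ, ∀ b : Fin m → ℂ, FT Q b → TrLe κ b →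
  ∀ ω₁ ω₂ : ℂ, (ω₂ / ω₁).im ≠ 0 → IsAlgebraic ℚ (jInv ω₁ ω₂) → KLI (ω₂ / ω₁) b →
  ∀ n : ℕ, n₀ ≤ n → ∀ x : Fin n → ℂ, LinearIndependent ℚ x →
  ∃ P : MvPolynomial (Fin n) ℂ, P ≠ 0 ∧ P.totalDegree ≤ 2 * m ∧
  ∀ w : Fin n → ℚ, MvPolynomial.eval (fun i => (w i : ℂ)) P ≠ 0 →
  ∀ z : ℂ, z = ∑ i, (w i : ℂ) * x i →
  ∀ r r' : ℕ, r + 2 * r' + κ + 6 ≤ m →
  ∃ P' : MvPolynomial (Fin r × Fin m ⊕ Fin r' × Fin m) ℂ, P' ≠ 0 ∧ P'.IsHomogeneous (r + 2 * r') ∧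
  ∀ (c : Fin r → Fin m → ℚ) (c' : Fin r' → Fin m → ℚ),
    MvPolynomial.eval (Sum.elim (fun q => (c q.1 q.2 : ℂ)) (fun q => (c' q.1 q.2 : ℂ))) P' ≠ 0 →
  ∀ (u : Fin r → ℂ) (v : Fin r' → ℂ), (∀ i, u i = (∑ j, (c i j : ℂ) * b j) * z) →
    (∀ i, v i = (∑ j, (c' i j : ℂ) * b j) * z) →
  ∀ S : Set ℂ, S.Countable → ∀ (s k : ℕ) (t : Fin s → ℂ) (p : Fin k → ℂ)
    (d d' : ℕ) (t₀ : Fin d → ℂ) (p₀ : Fin d' → ℂ),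
    TG.Inn (CD.cl S) t (Fin.append u t₀) → InnE (CD.cl S) ω₁ ω₂ p (Fin.append v p₀) →
  ∀ (ρ : ℕ) (y : Fin ρ → ℂ), (∀ i, IsAlgebraic (bigField ω₁ ω₂ t p) (y i)) → ClInd S y →
  ∀ R : ℕ, R = max ρ (min 1 (modDim (CD.cl S) t + modDim2 (CD.cl S) ω₁ ω₂ p)) →
  ∀ e : ℕ, HasTrdeg (bigField 1 (ω₂ / ω₁) (![] : Fin 0 → ℂ) (![] : Fin 0 → ℂ)) e →
  ∀ N : ℕ, N + d + 2 * d' ≤ e + tDim t + kDim2 ω₁ ω₂ p + R → HasTrdeg (bigField ω₁ ω₂ t p) N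

/-- E18: generic curves, with defects -/
def S_GenLD : Prop := ∀ (m κ : ℕ) (b : Fin m → ℂ) (z : ℂ), LinearIndependent ℚ b → TrLe κ b →
  Sch b z → ∀ r : ℕ, r + κ + 2 ≤ m →
    ∃ P' : MvPolynomial (Fin r × Fin m) ℂ, P' ≠ 0 ∧ P'.IsHomogeneous r ∧
    ∀ c : Fin r → Fin m → ℚ, MvPolynomial.eval (fun q => (c q.1 q.2 : ℂ)) P' ≠ 0 →
    ∀ u : Fin r → ℂ, (∀ i, u i = (∑ j, (c i j : ℂ) * b j) * z) →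
    ∀ S : Set ℂ, S.Countable → ∀ ω₁ ω₂ : ℂ, (ω₂ / ω₁).im ≠ 0 → jInv ω₁ ω₂ ∉ CD.cl S →
    ∀ (s k : ℕ) (t : Fin s → ℂ) (p : Fin k → ℂ) (d : ℕ) (t₀ : Fin d → ℂ),
      TG.Inn (CD.cl S) t (Fin.append u t₀) →
    ∀ (ρ : ℕ) (y : Fin ρ → ℂ), (∀ i, IsAlgebraic (bigField ω₁ ω₂ t p) (y i)) → ClInd S y →
    ∀ N : ℕ, N + d ≤ tDim t + 4 + kDim2 ω₁ ω₂ p + max 1 ρ → HasTrdeg (bigField ω₁ ω₂ t p) N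

end Pool.Agent.Work.MP_8da9ea_nt.EC
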