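import Pool.Agent.Work.MP_8da9ea_nt.EC.I_AlgL
import Pool.Agent.Work.MP_8da9ea_nt.EC.Stmts2

/-!
# Item AlgLD: the lower bound for lattices with algebraic invariant, with defects (assembly)
-/

set_option autoImplicit false

namespace Pool.Agent.Work.MP_8da9ea_nt.EC

open Pool.Agent.Work.MP_8da9ea_nt.EB Pool.Agent.Work.MP_327059_nt.GL Pool.Agent.Work.MP_8da9ea_nt.S
  Submodule

open I_AlgL in
theorem AlgLD_pf (hM : S_MainS) (hE : S_EllRank) (hT : S_TorRank) (hN : S_Norm) (hR : S_RelEC)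
    (hO : S_OnLD) : S_AlgLD := by
  classical
  intro Q m κ
  obtain ⟨n₁, hn₁⟩ := hM Q m
  obtain ⟨n₂, hn₂⟩ := hE Q m
  refine ⟨max n₁ n₂, fun b hFT hκ ω₁ ω₂ him hj hk n hn x hx => ?_⟩
  have hb : LinearIndependent ℚ b := KLI_lin hk
  have h1 : ω₁ ≠ 0 := by
    rintro rfl
    simp at him
  -- the lattice in normal form
  obtain ⟨τ, hτ, hω, hτe⟩ : ∃ τ : ℂ, 0 < τ.im ∧ (ω₂ = ω₁ * τ ∨ ω₂ = -(ω₁ * τ)) ∧
      (∀ g, IsE (ω₂ / ω₁) g ↔ IsE τ g) := by
    rcases lt_or_gt_of_ne him with hlt | hgt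
    · exact ⟨-(ω₂ / ω₁), by simpa using hlt, Or.inr (by field_simp), fun g => (IsE_neg _ g).symm⟩
    · exact ⟨ω₂ / ω₁, hgt, Or.inl (by field_simp), fun g => Iff.rfl⟩
  have hjτ : IsAlgebraic ℚ (jInv 1 τ) := by
    rw [← jInv_smul h1 τ]
    rcases hω with hω | hω
    · rwa [← hω]
    · rw [← jInv_neg, ← hω]
      exact hj
  obtain ⟨μ, hμ, hμa⟩ := hN τ hτ hjτ
  have hkτ : KLI τ b := fun g hg h => hk g (fun j => (hτe _).2 (hg j)) h
  have hx' : LinearIndependent ℚ (fun i => x i / ω₁) := by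
    rw [Fintype.linearIndependent_iff] at hx ⊢
    intro g hg
    apply hx g
    have h2 : ∑ i, g i • x i = (∑ i, g i • (x i / ω₁)) * ω₁ := by
      rw [Finset.sum_mul]
      refine Finset.sum_congr rfl fun i _ => ?_
      rw [smul_mul_assoc, div_mul_cancel₀ _ h1]
    rw [h2, hg, zero_mul]
  obtain ⟨P₁, hP₁, hP₁d, hP₁w⟩ := hn₁ b hFT hb n (le_trans (le_max_left _ _) hn) x hx
  obtain ⟨P₂, hP₂, hP₂d, hP₂w⟩ := hn₂ τ μ b hμ hFT hkτ n (le_trans (le_max_right _ _) hn)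
    (fun i => x i / ω₁) hx' κ hκ
  refine ⟨P₁ * P₂, mul_ne_zero hP₁ hP₂, ?_, fun w hw z hz r r' hr => ?_⟩
  · have := MvPolynomial.totalDegree_mul P₁ P₂
    omega
  rw [map_mul] at hw
  have hSch : Sch b z := by
    rw [hz]
    exact hP₁w w (left_ne_zero_of_mul hw)
  have htor := hT m κ b z hSch hκ
  have hell := hP₂w w (right_ne_zero_of_mul hw)
  have hz' : ∑ i, (w i : ℂ) * (x i / ω₁) = z / ω₁ := by
    rw [hz, Finset.sum_div]
    exact Finset.sum_congr rfl fun i _ => by ring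
  rw [hz'] at hell
  obtain ⟨K, P', hK, hzK, hbK, hP', hP'h, h3⟩ := hR m κ r r' b z (z / ω₁) τ μ hμ hr htor hell
  refine ⟨P', hP', hP'h, fun c c' hc u v hu hv S hS s k t p d d' t₀ p₀ hI hIE ρ y
    hy hyc R hRR e he' N hN => ?_⟩
  obtain ⟨h4, h5⟩ := h3 c c' hc
  have hu' : (fun i => ∑ j, (c i j : ℂ) * (b j * z)) = u := by
    funext i
    rw [hu i, Finset.sum_mul]
    exact Finset.sum_congr rfl fun j _ => by ring
  have hv' : (fun i => ∑ j, (c' i j : ℂ) * (b j * (z / ω₁))) = fun i => v i / ω₁ := by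
    funext i
    rw [hv i, Finset.sum_mul, Finset.sum_div]
    exact Finset.sum_congr rfl fun j _ => by ring
  rw [hu', hv'] at h5
  have h6 : ∀ i, v i / ω₁ ∉ Lam τ := by
    intro i
    rw [← congrFun hv' i]
    exact h4 i
  have h7 : ∀ i, v i / ω₁ ∈ K := by
    intro i
    rw [← congrFun hv' i]
    exact sum_mem fun j _ => mul_mem (SubfieldClass.ratCast_mem K _) (mul_mem (hbK j) hzK)
  rcases hω with hω | hω
  · subst hω
    have hdiv : ω₁ * τ / ω₁ = τ := mul_div_cancel_left₀ _ h1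
    rw [hdiv] at he'
    rw [hRR] at hN
    exact hO S hS τ μ ω₁ hμ h1 hμa K hK r r' u v h7 h6 h5 s k t p d d' t₀ p₀ hI hIE ρ y hy hyc
      e he' N hN
  · have hω' : -ω₂ = ω₁ * τ := by rw [hω, neg_neg]
    have hdiv : ω₂ / ω₁ = -τ := by
      rw [hω, neg_div, mul_div_cancel_left₀ _ h1]
    have e1 : bigField ω₁ (ω₁ * τ) t p = bigField ω₁ ω₂ t p := by
      rw [← hω', bigField_neg]
    have e2 : modDim2 (CD.cl S) ω₁ (ω₁ * τ) p = modDim2 (CD.cl S) ω₁ ω₂ p := by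
      rw [← hω', modDim2_neg]
    have e3 : kDim2 ω₁ (ω₁ * τ) p = kDim2 ω₁ ω₂ p := by
      rw [← hω', kDim2_neg]
    have e4 : bigField 1 (ω₂ / ω₁) (![] : Fin 0 → ℂ) (![] : Fin 0 → ℂ) =
        bigField 1 τ (![] : Fin 0 → ℂ) (![] : Fin 0 → ℂ) := by
      rw [hdiv, bigField_neg]
    rw [e4] at he'
    have h8 : InnE (CD.cl S) ω₁ (ω₁ * τ) p (Fin.append v p₀) := by
      apply InnE_neg
      rw [← hω', neg_neg]
      exact hIE
    have h9 := hO S hS τ μ ω₁ hμ h1 hμa K hK r r' u v h7 h6 h5 s k t p d d' t₀ p₀ hI h8 ρ y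
      (by rw [e1]; exact hy) hyc e he' N (by rw [e2, e3, ← hRR]; exact hN)
    rw [e1] at h9
    exact h9

end Pool.Agent.Work.MP_8da9ea_nt.EC
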