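import Pool.Agent.Work.MP_8da9ea_nt.EC.Stmts

set_option autoImplicit false

namespace Pool.Agent.Work.MP_8da9ea_nt.EC

namespace I_HomSurj

/-- A matrix with independent rows has a right inverse. -/
theorem rinv {k : Type} [Field k] (b r : ℕ) (G : Fin b → Fin r → k)
    (hG : LinearIndependent k G) :
    ∃ H : Fin r → Fin b → k, ∀ i i', ∑ l, G i l * H l i' = if i = i' then 1 else 0 := by
  have hinj : Function.Injective (Fintype.linearCombination k G) :=
    linearIndependent_iff_injective_fintypeLinearCombination.1 hG
  obtain ⟨g, hg⟩ := LinearMap.exists_leftInverse_of_injective (Fintype.linearCombination k G)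
    (LinearMap.ker_eq_bot.2 hinj)
  refine ⟨fun l i => g (Pi.single l 1) i, fun i i' => ?_⟩
  have h1 : g (G i) = Pi.single i 1 := by
    have h2 := LinearMap.congr_fun hg (Pi.single i (1 : k))
    simp only [LinearMap.comp_apply, LinearMap.id_apply] at h2
    rw [Fintype.linearCombination_apply_single, one_smul] at h2
    exact h2
  have h3 : G i = ∑ l, G i l • (Pi.single l (1 : k) : Fin r → k) := by
    funext l'
    simp [Finset.sum_apply, Pi.single_apply]
  have h4 : g (G i) i' = ∑ l, G i l * g (Pi.single l 1) i' := by
    conv_lhs => rw [h3]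
    rw [map_sum]
    simp [Finset.sum_apply]
  rw [← h4, h1, Pi.single_apply]
  by_cases h : i = i'
  · rw [if_pos h, if_pos h.symm]
  · rw [if_neg h, if_neg (fun e => h e.symm)]

end I_HomSurj

open I_HomSurj in
theorem HomSurj_pf : S_HomSurj := by
  intro k φ b r G hG α
  obtain ⟨H, hH⟩ := rinv b r G hG
  refine ⟨fun l => ∑ i', φ (H l i') * α i', fun i => ?_⟩
  calc ∑ l, φ (G i l) * ∑ i', φ (H l i') * α i'
      = ∑ l, ∑ i', φ (G i l * H l i') * α i' := by
        refine Finset.sum_congr rfl fun l _ => ?_
        rw [Finset.mul_sum]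
        refine Finset.sum_congr rfl fun i' _ => ?_
        rw [map_mul]
        ring
    _ = ∑ i', ∑ l, φ (G i l * H l i') * α i' := Finset.sum_comm
    _ = ∑ i', φ (∑ l, G i l * H l i') * α i' := by
        refine Finset.sum_congr rfl fun i' _ => ?_
        rw [map_sum, Finset.sum_mul]
    _ = ∑ i', (if i = i' then α i' else 0) := by
        refine Finset.sum_congr rfl fun i' _ => ?_
        rw [hH]
        by_cases h : i = i'
        · rw [if_pos h, if_pos h, map_one, one_mul]
        · rw [if_neg h, if_neg h, map_zero, zero_mul]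
    _ = α i := by rw [Finset.sum_ite_eq]; simp

end Pool.Agent.Work.MP_8da9ea_nt.EC
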