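import Pool.Agent.Work.MP_8da9ea_nt.EC.Stmts

/-!
# Item Ind: independence of combinations
-/

set_option autoImplicit false

namespace Pool.Agent.Work.MP_8da9ea_nt.EC

open Pool.Agent.Work.MP_8da9ea_nt.EB Pool.Agent.Work.MP_327059_nt.GL Pool.Agent.Work.MP_8da9ea_nt.S

namespace I_Ind

/-- A derivation kills the algebraic numbers. -/
theorem der_alg (δ : Derivation ℚ ℂ ℂ) {x : ℂ} (hx : IsAlgebraic ℚ x) : δ x = 0 := by
  have hint : IsIntegral ℚ x := hx.isIntegral
  have hmin : Polynomial.aeval x (minpoly ℚ x) = 0 := minpoly.aeval ℚ x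
  have h1 : δ (Polynomial.aeval x (minpoly ℚ x)) = 0 := by rw [hmin, map_zero]
  rw [Derivation.map_aeval] at h1
  have hsep : Polynomial.aeval x (Polynomial.derivative (minpoly ℚ x)) ≠ 0 :=
    (minpoly.irreducible hint).separable.aeval_derivative_ne_zero hmin
  rcases smul_eq_zero.1 h1 with h | h
  · exact absurd h hsep
  · exact h

/-- additive functions are linear over the rational numbers -/
theorem addLin (f : ℂ → ℂ) (hf : ∀ u v, f (u + v) = f u + f v) {m : ℕ} (c : Fin m → ℚ)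
    (β : Fin m → ℂ) : f (∑ j, (c j : ℂ) * β j) = ∑ j, (c j : ℂ) * f (β j) := by
  have h0 : f 0 = 0 := by
    have e1 := hf 0 0
    rw [add_zero] at e1
    have e2 : f 0 + 0 = f 0 + f 0 := by rw [add_zero]; exact e1
    exact (add_left_cancel e2).symm
  let F : ℂ →+ ℂ := { toFun := f, map_zero' := h0, map_add' := hf }
  change F (∑ j, (c j : ℂ) * β j) = _
  rw [map_sum]
  refine Finset.sum_congr rfl fun j _ => ?_
  have h1 := map_rat_smul F (c j) (β j)
  rw [Rat.smul_def, Rat.smul_def] at h1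
  exact h1

theorem addSum (f : ℂ → ℂ) (hf : ∀ u v, f (u + v) = f u + f v) {m : ℕ}
    (β : Fin m → ℂ) : f (∑ j, β j) = ∑ j, f (β j) := by
  have h := addLin f hf (fun _ : Fin m => 1) β
  simpa using h

/-- logarithmic derivatives are additive -/
theorem dlog_add (δ : Derivation ℚ ℂ ℂ) (u v : ℂ) :
    δ (Complex.exp (u + v)) / Complex.exp (u + v) =
      δ (Complex.exp u) / Complex.exp u + δ (Complex.exp v) / Complex.exp v := by
  have h1 := Complex.exp_ne_zero u
  have h2 := Complex.exp_ne_zero v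
  rw [Complex.exp_add, Derivation.leibniz, smul_eq_mul, smul_eq_mul]
  field_simp
  ring

theorem mem0 (τ : ℂ) : (0 : ℂ) ∈ Lam τ := mem_Lam.2 ⟨0, 0, by simp⟩

theorem mem1 (τ : ℂ) : (1 : ℂ) ∈ Lam τ := mem_Lam.2 ⟨1, 0, by simp⟩

theorem memt (τ : ℂ) : τ ∈ Lam τ := mem_Lam.2 ⟨0, 1, by simp⟩

/-- an additive function which vanishes on the lattice vanishes on the torsion points -/
theorem tors (τ : ℂ) (f : ℂ → ℂ) (hf : ∀ u v, f (u + v) = f u + f v)
    (h0 : ∀ u ∈ Lam τ, f u = 0) (q q' : ℚ) : f (q + q' * τ) = 0 := by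
  have h := addLin f hf (![q, q'] : Fin 2 → ℚ) (![1, τ] : Fin 2 → ℂ)
  rw [Fin.sum_univ_two, Fin.sum_univ_two] at h
  simp only [Matrix.cons_val_zero, Matrix.cons_val_one, mul_one] at h
  rw [h, h0 1 (mem1 τ), h0 τ (memt τ)]
  simp

theorem lam_mem {τ μ u : ℂ} (δ : Derivation ℚ ℂ ℂ) (hu : u ∈ Lam τ) : lam τ μ δ u = 0 := by
  unfold lam
  rw [if_pos hu]

theorem etf_mem {τ μ u : ℂ} (δ : Derivation ℚ ℂ ℂ) (hu : u ∈ Lam τ) : etf τ μ δ u = 0 := by
  unfold etf
  rw [if_pos hu]

/-- rational rows -/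
theorem ratSurj {a r : ℕ} (A : Fin a → Fin r → ℚ) (hA : LinearIndependent ℚ A)
    (ξ : Fin a → ℂ) : ∃ x : Fin r → ℂ, ∀ i, ∑ j, (A i j : ℂ) * x j = ξ i := by
  obtain ⟨v, hv⟩ := TG.LL_surj A hA (fun o => o.elim 0 ξ)
  refine ⟨fun j => v (some j), fun i => ?_⟩
  have h := congrFun hv (some i)
  rw [TG.LL_some] at h
  exact h

end I_Ind

open I_Ind in
theorem Ind_pf (h1 : S_LamAdd) (h2 : S_LamMul) (h3 : S_EtaAdd) (h4 : S_Kf) (h5 : S_EtaMul)
    (h6 : S_Pres) (h7 : S_Jac) (h8 : S_HomSurj) : S_Ind := by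
  classical
  intro τ μ hN K hK r r' u v hvK hvL hAI a b A G ρ hA hG hGi hρ
  obtain ⟨hkalg, hkmem, -, -⟩ := h4 τ hN.im
  have hp1 : ∀ δ ∈ DK K, δ (μ * et τ) = 0 := fun δ hδ => hδ _ (mul_mem hK.mu hK.et)
  have hp2 : ∀ δ ∈ DK K, δ (μ * (τ * et τ - kap)) = 0 :=
    fun δ hδ => hδ _ (mul_mem hK.mu (sub_mem (mul_mem hK.tau hK.et) hK.kap))
  have hlamA : ∀ δ : Derivation ℚ ℂ ℂ, ∀ x y, lam τ μ δ (x + y) = lam τ μ δ x + lam τ μ δ y :=
    fun δ => h1 τ μ hN δ
  have hetA : ∀ δ ∈ DK K, ∀ x y, etf τ μ δ (x + y) = etf τ μ δ x + etf τ μ δ y :=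
    fun δ hδ => h3 τ μ hN δ (hp1 δ hδ) (hp2 δ hδ)
  choose aa ss hE using fun (g : ℂ) (hg : IsE τ g) => h5 τ μ hN g hg
  -- forms at the combinations
  have hlamG : ∀ (δ : Derivation ℚ ℂ ℂ) (i : Fin b), lam τ μ δ (∑ l, G i l * v l + ρ i) =
      ∑ l, G i l * lam τ μ δ (v l) := by
    intro δ i
    obtain ⟨q, q', hq⟩ := hρ i
    rw [hlamA, hq, tors τ (lam τ μ δ) (hlamA δ) (fun x hx => lam_mem δ hx), add_zero,
      addSum (lam τ μ δ) (hlamA δ)]
    exact Finset.sum_congr rfl fun l _ => h2 τ μ hN δ _ _ (hG i l)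
  have hetG : ∀ δ ∈ DK K, ∀ i : Fin b, etf τ μ δ (∑ l, G i l * v l + ρ i) =
      ∑ l, (aa (G i l) (hG i l) * etf τ μ δ (v l) + ss (G i l) (hG i l) * lam τ μ δ (v l)) := by
    intro δ hδ i
    obtain ⟨q, q', hq⟩ := hρ i
    rw [hetA δ hδ, hq, tors τ (etf τ μ δ) (hetA δ hδ) (fun x hx => etf_mem δ hx), add_zero,
      addSum (etf τ μ δ) (hetA δ hδ)]
    exact Finset.sum_congr rfl fun l _ => hE _ (hG i l) K hK δ hδ _ (hδ _ (hvK l))
  have hdl : ∀ (δ : Derivation ℚ ℂ ℂ) (i : Fin a),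
      δ (Complex.exp (∑ j, (A i j : ℂ) * u j)) / Complex.exp (∑ j, (A i j : ℂ) * u j) =
        ∑ j, (A i j : ℂ) * (δ (Complex.exp (u j)) / Complex.exp (u j)) := by
    intro δ i
    exact addLin (fun x => δ (Complex.exp x) / Complex.exp x) (dlog_add δ) (A i) u
  -- solving the linear equations
  have hsolve : ∀ α β : Fin b → ℂ, ∃ y y' : Fin r' → ℂ, (∀ i, ∑ l, G i l * y l = α i) ∧
      ∀ i, ∑ l, (aa (G i l) (hG i l) * y' l + ss (G i l) (hG i l) * y l) = β i := by
    intro α β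
    rcases Nat.eq_zero_or_pos r' with hr | hr
    · subst hr
      have hb : ∀ i : Fin b, False := by
        intro i
        have h := hGi (fun _ => 1)
          (fun _ => ⟨1, one_ne_zero, by simpa using mem1 τ, by simpa using memt τ⟩)
          (fun l => l.elim0)
        exact one_ne_zero (congrFun h i)
      exact ⟨fun _ => 0, fun _ => 0, fun i => (hb i).elim, fun i => (hb i).elim⟩
    · obtain ⟨δ₀, hδ₀, hw₀⟩ := h6 τ μ hN K hK r r' u v hvL hAI
        (Sum.elim (fun _ => 0) (fun q => if q.2 then 1 else 0))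
      have hl0 : ∀ l, lam τ μ δ₀ (v l) = 0 := by
        intro l
        have h := congrFun hw₀ (Sum.inr (l, false))
        simpa [enE] using h
      have he0 : ∀ l, etf τ μ δ₀ (v l) = 1 := by
        intro l
        have h := congrFun hw₀ (Sum.inr (l, true))
        simpa [enE] using h
      set l0 : Fin r' := ⟨0, hr⟩ with hl0def
      have hvd : δ₀ (v l0) = 0 := hδ₀ _ (hvK l0)
      have haa : ∀ (g : ℂ) (hg : IsE τ g), etf τ μ δ₀ (g * v l0) = aa g hg := by
        intro g hg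
        rw [hE g hg K hK δ₀ hδ₀ _ hvd, he0, hl0]
        ring
      let φ : kf τ →+* ℂ :=
        { toFun := fun g => etf τ μ δ₀ ((g : ℂ) * v l0)
          map_one' := by
            change etf τ μ δ₀ (((1 : kf τ) : ℂ) * v l0) = 1
            rw [OneMemClass.coe_one, one_mul, he0]
          map_zero' := by
            change etf τ μ δ₀ (((0 : kf τ) : ℂ) * v l0) = 0
            rw [ZeroMemClass.coe_zero, zero_mul]
            exact etf_mem δ₀ (mem0 τ)
          map_add' := by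
            intro g h
            change etf τ μ δ₀ (((g + h : kf τ) : ℂ) * v l0) =
              etf τ μ δ₀ ((g : ℂ) * v l0) + etf τ μ δ₀ ((h : ℂ) * v l0)
            rw [AddMemClass.coe_add, add_mul, hetA δ₀ hδ₀]
          map_mul' := by
            intro g h
            change etf τ μ δ₀ (((g * h : kf τ) : ℂ) * v l0) =
              etf τ μ δ₀ ((g : ℂ) * v l0) * etf τ μ δ₀ ((h : ℂ) * v l0)
            have hg : IsE τ (g : ℂ) := (hkmem _).1 g.2
            have hh : IsE τ (h : ℂ) := (hkmem _).1 h.2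
            have hd : δ₀ ((h : ℂ) * v l0) = 0 := by
              rw [Derivation.leibniz, hvd, der_alg δ₀ (hkalg _ hh), smul_zero, smul_zero,
                add_zero]
            rw [MulMemClass.coe_mul, mul_assoc, hE _ hg K hK δ₀ hδ₀ _ hd, haa _ hg,
              h2 τ μ hN δ₀ _ _ hh, hl0, mul_zero, mul_zero, add_zero] }
      have hφ : ∀ (g : kf τ) (hg : IsE τ (g : ℂ)), φ g = aa g hg := fun g hg => haa g hg
      let G' : Fin b → Fin r' → kf τ := fun i l => ⟨G i l, (hkmem _).2 (hG i l)⟩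
      have hG' : LinearIndependent (kf τ) G' := by
        rw [Fintype.linearIndependent_iff]
        intro c hc i
        have h := hGi (fun i => (c i : ℂ)) (fun i => (hkmem _).1 (c i).2) (by
          intro l
          have e := congrFun hc l
          rw [Finset.sum_apply] at e
          have e2 := congrArg (fun x : kf τ => (x : ℂ)) e
          simpa [G'] using e2)
        exact Subtype.ext (congrFun h i)
      obtain ⟨y, hy⟩ := h8 (kf τ) (algebraMap (kf τ) ℂ) b r' G' hG' α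
      obtain ⟨y', hy'⟩ := h8 (kf τ) φ b r' G' hG'
        (fun i => β i - ∑ l, ss (G i l) (hG i l) * y l)
      refine ⟨y, y', fun i => hy i, fun i => ?_⟩
      have e := hy' i
      rw [Finset.sum_add_distrib]
      have e2 : ∑ l, aa (G i l) (hG i l) * y' l = ∑ l, φ (G' i l) * y' l :=
        Finset.sum_congr rfl fun l _ => by rw [hφ (G' i l) (hG i l)]
      rw [e2, e]
      ring
  refine h7 τ μ hN K a b _ _ fun w => ?_
  obtain ⟨x, hx⟩ := ratSurj A hA (fun i => w (Sum.inl i))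
  obtain ⟨y, y', hy, hy'⟩ := hsolve (fun i => w (Sum.inr (i, false)))
    (fun i => w (Sum.inr (i, true)))
  obtain ⟨δ, hδ, hw⟩ := h6 τ μ hN K hK r r' u v hvL hAI
    (Sum.elim x (fun q => if q.2 then y' q.1 else y q.1))
  have hdx : ∀ j, δ (Complex.exp (u j)) / Complex.exp (u j) = x j := by
    intro j
    have h := congrFun hw (Sum.inl j)
    simpa [enE] using h
  have hly : ∀ l, lam τ μ δ (v l) = y l := by
    intro l
    have h := congrFun hw (Sum.inr (l, false))
    simpa [enE] using h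
  have hey : ∀ l, etf τ μ δ (v l) = y' l := by
    intro l
    have h := congrFun hw (Sum.inr (l, true))
    simpa [enE] using h
  refine ⟨δ, hδ, ?_⟩
  funext o
  rcases o with i | ⟨i, t⟩
  · change δ (Complex.exp (∑ j, (A i j : ℂ) * u j)) / Complex.exp (∑ j, (A i j : ℂ) * u j) = _
    rw [hdl, ← hx i]
    exact Finset.sum_congr rfl fun j _ => by rw [hdx]
  · cases t with
    | true =>
      change etf τ μ δ (∑ l, G i l * v l + ρ i) = _
      rw [hetG δ hδ, ← hy' i]
      exact Finset.sum_congr rfl fun l _ => by rw [hey, hly]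
    | false =>
      change lam τ μ δ (∑ l, G i l * v l + ρ i) = _
      rw [hlamG, ← hy i]
      exact Finset.sum_congr rfl fun l _ => by rw [hly]

end Pool.Agent.Work.MP_8da9ea_nt.EC
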