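import Pool.Agent.Work.MP_8da9ea_nt.EC.Stmts

/-!
# Item Jac: algebraic independence from derivations with given forms
-/

set_option autoImplicit false

namespace Pool.Agent.Work.MP_8da9ea_nt.EC

open Pool.Agent.Work.MP_8da9ea_nt.EB Pool.Agent.Work.MP_327059_nt.GL Pool.Agent.Work.MP_8da9ea_nt.S

theorem Jac_pf : S_Jac := by
  classical
  intro τ μ hN K r r' u v hsurj
  have hvL : ∀ i, v i ∉ Lam τ := by
    intro i hi
    obtain ⟨δ, _, hδ⟩ := hsurj (Pi.single (Sum.inr (i, false)) 1)
    have h1 := congrFun hδ (Sum.inr (i, false))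
    rw [Pi.single_eq_same] at h1
    have h2 : lam τ μ δ (v i) = 1 := h1
    unfold lam at h2
    rw [if_pos hi] at h2
    exact zero_ne_one h2
  have hy : ∀ i, ye τ μ (v i) ≠ 0 := by
    intro i hi
    obtain ⟨δ, _, hδ⟩ := hsurj (Pi.single (Sum.inr (i, false)) 1)
    have h1 := congrFun hδ (Sum.inr (i, false))
    rw [Pi.single_eq_same] at h1
    have h2 : lam τ μ δ (v i) = 1 := h1
    unfold lam at h2
    rw [if_neg (hvL i), hi, div_zero] at h2
    exact zero_ne_one h2
  refine ⟨hvL, ?_⟩
  choose δ hδ hen using fun o : Fin r ⊕ Fin r' × Bool => hsurj (Pi.single o 1)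
  have hP : (Matrix.of fun o o' => enE τ μ u v (δ o) o').det ≠ 0 := by
    have h1 : (Matrix.of fun o o' => enE τ μ u v (δ o) o') = 1 := by
      ext o o'
      rw [Matrix.of_apply, hen, Matrix.one_apply, Pi.single_apply]
      simp only [eq_comm]
    rw [h1, Matrix.det_one]
    exact one_ne_zero
  have hlam : ∀ o i, δ o (xe τ μ (v i)) = ye τ μ (v i) * lam τ μ (δ o) (v i) := by
    intro o i
    unfold lam
    rw [if_neg (hvL i), mul_div_cancel₀ _ (hy i)]
  have hetf : ∀ o i, δ o (ze τ μ (v i)) = etf τ μ (δ o) (v i) -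
      xe τ μ (v i) * lam τ μ (δ o) (v i) := by
    intro o i
    unfold etf
    rw [if_neg (hvL i)]
    ring
  refine TG.rel_jac K _ δ hδ ?_
  intro h0
  obtain ⟨a, ha, haJ⟩ := Matrix.exists_mulVec_eq_zero_iff.2 h0
  let a' : Fin r ⊕ Fin r' × Bool → ℂ := Sum.elim (fun i => Complex.exp (u i) * a (Sum.inl i))
    (fun q => if q.2 then a (Sum.inr (q.1, true)) else
      ye τ μ (v q.1) * a (Sum.inr (q.1, false)) - xe τ μ (v q.1) * a (Sum.inr (q.1, true)))
  have hM : (Matrix.of fun o o' => enE τ μ u v (δ o) o').mulVec a' = 0 := by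
    funext o
    have h3 := congrFun haJ o
    simp only [Matrix.mulVec, dotProduct, Matrix.of_apply, Fintype.sum_sum_type,
      Fintype.sum_prod_type, Fintype.sum_bool, Pi.zero_apply] at h3 ⊢
    rw [← h3]
    congr 1
    · refine Finset.sum_congr rfl fun i _ => ?_
      change δ o (Complex.exp (u i)) / Complex.exp (u i) * (Complex.exp (u i) * a (Sum.inl i)) =
        δ o (Complex.exp (u i)) * a (Sum.inl i)
      rw [← mul_assoc, div_mul_cancel₀ _ (Complex.exp_ne_zero _)]
    · refine Finset.sum_congr rfl fun i _ => ?_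
      change etf τ μ (δ o) (v i) * a (Sum.inr (i, true)) + lam τ μ (δ o) (v i) *
        (ye τ μ (v i) * a (Sum.inr (i, false)) - xe τ μ (v i) * a (Sum.inr (i, true))) =
        δ o (ze τ μ (v i)) * a (Sum.inr (i, true)) + δ o (xe τ μ (v i)) * a (Sum.inr (i, false))
      rw [hlam, hetf]
      ring
  have ha' : a' = 0 := by
    by_contra hne
    exact hP (Matrix.exists_mulVec_eq_zero_iff.1 ⟨a', hne, hM⟩)
  apply ha
  funext o
  rcases o with i | ⟨i, b⟩
  · have h3 : Complex.exp (u i) * a (Sum.inl i) = 0 := congrFun ha' (Sum.inl i)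
    exact (mul_eq_zero.1 h3).resolve_left (Complex.exp_ne_zero _)
  · have h3 : a (Sum.inr (i, true)) = 0 := congrFun ha' (Sum.inr (i, true))
    cases b with
    | true => exact h3
    | false =>
      have h4 : ye τ μ (v i) * a (Sum.inr (i, false)) - xe τ μ (v i) *
        a (Sum.inr (i, true)) = 0 := congrFun ha' (Sum.inr (i, false))
      rw [h3, mul_zero, sub_zero] at h4
      exact (mul_eq_zero.1 h4).resolve_left (hy i)

end Pool.Agent.Work.MP_8da9ea_nt.EC
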