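import Pool.Agent.Work.MP_8da9ea_nt.EC.Stmts
import Pool.Agent.Work.MP_8da9ea_nt.CD.End

/-!
# Item Memb: membership
-/

set_option autoImplicit false

namespace Pool.Agent.Work.MP_8da9ea_nt.EC

open Pool.Agent.Work.MP_8da9ea_nt.EB Pool.Agent.Work.MP_327059_nt.GL Pool.Agent.Work.MP_8da9ea_nt.S

namespace I_Memb

lemma j_mem {F : IntermediateField ℚ ℂ} (hF : CD.Closed F) {τ μ : ℂ} (h : Nrm τ μ) :
    jInv 1 τ ∈ F := by
  have hg2 : μ ^ 4 * gg2 τ ∈ F := hF.alg _ (h.g2.extendScalars (algebraMap ℚ F).injective)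
  have hg3 : μ ^ 6 * gg3 τ ∈ F := hF.alg _ (h.g3.extendScalars (algebraMap ℚ F).injective)
  have h3 : jInv 1 τ = 1728 * gg2 τ ^ 3 / (gg2 τ ^ 3 - 27 * gg3 τ ^ 2) := rfl
  have hμ : μ ^ 12 ≠ 0 := pow_ne_zero _ h.mu
  have h4 : jInv 1 τ = 1728 * (μ ^ 4 * gg2 τ) ^ 3 /
      ((μ ^ 4 * gg2 τ) ^ 3 - 27 * (μ ^ 6 * gg3 τ) ^ 2) := by
    rw [h3, ← mul_div_mul_left _ _ hμ]
    congr 1 <;> ring
  rw [h4]
  exact div_mem (mul_mem (ofNat_mem F 1728) (pow_mem hg2 3))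
    (sub_mem (pow_mem hg2 3) (mul_mem (ofNat_mem F 27) (pow_mem hg3 2)))

end I_Memb

open I_Memb in
theorem Memb_pf : S_Memb := by
  intro F hF τ μ ω₁ hN hω hμ
  have hτF : τ ∈ F := CD.closed_jfib hF hN.im (j_mem hF hN)
  have hμF : μ ∈ F := hF.alg μ (hμ F
    (mul_mem (ofNat_mem F 60) (CD.closed_g4 hF (one_mem _) hτF))
    (mul_mem (ofNat_mem F 140) (CD.closed_g6 hF (one_mem _) hτF)))
  refine ⟨hτF, fun s n t p => ?_⟩
  have hB := CD.base_big t p hω hN.im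
  have hμB : μ ∈ CD.acl (bigField ω₁ (ω₁ * τ) t p) := hB.ac μ (hμ _ hB.g2 hB.g3)
  refine ⟨fun M hM => ⟨CD.texp_mem t p M, CD.closed_exp hF hM⟩, fun g hg hgF hgL => ?_, ?_⟩
  · have hgood := (CD.good_comb t p CD.prf_Add CD.end_Mul hω hN.im g
      (fun j => hg j)).resolve_left hgL
    have hwF := CD.closed_wp hF (one_mem _) hτF hgF
    have hzF := CD.closed_zt hF (one_mem _) hτF hgF
    exact ⟨⟨mul_mem (pow_mem hμB 2) hgood.1, mul_mem (pow_mem hμF 2) hwF⟩,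
      ⟨mul_mem hμB hgood.2, mul_mem hμF hzF⟩⟩
  · exact le_inf ((big_base hω t p).trans (CD.le_acl _))
      (CD.closed_big hF (one_mem _) hτF (fun l => l.elim0) (fun l => l.elim0))

end Pool.Agent.Work.MP_8da9ea_nt.EC
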