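import Pool.Agent.Work.MP_8da9ea_nt.EC.Stmts2
import Pool.Agent.Work.MP_8da9ea_nt.CD.End

/-!
# Item OnLD: the lower bound for one lattice, with defects (assembly)
-/

set_option autoImplicit false

namespace Pool.Agent.Work.MP_8da9ea_nt.EC

open Pool.Agent.Work.MP_8da9ea_nt.EB Pool.Agent.Work.MP_327059_nt.GL Pool.Agent.Work.MP_8da9ea_nt.S

theorem OnLD_pf (hInd : S_Ind) (hT : S_TSel) (hP : S_PSel) (hMem : S_Memb) (hPer : S_PerAlg)
    (hTow : S_Tower) : S_OnLD := by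
  classical
  intro S hS τ μ ω₁ hμ h1 hμa K hK r r' u v hvK hvL hind s n t p d d' t₀ p₀ hI hIE ρ y hy hyc e he
    N hN
  have hdiv : ω₁ * τ / ω₁ = τ := mul_div_cancel_left₀ _ h1
  obtain ⟨hτF, hmem⟩ := hMem (CD.cl S) (CD.closed_cl S) τ μ ω₁ hμ h1 hμa
  obtain ⟨hm1, hm2, hm3⟩ := hmem s n t p
  obtain ⟨a, M, A, hMF, hMexp, hA, hadim⟩ := hT (CD.cl S) (CD.closed_cl S).kap s r d t u t₀ hI
  have him : (ω₁ * τ / ω₁).im ≠ 0 := by
    rw [hdiv]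
    exact hμ.im.ne'
  obtain ⟨b, g, G, σ, hg, hgF, hgG, hσ, hGE, hGrow, hbdim⟩ := hP (CD.cl S) ω₁ (ω₁ * τ)
    (by rw [hdiv]; exact hμ.im) (by rw [hdiv]; exact hτF) n r' d' p v p₀ hIE
  rw [hdiv] at hg hσ hGE hGrow
  obtain ⟨hnL, hind'⟩ := hInd τ μ hμ K hK r r' u (fun i => v i / ω₁) hvK hvL hind a b A G σ hA
    hGE hGrow hσ
  have hfam : ∀ o, fm τ μ (fun i => ∑ j, (A i j : ℂ) * u j)
      (fun i => ∑ l, G i l * (v l / ω₁) + σ i) o ∈
        CD.acl (bigField ω₁ (ω₁ * τ) t p) ⊓ CD.cl S := by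
    rintro (i | ⟨i, bb⟩)
    · change Complex.exp (∑ j, (A i j : ℂ) * u j) ∈ _
      rw [← hMexp i]
      exact hm1 (M i) (hMF i)
    · have h3 : ∑ j, g i j * (p j / ω₁) ∉ Lam τ := by
        rw [hgG i]
        exact hnL i
      have h4 := hm2 (g i) (hg i) (hgF i) h3
      rw [hgG i] at h4
      cases bb with
      | true => exact h4.2
      | false => exact h4.1
  have hcard : a + 2 * b ≤ Fintype.card (Fin a ⊕ Fin b × Bool) := by
    rw [Fintype.card_sum, Fintype.card_prod, Fintype.card_fin, Fintype.card_fin,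
      Fintype.card_bool, mul_comm b 2]
  have h5 := hTow K (bigField 1 τ (![] : Fin 0 → ℂ) (![] : Fin 0 → ℂ))
    (CD.acl (bigField ω₁ (ω₁ * τ) t p) ⊓ CD.cl S) (hPer τ μ hμ K hK) hm3 e (a + 2 * b)
    (Fin a ⊕ Fin b × Bool) _ he hcard hind' hfam
  have hj : jInv ω₁ (ω₁ * τ) ∈ CD.cl S :=
    (CD.closed_jiff (CD.closed_cl S) him).2 (by rw [hdiv]; exact hτF)
  have h6 := CD.all_fix (t := t) (p := p) CD.prf_Lin CD.prf_Lin2 CD.prf_Add CD.end_Mul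
    him hS hj y (fun i => CD.mem_acl.2 (hy i)) hyc
  have h7 : CD.RelTr (CD.acl (CD.acl (bigField ω₁ (ω₁ * τ) t p))) (CD.cl S) _ :=
    h6.mono (CD.le_acl _) le_rfl le_rfl
  have h8 := CD.hasTrdeg_acl (h7.hasTrdeg h5)
  exact h8.mono le_rfl (by omega)

end Pool.Agent.Work.MP_8da9ea_nt.EC
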