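import Pool.Agent.Work.MP_8da9ea_nt.EC.I_TSel

/-!
# Item PSel: the part of `p` in `ω₁ F` and on the line
-/

set_option autoImplicit false

namespace Pool.Agent.Work.MP_8da9ea_nt.EC

open Pool.Agent.Work.MP_8da9ea_nt.EB Pool.Agent.Work.MP_327059_nt.GL Pool.Agent.Work.MP_8da9ea_nt.S
  Submodule

namespace I_PSel

open I_TSel

theorem isE_mul_rat {τ c : ℂ} (hc : IsE τ c) (q q' : ℚ) :
    ∃ a a' : ℚ, c * ((q : ℂ) + q' * τ) = a + a' * τ := by
  obtain ⟨N, hN, h1, h2⟩ := hc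
  obtain ⟨m, n, h3⟩ := mem_Lam.1 h1
  obtain ⟨m', n', h4⟩ := mem_Lam.1 h2
  have hN' : (N : ℂ) ≠ 0 := by exact_mod_cast hN
  refine ⟨(q * m + q' * m') / N, (q * n + q' * n') / N, ?_⟩
  push_cast
  field_simp
  linear_combination (q : ℂ) * h3 + (q' : ℂ) * h4

/-- a common multiplier -/
theorem exists_mult {τ : ℂ} (hKf : ∀ g : ℂ, IsE τ g → ∃ N : ℕ, N ≠ 0 ∧ IsI τ ((N : ℂ) * g))
    {b : ℕ} (x : Fin b → ℂ) (hx : ∀ i, IsE τ (x i)) :
    ∃ N : ℕ, N ≠ 0 ∧ ∀ i, IsI τ ((N : ℂ) * x i) := by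
  classical
  choose N hN hI using fun i => hKf (x i) (hx i)
  refine ⟨∏ i, N i, Finset.prod_ne_zero_iff.2 fun i _ => hN i, fun i => ?_⟩
  obtain ⟨k, hk⟩ : N i ∣ ∏ i, N i := Finset.dvd_prod_of_mem _ (Finset.mem_univ i)
  rw [hk]
  obtain ⟨h1, h2⟩ := hI i
  have key : ∀ y ∈ Lam τ, (k : ℂ) * y ∈ Lam τ := by
    intro y hy
    obtain ⟨m, n, h3⟩ := mem_Lam.1 hy
    exact mem_Lam.2 ⟨k * m, k * n, by push_cast; rw [h3]; ring⟩
  refine ⟨?_, ?_⟩
  · have h3 := key _ h1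
    have h4 : ((N i * k : ℕ) : ℂ) * x i = (k : ℂ) * ((N i : ℂ) * x i) := by
      push_cast
      ring
    rw [h4]
    exact h3
  · have h3 := key _ h2
    have h4 : ((N i * k : ℕ) : ℂ) * x i * τ = (k : ℂ) * ((N i : ℂ) * x i * τ) := by
      push_cast
      ring
    rw [h4]
    exact h3

theorem lam_add {τ x y : ℂ} (hx : x ∈ Lam τ) (hy : y ∈ Lam τ) : x + y ∈ Lam τ := by
  obtain ⟨m, n, rfl⟩ := mem_Lam.1 hx
  obtain ⟨m', n', rfl⟩ := mem_Lam.1 hy
  exact mem_Lam.2 ⟨m + m', n + n', by push_cast; ring⟩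

theorem isI_zero (τ : ℂ) : IsI τ 0 :=
  ⟨mem_Lam.2 ⟨0, 0, by simp⟩, mem_Lam.2 ⟨0, 0, by simp⟩⟩

theorem isI_add {τ x y : ℂ} (hx : IsI τ x) (hy : IsI τ y) : IsI τ (x + y) :=
  ⟨lam_add hx.1 hy.1, by rw [add_mul]; exact lam_add hx.2 hy.2⟩

theorem isI_sum {τ : ℂ} {b : ℕ} (x : Fin b → ℂ) (hx : ∀ i, IsI τ (x i)) :
    IsI τ (∑ i, x i) := by
  classical
  have key : ∀ s : Finset (Fin b), IsI τ (∑ i ∈ s, x i) := by
    intro s
    induction s using Finset.induction_on with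
    | empty => rw [Finset.sum_empty]; exact isI_zero τ
    | insert a s ha ih =>
      rw [Finset.sum_insert ha]
      exact isI_add (hx a) ih
  exact key _

theorem isI_mul {τ x y : ℂ} (hx : IsI τ x) (hy : IsI τ y) : IsI τ (x * y) := by
  obtain ⟨a, b, h1⟩ := mem_Lam.1 hx.1
  obtain ⟨a', b', h2⟩ := mem_Lam.1 hx.2
  obtain ⟨c, d, h3⟩ := mem_Lam.1 hy.1
  obtain ⟨c', d', h4⟩ := mem_Lam.1 hy.2
  refine ⟨mem_Lam.2 ⟨c * a + d * a', c * b + d * b', ?_⟩,
    mem_Lam.2 ⟨c' * a + d' * a', c' * b + d' * b', ?_⟩⟩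
  · push_cast
    rw [h3]
    linear_combination (c : ℂ) * h1 + (d : ℂ) * h2
  · push_cast
    rw [mul_assoc, h4]
    linear_combination (c' : ℂ) * h1 + (d' : ℂ) * h2

theorem isE_of_isI {τ x : ℂ} (hx : IsI τ x) : IsE τ x :=
  ⟨1, one_ne_zero, by simpa using hx.1, by simpa using hx.2⟩

end I_PSel

open I_TSel I_PSel in
theorem PSel_pf (h : S_PPart) (hK : S_Kf) : S_PSel := by
  classical
  intro F ω₁ ω₂ him hτF n r d p v p₀ hI
  obtain ⟨b₀, g₀, hg₀, hgF, hind, hdim⟩ := h F ω₁ ω₂ him.ne' hτF n p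
  set τ := ω₂ / ω₁ with hτ
  obtain ⟨-, hK1, hK2, -⟩ := hK τ him
  set p' : Fin b₀ → ℂ := fun i => ∑ j, g₀ i j * (p j / ω₁) with hp'
  choose c q q' hc hcq using fun i => hI (g₀ i) (fun j => isE_of_isI (hg₀ i j)) (hgF i)
  -- the kernel
  obtain ⟨C, hC, hCB⟩ := kerSel (kf τ) b₀ d (fun i l => ⟨c i (Fin.natAdd r l), (hK1 _).2 (hc i _)⟩)
  have hCE : ∀ j i, IsE τ (C j i : ℂ) := fun j i => (hK1 _).1 (C j i).2
  have hCB' : ∀ j l, ∑ i, (C j i : ℂ) * c i (Fin.natAdd r l) = 0 := by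
    intro j l
    have h1 := congrArg (fun x : kf τ => (x : ℂ)) (hCB j l)
    simpa using h1
  choose N hN hNI using fun j => exists_mult hK2 (fun i => (C j i : ℂ)) (hCE j)
  have hsum : ∀ j, ∑ l, (∑ i, ((N j : ℂ) * C j i) * g₀ i l) * (p l / ω₁) =
      ∑ i, ((N j : ℂ) * C j i) * p' i := by
    intro j
    simp only [hp', Finset.sum_mul, Finset.mul_sum]
    rw [Finset.sum_comm]
    exact Finset.sum_congr rfl fun i _ => Finset.sum_congr rfl fun l _ => by ring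
  have hform : ∀ j, ∑ i, ((N j : ℂ) * C j i) * p' i =
      ∑ l, (∑ i, ((N j : ℂ) * C j i) * c i (Fin.castAdd d l)) * (v l / ω₁) +
        ∑ i, ((N j : ℂ) * C j i) * ((q i : ℂ) + q' i * τ) := by
    intro j
    have h1 : ∀ i, ((N j : ℂ) * C j i) * p' i =
        (∑ l, (((N j : ℂ) * C j i) * c i (Fin.castAdd d l)) * (v l / ω₁)) +
        (N j : ℂ) * (∑ l, ((C j i : ℂ) * c i (Fin.natAdd r l)) * (p₀ l / ω₁)) +
        ((N j : ℂ) * C j i) * ((q i : ℂ) + q' i * τ) := by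
      intro i
      have h2 : p' i = ∑ l, c i l * (Fin.append v p₀ l / ω₁) + q i + q' i * τ := hcq i
      rw [h2, Fin.sum_univ_add]
      simp only [Fin.append_left, Fin.append_right]
      simp only [mul_add, Finset.mul_sum]
      have e1 : ∑ l, (N j : ℂ) * (C j i : ℂ) * (c i (Fin.castAdd d l) * (v l / ω₁)) =
          ∑ l, (N j : ℂ) * (C j i : ℂ) * c i (Fin.castAdd d l) * (v l / ω₁) :=
        Finset.sum_congr rfl fun l _ => by ring
      have e2 : ∑ l, (N j : ℂ) * (C j i : ℂ) * (c i (Fin.natAdd r l) * (p₀ l / ω₁)) =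
          ∑ l, (N j : ℂ) * ((C j i : ℂ) * c i (Fin.natAdd r l) * (p₀ l / ω₁)) :=
        Finset.sum_congr rfl fun l _ => by ring
      rw [e1, e2]
      ring
    simp only [h1, Finset.sum_add_distrib]
    have h3 : ∑ i, (N j : ℂ) * (∑ l, ((C j i : ℂ) * c i (Fin.natAdd r l)) * (p₀ l / ω₁)) = 0 := by
      rw [← Finset.mul_sum, Finset.sum_comm]
      have h4 : ∀ l, ∑ i, ((C j i : ℂ) * c i (Fin.natAdd r l)) * (p₀ l / ω₁) = 0 := by
        intro l
        rw [← Finset.sum_mul, hCB', zero_mul]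
      rw [Finset.sum_eq_zero fun l _ => h4 l, mul_zero]
    rw [h3, add_zero]
    congr 1
    rw [Finset.sum_comm]
    exact Finset.sum_congr rfl fun l _ => by rw [Finset.sum_mul]
  -- rational combinations of `1`, `τ`
  have hrat : ∀ (m : ℕ) (e : Fin m → ℂ) (a a' : Fin m → ℚ), (∀ i, IsE τ (e i)) →
      ∃ x x' : ℚ, ∑ i, e i * ((a i : ℂ) + a' i * τ) = x + x' * τ := by
    intro m e a a' he
    choose x x' hx using fun i => isE_mul_rat (he i) (a i) (a' i)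
    refine ⟨∑ i, x i, ∑ i, x' i, ?_⟩
    simp only [hx, Finset.sum_add_distrib]
    push_cast
    rw [Finset.sum_mul]
  have hNE : ∀ j i, IsE τ ((N j : ℂ) * C j i) := fun j i => isE_of_isI (hNI j i)
  have hGk : ∀ j l, ∑ i, ((N j : ℂ) * C j i) * c i (Fin.castAdd d l) ∈ kf τ := fun j l =>
    sum_mem fun i _ => mul_mem ((hK1 _).2 (hNE j i)) ((hK1 _).2 (hc i _))
  refine ⟨b₀ - d, fun j l => ∑ i, ((N j : ℂ) * C j i) * g₀ i l,
    fun j l => ∑ i, ((N j : ℂ) * C j i) * c i (Fin.castAdd d l),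
    fun j => ∑ i, ((N j : ℂ) * C j i) * ((q i : ℂ) + q' i * τ),
    fun j l => isI_sum _ fun i => isI_mul (hNI j i) (hg₀ i l), fun j => ?_, fun j => ?_,
    fun j => hrat b₀ _ q q' (hNE j), fun j l => (hK1 _).1 (hGk j l), ?_, ?_⟩
  · rw [hsum j]
    refine sum_mem fun i _ => mul_mem ?_ (hgF i)
    exact CD.Lam_sub hτF (hNI j i).1
  · rw [hsum j, hform j]
  · intro e he hG
    choose x x' hx using fun j => hrat b₀ _ q q' (hNE j)
    obtain ⟨y, y', hy⟩ := hrat _ e x x' he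
    have h1 : ∑ i, (∑ j, e j * ((N j : ℂ) * C j i)) * p' i = y + y' * τ := by
      have h2 : ∑ i, (∑ j, e j * ((N j : ℂ) * C j i)) * p' i =
          ∑ j, e j * ∑ i, ((N j : ℂ) * C j i) * p' i := by
        simp only [Finset.sum_mul, Finset.mul_sum]
        rw [Finset.sum_comm]
        exact Finset.sum_congr rfl fun i _ => Finset.sum_congr rfl fun l _ => by ring
      rw [h2]
      have h2' : ∀ j, e j * ∑ i, ((N j : ℂ) * C j i) * p' i =
          ∑ l, (e j * ∑ i, ((N j : ℂ) * C j i) * c i (Fin.castAdd d l)) * (v l / ω₁) +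
            e j * ((x j : ℂ) + x' j * τ) := by
        intro j
        rw [hform j, hx j, mul_add, Finset.mul_sum]
        congr 1
        exact Finset.sum_congr rfl fun l _ => by ring
      rw [Finset.sum_congr rfl fun j _ => h2' j, Finset.sum_add_distrib, hy]
      have h3 : ∑ j, ∑ l, (e j * ∑ i, ((N j : ℂ) * C j i) * c i (Fin.castAdd d l)) *
          (v l / ω₁) = 0 := by
        rw [Finset.sum_comm]
        refine Finset.sum_eq_zero fun l _ => ?_
        rw [← Finset.sum_mul, hG l, zero_mul]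
      rw [h3, zero_add]
    have hE : ∀ i, IsE τ (∑ j, e j * ((N j : ℂ) * C j i)) := fun i =>
      (hK1 _).1 (sum_mem fun j _ => mul_mem ((hK1 _).2 (he j)) ((hK1 _).2 (hNE j i)))
    have h5 := hind _ y y' hE h1
    rw [Fintype.linearIndependent_iff] at hC
    have h6 := hC (fun j => ⟨e j * N j, mul_mem ((hK1 _).2 (he j)) (natCast_mem _ _)⟩) (by
      funext i
      have h7 := congrFun h5 i
      simp only [Pi.zero_apply] at h7
      apply Subtype.ext
      simp only [Finset.sum_apply, Pi.smul_apply, smul_eq_mul, Pi.zero_apply]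
      push_cast
      rw [← h7]
      exact Finset.sum_congr rfl fun j _ => by ring)
    funext j
    have h8 := congrArg (fun x : kf τ => (x : ℂ)) (h6 j)
    simp only [ZeroMemClass.coe_zero] at h8
    exact (mul_eq_zero.1 h8).resolve_right (by exact_mod_cast hN j)
  · omega

end Pool.Agent.Work.MP_8da9ea_nt.EC
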