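import Pool.Agent.Work.MP_8da9ea_nt.EC.Stmts

/-!
# Item PerAlg: the field of periods is algebraic over `K`
-/

set_option autoImplicit false

namespace Pool.Agent.Work.MP_8da9ea_nt.EC

open Pool.Agent.Work.MP_8da9ea_nt.EB Pool.Agent.Work.MP_327059_nt.GL Pool.Agent.Work.MP_8da9ea_nt.S

namespace I_PerAlg

/-- if `μ ≠ 0`, `μ ∈ K` and `μ ^ k g` is algebraic then `g` is algebraic over `K` -/
theorem div_alg (K : IntermediateField ℚ ℂ) {μ g : ℂ} (k : ℕ) (h0 : μ ≠ 0) (hμ : μ ∈ K)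
    (h : IsAlgebraic ℚ (μ ^ k * g)) : g ∈ CD.acl K := by
  have h1 : μ ^ k * g ∈ CD.acl K := CD.mem_acl.2 (h.extendScalars (algebraMap ℚ K).injective)
  have h2 : μ ^ k ∈ CD.acl K := pow_mem (CD.le_acl K hμ) k
  have h3 : g = (μ ^ k * g) / μ ^ k := by
    field_simp
  rw [h3]
  exact div_mem h1 h2

end I_PerAlg

theorem PerAlg_pf : S_PerAlg := by
  intro τ μ hN K hK
  have hτ := hN.im
  have hL := CD.le_acl K
  have h4 : gg2 τ ∈ CD.acl K := I_PerAlg.div_alg K 4 hN.mu hK.mu hN.g2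
  have h6 : gg3 τ ∈ CD.acl K := I_PerAlg.div_alg K 6 hN.mu hK.mu hN.g3
  refine big_le 1 τ _ _ (fun l => l.elim0) (fun l => l.elim0) h4 h6 (fun l => l.elim0)
    (fun l => l.elim0) (fun l => l.elim0) (one_mem _) (hL hK.tau) (hL hK.et) ?_
  rw [zt_half_tau hτ]
  exact sub_mem (mul_mem (hL hK.tau) (hL hK.et)) (hL hK.kap)

end Pool.Agent.Work.MP_8da9ea_nt.EC
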