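import Pool.Agent.Work.MP_8da9ea_nt.EC.Stmts

/-!
# E2: derivations with given forms from algebraic independence
-/

set_option autoImplicit false

namespace Pool.Agent.Work.MP_8da9ea_nt.EC

open Pool.Agent.Work.MP_8da9ea_nt Pool.Agent.ED Pool.Agent.Work.MP_8da9ea_nt.EB
  Pool.Agent.Work.MP_327059_nt.GL Pool.Agent.Work.MP_8da9ea_nt.S

namespace I_Pres

open Polynomial in
/-- a root of a cubic with algebraic coefficients is algebraic -/
theorem alg_cubic {a b x : ℂ} (ha : IsAlgebraic ℚ a) (hb : IsAlgebraic ℚ b)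
    (h : 4 * x ^ 3 - a * x - b = 0) : IsAlgebraic ℚ x := by
  have hA : a ∈ algebraicClosure ℚ ℂ := (mem_algebraicClosure_iff).2 ha
  have hB : b ∈ algebraicClosure ℚ ℂ := (mem_algebraicClosure_iff).2 hb
  have h1 : IsAlgebraic (algebraicClosure ℚ ℂ) x := by
    refine ⟨C 4 * X ^ 3 - C ⟨a, hA⟩ * X - C ⟨b, hB⟩, ?_, ?_⟩
    · intro h0
      have h2 := congrArg (fun p => p.coeff 3) h0
      simp only [coeff_sub, coeff_C_mul, coeff_X_pow, coeff_X, coeff_C, coeff_zero] at h2
      norm_num at h2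
    · simp only [map_sub, map_mul, aeval_C, map_pow, aeval_X]
      have h3 : (algebraMap (algebraicClosure ℚ ℂ) ℂ) ⟨a, hA⟩ = a := rfl
      have h4 : (algebraMap (algebraicClosure ℚ ℂ) ℂ) ⟨b, hB⟩ = b := rfl
      rw [h3, h4, map_ofNat]
      exact h
  have : Algebra.IsAlgebraic ℚ (algebraicClosure ℚ ℂ) := algebraicClosure.isAlgebraic ℚ ℂ
  exact h1.restrictScalars ℚ

/-- `Y(v) ≠ 0` if `X(v)` is transcendental -/
theorem ye_ne {τ μ : ℂ} (h : Nrm τ μ) {v : ℂ} (hv : v ∉ Lam τ)
    (hx : ¬ IsAlgebraic ℚ (xe τ μ v)) : ye τ μ v ≠ 0 := by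
  intro h0
  apply hx
  have h1 : ye τ μ v ^ 2 = 4 * xe τ μ v ^ 3 - (μ ^ 4 * gg2 τ) * xe τ μ v - μ ^ 6 * gg3 τ := by
    have h2 := wpd_sq h.im hv
    unfold ye xe
    linear_combination μ ^ 6 * h2
  rw [h0] at h1
  exact alg_cubic h.g2 h.g3 (by rw [← h1]; ring)

end I_Pres

theorem Pres_pf : S_Pres := by
  intro τ μ hN K hK r r' u v hv hind w
  classical
  have hx : ∀ i, ¬ IsAlgebraic ℚ (xe τ μ (v i)) := by
    intro i h
    have h1 := hind.transcendental (Sum.inr (i, false))
    exact h1 (h.tower_top (A := ℂ) K)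
  have hy : ∀ i, ye τ μ (v i) ≠ 0 := fun i => I_Pres.ye_ne hN (hv i) (hx i)
  obtain ⟨X, hX⟩ := exists_derivation hind (fun o : Fin r ⊕ Fin r' × Bool =>
    Sum.elim (fun i => Complex.exp (u i) * w (Sum.inl i))
      (fun q : Fin r' × Bool => if q.2 then w (Sum.inr (q.1, true)) -
        xe τ μ (v q.1) * w (Sum.inr (q.1, false)) else ye τ μ (v q.1) * w (Sum.inr (q.1, false))) o)
  refine ⟨X.restrictScalars ℚ, ?_, ?_⟩
  · intro x hx
    show X x = 0
    exact X.map_algebraMap (⟨x, hx⟩ : K)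
  · have hxe : ∀ i, (X.restrictScalars ℚ) (xe τ μ (v i)) = ye τ μ (v i) * w (Sum.inr (i, false)) := by
      intro i
      have h1 := hX (Sum.inr (i, false))
      simpa [fm] using h1
    have hze : ∀ i, (X.restrictScalars ℚ) (ze τ μ (v i)) = w (Sum.inr (i, true)) -
        xe τ μ (v i) * w (Sum.inr (i, false)) := by
      intro i
      have h1 := hX (Sum.inr (i, true))
      simpa [fm] using h1
    have hlam : ∀ i, lam τ μ (X.restrictScalars ℚ) (v i) = w (Sum.inr (i, false)) := by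
      intro i
      unfold lam
      rw [if_neg (hv i), hxe i, mul_div_cancel_left₀ _ (hy i)]
    funext o
    rcases o with i | ⟨i, b⟩
    · show (X.restrictScalars ℚ) (Complex.exp (u i)) / Complex.exp (u i) = w (Sum.inl i)
      have h1 : (X.restrictScalars ℚ) (Complex.exp (u i)) = Complex.exp (u i) * w (Sum.inl i) := by
        have h2 := hX (Sum.inl i)
        simpa [fm] using h2
      rw [h1, mul_div_cancel_left₀ _ (Complex.exp_ne_zero _)]
    · cases b
      · exact hlam i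
      · show etf τ μ (X.restrictScalars ℚ) (v i) = w (Sum.inr (i, true))
        unfold etf
        rw [if_neg (hv i), hze i, hlam i]
        ring

end Pool.Agent.Work.MP_8da9ea_nt.EC
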