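import Pool.Agent.Work.MP_8da9ea_nt.EC.Stmts

/-!
# Item RelEC: the points `u`, `v` on the line through `z`
-/

set_option autoImplicit false

namespace Pool.Agent.Work.MP_8da9ea_nt.EC

open Pool.Agent.Work.MP_8da9ea_nt.EB Pool.Agent.Work.MP_327059_nt.GL Pool.Agent.Work.MP_8da9ea_nt.S
open Pool.Agent.ED

namespace I_RelEC

open Pool.Agent.Work.MP_8da9ea_nt

/-- rank on a smaller space of derivations -/
lemma rank_DK {m k N : ℕ} (b : Fin m → ℂ) (θ : Fin N → ℂ) (K : IntermediateField ℚ ℂ)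
    (hK : ∀ δ ∈ TT b, (∀ i, δ (θ i) = 0) → δ ∈ DK K)
    (f : Derivation ℚ ℂ ℂ →ₗ[ℂ] (Fin k → ℂ)) (R : ℕ)
    (h : R + N ≤ Module.finrank ℂ ((TT b).map f)) : R ≤ Module.finrank ℂ ((DK K).map f) := by
  obtain ⟨δ, hδ, hδi⟩ := TG.lin_ker (TT b) f (evDer (K := ℚ) (M := ℂ) θ) R (by
    rw [Module.finrank_fintype_fun_eq_card, Fintype.card_fin]
    exact h)
  have h1 : ∀ s, δ s ∈ DK K := fun s => hK _ (hδ s).1 fun i => congrFun (hδ s).2 i
  have h2 : LinearIndependent ℂ (fun s => (⟨f (δ s), Submodule.mem_map_of_mem (h1 s)⟩ :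
      (DK K).map f)) := by
    apply LinearIndependent.of_comp (Submodule.subtype _)
    exact hδi
  have h3 := h2.fintype_card_le_finrank
  rwa [Fintype.card_fin] at h3

end I_RelEC

theorem RelEC_pf (h1 : S_RelAll) (h2 : S_RelPol) : S_RelEC := by
  intro m κ r r' b z z' τ μ hN hm hlg hlam
  set θ : Fin 5 → ℂ := ![z', τ, et τ, kap, μ] with hθ
  set S : Set ℂ := Set.range b ∪ Set.range θ with hS
  set K : IntermediateField ℚ ℂ := IntermediateField.adjoin ℚ S with hK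
  have hcount : Countable K :=
    countable_adjoin S ((Set.finite_range b).union (Set.finite_range θ)).countable
  have hb : ∀ j, b j ∈ K := fun j => IntermediateField.subset_adjoin ℚ S (Or.inl ⟨j, rfl⟩)
  have hθK : ∀ i, θ i ∈ K := fun i => IntermediateField.subset_adjoin ℚ S (Or.inr ⟨i, rfl⟩)
  have hz' : z' ∈ K := hθK 0
  have hτ : τ ∈ K := hθK 1
  have het : et τ ∈ K := hθK 2
  have hkap : kap ∈ K := hθK 3
  have hμ : μ ∈ K := hθK 4
  have hDK : ∀ δ ∈ TT b, (∀ i, δ (θ i) = 0) → δ ∈ DK K := by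
    intro δ hδ hδθ x hx
    refine der_zero_adjoin S δ ?_ x hx
    rintro _ (⟨i, rfl⟩ | ⟨i, rfl⟩)
    · exact hδ i
    · exact hδθ i
  have r1 : r + 2 * r' ≤ Module.finrank ℂ ((DK K).map (lgV (fun j => b j * z))) :=
    I_RelEC.rank_DK b θ K hDK _ _ (by omega)
  have r2 : 2 * r' ≤ Module.finrank ℂ ((DK K).map (lamV τ μ (fun j => b j * z'))) :=
    I_RelEC.rank_DK b θ K hDK _ _ (by omega)
  obtain ⟨c0, c0', δ, hδ, hdet⟩ := h1 τ μ hN K hcount hμ hτ het hkap m r r' _ _ r2 r1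
  obtain ⟨P, hP, hPh, hPc⟩ := h2 τ μ hN K hμ hτ het hkap m r r' _ _ c0 c0' δ hδ hdet
  exact ⟨K, P, ⟨hμ, hτ, het, hkap⟩, hz', hb, hP, hPh, hPc⟩

end Pool.Agent.Work.MP_8da9ea_nt.EC
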