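import Pool.Agent.Work.MP_8da9ea_nt.EC.Stmts2

/-!
# Item TSel: the part of `t` in `F` and on the line
-/

set_option autoImplicit false

namespace Pool.Agent.Work.MP_8da9ea_nt.EC

open Pool.Agent.Work.MP_8da9ea_nt.EB Pool.Agent.Work.MP_327059_nt.GL Pool.Agent.Work.MP_8da9ea_nt.S
  Pool.Agent.Work.MP_8da9ea_nt.TG Submodule

namespace I_TSel

/-- relations between the rows of a matrix with `d` columns -/
theorem kerSel (k : Type) [Field k] (a d : ℕ) (B : Fin a → Fin d → k) :
    ∃ C : Fin (a - d) → Fin a → k, LinearIndependent k C ∧ ∀ j l, ∑ i, C j i * B i l = 0 := by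
  let f : (Fin a → k) →ₗ[k] (Fin d → k) :=
    { toFun := fun x l => ∑ i, x i * B i l
      map_add' := by
        intro x y
        funext l
        simp only [Pi.add_apply, add_mul, Finset.sum_add_distrib]
      map_smul' := by
        intro c x
        funext l
        simp only [Pi.smul_apply, smul_eq_mul, RingHom.id_apply, Finset.mul_sum, mul_assoc] }
  have h1 := LinearMap.finrank_range_add_finrank_ker f
  have h2 : Module.finrank k (LinearMap.range f) ≤ d := by
    have := Submodule.finrank_le (LinearMap.range f)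
    rwa [Module.finrank_fintype_fun_eq_card, Fintype.card_fin] at this
  rw [Module.finrank_fintype_fun_eq_card, Fintype.card_fin] at h1
  have h3 : a - d ≤ Module.finrank k (LinearMap.ker f) := by omega
  obtain ⟨w, hw⟩ := exists_linearIndependent_of_le_finrank h3
  refine ⟨fun j => (w j : Fin a → k), ?_, fun j l => ?_⟩
  · exact hw.map' (LinearMap.ker f).subtype (Submodule.ker_subtype _)
  · have h4 : f (w j) = 0 := (w j).2
    exact congrFun h4 l

/-- scaling the vectors of an independent family -/
theorem li_scale {k : Type} [Field k] {a b : ℕ} (C : Fin a → Fin b → k) (N : Fin a → k)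
    (hN : ∀ i, N i ≠ 0) (hC : LinearIndependent k C) :
    LinearIndependent k (fun i j => N i * C i j) := by
  rw [Fintype.linearIndependent_iff] at hC ⊢
  intro g hg i
  have h1 := hC (fun i => g i * N i) (by
    rw [← hg]
    refine Finset.sum_congr rfl fun i _ => ?_
    funext j
    simp only [Pi.smul_apply, smul_eq_mul]
    ring) i
  exact (mul_eq_zero.1 h1).resolve_right (hN i)

theorem kerInt (a d : ℕ) (B : Fin a → Fin d → ℚ) :
    ∃ C : Fin (a - d) → Fin a → ℤ, LinearIndependent ℚ (fun j i => (C j i : ℚ)) ∧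
      ∀ j l, ∑ i, (C j i : ℚ) * B i l = 0 := by
  obtain ⟨C, hC, hB⟩ := kerSel ℚ a d B
  choose D e hD he using fun j => exists_den (C j)
  refine ⟨e, ?_, fun j l => ?_⟩
  · have h1 := li_scale C (fun j => (D j : ℚ)) (fun j => by exact_mod_cast hD j) hC
    have h2 : (fun j i => (e j i : ℚ)) = fun j i => (D j : ℚ) * C j i := by
      funext j i
      rw [he]
    rw [h2]
    exact h1
  · have h1 : ∑ i, (e j i : ℚ) * B i l = D j * ∑ i, C j i * B i l := by
      rw [Finset.mul_sum]
      refine Finset.sum_congr rfl fun i _ => ?_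
      rw [← he]
      ring
    rw [h1, hB, mul_zero]

end I_TSel

open I_TSel in
theorem TSel_pf (h : S_TPart) : S_TSel := by
  classical
  intro F hF s r d t u t₀ hI
  obtain ⟨a₀, M₀, hMF, hMind, hdim⟩ := h F hF s t
  set t' : Fin a₀ → ℂ := fun i => ∑ l, (M₀ i l : ℂ) * t l with ht'
  have hspan : ∀ i, t' i ∈ span ℚ (Set.range t) := by
    intro i
    refine sum_mem fun l _ => ?_
    have h1 : (M₀ i l : ℂ) * t l = (M₀ i l : ℚ) • t l := by
      rw [Rat.smul_def]
      push_cast
      rfl
    rw [h1]
    exact smul_mem _ _ (subset_span ⟨l, rfl⟩)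
  choose c q hcq using fun i => span_form (Fin.append u t₀) (t' i) (hI _ (hspan i) (hMF i))
  obtain ⟨D, e, hD, he⟩ := exists_den q
  obtain ⟨C, hC, hCB⟩ := kerInt a₀ d (fun i l => c i (Fin.natAdd r l))
  have hD' : (D : ℂ) ≠ 0 := by exact_mod_cast hD
  -- the combinations
  have hsum : ∀ k, ∑ l, (((∑ i, C k i * D * M₀ i l : ℤ)) : ℂ) * t l =
      ∑ i, ((C k i : ℂ) * D) * t' i := by
    intro k
    simp only [ht']
    push_cast
    simp only [Finset.sum_mul, Finset.mul_sum]
    rw [Finset.sum_comm]
    exact Finset.sum_congr rfl fun i _ => Finset.sum_congr rfl fun l _ => by ring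
  have hform : ∀ k, ∑ i, ((C k i : ℂ) * D) * t' i =
      (∑ j, (((∑ i, (C k i : ℚ) * D * c i (Fin.castAdd d j) : ℚ)) : ℂ) * u j) +
        (((∑ i, C k i * e i : ℤ)) : ℂ) * (2 * (Real.pi : ℂ) * Complex.I) := by
    intro k
    have h1 : ∀ i, ((C k i : ℂ) * D) * t' i =
        (∑ j, ((C k i : ℂ) * D * (c i (Fin.castAdd d j) : ℂ)) * u j) +
        D * (∑ l, ((C k i : ℂ) * (c i (Fin.natAdd r l) : ℂ)) * t₀ l) +
        ((C k i : ℂ) * (e i : ℂ)) * (2 * (Real.pi : ℂ) * Complex.I) := by
      intro i
      rw [hcq i, Fin.sum_univ_add]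
      simp only [Fin.append_left, Fin.append_right]
      have h2 : (D : ℂ) * (q i : ℂ) = e i := by exact_mod_cast congrArg (fun r : ℚ => (r : ℂ)) (he i)
      rw [← h2]
      simp only [mul_add, Finset.mul_sum]
      congr 1
      · congr 1
        · exact Finset.sum_congr rfl fun j _ => by ring
        · exact Finset.sum_congr rfl fun j _ => by ring
      · ring
    simp only [h1, Finset.sum_add_distrib]
    have h3 : ∑ i, (D : ℂ) * (∑ l, ((C k i : ℂ) * (c i (Fin.natAdd r l) : ℂ)) * t₀ l) = 0 := by
      rw [← Finset.mul_sum, Finset.sum_comm]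
      have h4 : ∀ l, ∑ i, ((C k i : ℂ) * (c i (Fin.natAdd r l) : ℂ)) * t₀ l = 0 := by
        intro l
        rw [← Finset.sum_mul]
        have h5 := congrArg (fun r : ℚ => (r : ℂ)) (hCB k l)
        push_cast at h5
        rw [h5, zero_mul]
      rw [Finset.sum_eq_zero fun l _ => h4 l, mul_zero]
    rw [h3, add_zero]
    congr 1
    · rw [Finset.sum_comm]
      refine Finset.sum_congr rfl fun j _ => ?_
      push_cast
      rw [Finset.sum_mul]
    · push_cast
      rw [Finset.sum_mul]
  refine ⟨a₀ - d, fun k l => ∑ i, C k i * D * M₀ i l,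
    fun k j => ∑ i, (C k i : ℚ) * D * c i (Fin.castAdd d j), fun k => ?_, fun k => ?_, ?_, ?_⟩
  · rw [hsum k]
    exact sum_mem fun i _ => mul_mem (mul_mem (intCast_mem _ _) (natCast_mem _ _)) (hMF i)
  · rw [hsum k, hform k, Complex.exp_add, Complex.exp_int_mul_two_pi_mul_I, mul_one]
  · rw [Fintype.linearIndependent_iff]
    intro g hg
    -- a relation between the `t' i`
    have h1 : ∑ i, (((∑ k, g k * (C k i : ℚ) * D : ℚ)) : ℂ) * t' i =
        ((∑ k, g k * ((∑ i, C k i * e i : ℤ) : ℚ) : ℚ) : ℂ) * kap := by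
      have h2 : ∑ i, (((∑ k, g k * (C k i : ℚ) * D : ℚ)) : ℂ) * t' i =
          ∑ k, (g k : ℂ) * ∑ i, ((C k i : ℂ) * D) * t' i := by
        push_cast
        simp only [Finset.sum_mul, Finset.mul_sum]
        rw [Finset.sum_comm]
        exact Finset.sum_congr rfl fun i _ => Finset.sum_congr rfl fun l _ => by ring
      rw [h2]
      simp only [hform, mul_add, Finset.sum_add_distrib]
      have h3 : ∑ k, (g k : ℂ) * (∑ j, (((∑ i, (C k i : ℚ) * D * c i (Fin.castAdd d j) : ℚ)) : ℂ) *
          u j) = 0 := by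
        have h4 : ∑ k, (g k : ℂ) * (∑ j, (((∑ i, (C k i : ℚ) * D * c i (Fin.castAdd d j) : ℚ)) : ℂ) *
            u j) = ∑ j, (∑ k, (g k : ℂ) *
              (((∑ i, (C k i : ℚ) * D * c i (Fin.castAdd d j) : ℚ)) : ℂ)) * u j := by
          simp only [Finset.mul_sum]
          rw [Finset.sum_comm]
          refine Finset.sum_congr rfl fun j _ => ?_
          rw [Finset.sum_mul]
          exact Finset.sum_congr rfl fun k _ => by ring
        rw [h4]
        refine Finset.sum_eq_zero fun j _ => ?_
        have h5 := congrFun hg j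
        simp only [Finset.sum_apply, Pi.smul_apply, smul_eq_mul, Pi.zero_apply] at h5
        have h6 := congrArg (fun r : ℚ => (r : ℂ)) h5
        simp only [Rat.cast_sum, Rat.cast_mul, Rat.cast_zero] at h6
        have h7 : ∑ k, (g k : ℂ) *
              (((∑ i, (C k i : ℚ) * D * c i (Fin.castAdd d j) : ℚ)) : ℂ) = 0 := by
          push_cast
          exact_mod_cast h6
        rw [h7, zero_mul]
      rw [h3, zero_add]
      push_cast
      rw [Finset.sum_mul]
      refine Finset.sum_congr rfl fun k _ => ?_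
      unfold kap
      ring
    have h8 := hMind _ _ h1
    rw [Fintype.linearIndependent_iff] at hC
    refine hC g ?_
    funext i
    have h9 := congrFun h8 i
    simp only [Pi.zero_apply] at h9
    simp only [Finset.sum_apply, Pi.smul_apply, smul_eq_mul, Pi.zero_apply]
    rw [← Finset.sum_mul] at h9
    exact (mul_eq_zero.1 h9).resolve_right (by exact_mod_cast hD)
  · omega

end Pool.Agent.Work.MP_8da9ea_nt.EC
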