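import Pool.Agent.Work.MP_8da9ea_nt.EC.I_EtaMul
import Pool.Agent.Work.MP_8da9ea_nt.EC.I_Pres
import Pool.Agent.Work.MP_8da9ea_nt.EC.I_Jac
import Pool.Agent.Work.MP_8da9ea_nt.EC.I_HomSurj
import Pool.Agent.Work.MP_8da9ea_nt.EC.I_Ind
import Pool.Agent.Work.MP_8da9ea_nt.EC.I_TPart
import Pool.Agent.Work.MP_8da9ea_nt.EC.I_PPart
import Pool.Agent.Work.MP_8da9ea_nt.EC.I_Memb
import Pool.Agent.Work.MP_8da9ea_nt.EC.I_PerAlg
import Pool.Agent.Work.MP_8da9ea_nt.EC.I_Tower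
import Pool.Agent.Work.MP_8da9ea_nt.EC.I_RelEC
import Pool.Agent.Work.MP_8da9ea_nt.EC.I_TSel
import Pool.Agent.Work.MP_8da9ea_nt.EC.I_PSel
import Pool.Agent.Work.MP_8da9ea_nt.EC.I_OnLD
import Pool.Agent.Work.MP_8da9ea_nt.EC.I_AlgLD
import Pool.Agent.Work.MP_8da9ea_nt.EC.I_GenLD
import Pool.Agent.Work.MP_8da9ea_nt.EC.Fin2
import Pool.Agent.Work.MP_8da9ea_nt.EB.Asm

/-!
# Points of a closed field on lines: assembly
-/

set_option autoImplicit false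

namespace Pool.Agent.Work.MP_8da9ea_nt.EC

open Pool.Agent.Work.MP_8da9ea_nt.EB Pool.Agent.Work.MP_327059_nt.GL Pool.Agent.Work.MP_8da9ea_nt.S

theorem x_EtaAdd : S_EtaAdd := EtaAdd_pf LamAdd_pf

theorem x_EtaMul : S_EtaMul := EtaMul_pf LamAdd_pf x_LamMul x_EtaAdd x_Kf

theorem x_Ind : S_Ind :=
  Ind_pf LamAdd_pf x_LamMul x_EtaAdd x_Kf x_EtaMul Pres_pf Jac_pf HomSurj_pf

theorem x_TSel : S_TSel := TSel_pf TPart_pf

theorem x_PSel : S_PSel := PSel_pf PPart_pf x_Kf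

theorem x_RelEC : S_RelEC := RelEC_pf x_RelAll x_RelPol

theorem x_OnLD : S_OnLD := OnLD_pf x_Ind x_TSel x_PSel Memb_pf PerAlg_pf Tower_pf

theorem x_AlgLD : S_AlgLD := AlgLD_pf x_MainS x_EllRank TorRank_pf Norm_pf x_RelEC x_OnLD

theorem x_GenLD : S_GenLD := GenLD_pf x_TSel

end Pool.Agent.Work.MP_8da9ea_nt.EC
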