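import Pool.Agent.Work.MP_8da9ea_nt.EB.StmtsG
import Pool.Agent.Work.MP_8da9ea_nt.CD.Asm
import Pool.Agent.Work.MP_8da9ea_nt.TG.Combo

/-!
# Points of a closed field on lines: definitions
-/

set_option autoImplicit false

namespace Pool.Agent.Work.MP_8da9ea_nt.EC

open Pool.Agent.Work.MP_8da9ea_nt.EB Pool.Agent.Work.MP_327059_nt.GL Pool.Agent.Work.MP_8da9ea_nt.S

/-- The elements of `F` in the span of the `p_j / ω₁` over the field `k` of endomorphisms are in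
`k v_1 / ω₁ + ... + k v_r / ω₁ + ℚ + ℚ ω₂ / ω₁`. -/
def InnE (F : IntermediateField ℚ ℂ) (ω₁ ω₂ : ℂ) {n r : ℕ} (p : Fin n → ℂ) (v : Fin r → ℂ) : Prop :=
  ∀ g : Fin n → ℂ, (∀ j, IsE (ω₂ / ω₁) (g j)) → ∑ j, g j * (p j / ω₁) ∈ F →
    ∃ (h : Fin r → ℂ) (q q' : ℚ), (∀ i, IsE (ω₂ / ω₁) (h i)) ∧
      ∑ j, g j * (p j / ω₁) = ∑ i, h i * (v i / ω₁) + q + q' * (ω₂ / ω₁)

/-- The family `e^{u_i}`, `Z(v_i)`, `X(v_i)`. -/
noncomputable def fm (τ μ : ℂ) {r r' : ℕ} (u : Fin r → ℂ) (v : Fin r' → ℂ) :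
    Fin r ⊕ Fin r' × Bool → ℂ :=
  fun o => Sum.elim (fun i => Complex.exp (u i))
    (fun q : Fin r' × Bool => if q.2 then ze τ μ (v q.1) else xe τ μ (v q.1)) o

/-- `K` contains the period, the quasi-periods and `2πi`. -/
structure PerK (τ μ : ℂ) (K : IntermediateField ℚ ℂ) : Prop where
  mu : μ ∈ K
  tau : τ ∈ K
  et : et τ ∈ K
  kap : kap ∈ K

/-- `y` is independent over `S` for the closure operator. -/
def ClInd (S : Set ℂ) {ρ : ℕ} (y : Fin ρ → ℂ) : Prop := ∀ i, y i ∉ CD.cl (S ∪ y '' {j | j < i})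

end Pool.Agent.Work.MP_8da9ea_nt.EC
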