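import Pool.Agent.Work.MP_8da9ea_nt.EC.Asm
import Pool.Agent.Work.MP_8da9ea_nt.CH.Asm

/-!
# Points of a closed field on lines: the end
-/

set_option autoImplicit false

namespace Pool.Agent.Work.MP_8da9ea_nt.EC

open Pool.Agent.Work.MP_8da9ea_nt.EB Pool.Agent.Work.MP_327059_nt.GL Pool.Agent.Work.MP_8da9ea_nt.S

/-- Chudnovsky's theorem for the lattice `ℤ + ℤ ω₂ / ω₁` -/
theorem per_two (ω₁ ω₂ : ℂ) (him : (ω₂ / ω₁).im ≠ 0) (hj : IsAlgebraic ℚ (jInv ω₁ ω₂)) :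
    HasTrdeg (bigField 1 (ω₂ / ω₁) (![] : Fin 0 → ℂ) (![] : Fin 0 → ℂ)) 2 := by
  have h1 : ω₁ ≠ 0 := by
    rintro rfl
    simp at him
  refine CH.x_Period 1 (ω₂ / ω₁) ?_ ?_ 0 0 _ _
  · rw [LinearIndependent.pair_iff]
    intro s t h
    have h2 := congrArg Complex.im h
    have h3 := congrArg Complex.re h
    simp only [Complex.add_im, Complex.smul_im, Complex.one_im, smul_eq_mul, mul_zero, zero_add,
      Complex.zero_im] at h2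
    have ht : t = 0 := (mul_eq_zero.1 h2).resolve_right him
    subst ht
    simp at h3
    exact ⟨h3, rfl⟩
  · rw [← jInv_smul h1, mul_div_cancel₀ _ h1]
    exact hj

/-- **The final theorem.** -/
theorem main3 :
    ∃ cl : Set ℂ → IntermediateField ℚ ℂ,
      (∀ S : Set ℂ, S ⊆ cl S) ∧ (∀ S T : Set ℂ, S ⊆ cl T → cl S ≤ cl T) ∧
      (∀ S x, x ∈ cl S → ∃ T : Finset ℂ, (T : Set ℂ) ⊆ S ∧ x ∈ cl (T : Set ℂ)) ∧
      (∀ S, S.Countable → (cl S : Set ℂ).Countable) ∧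
      (∀ S x, IsAlgebraic (cl S) x → x ∈ cl S) ∧
      (∀ S, ∀ ω₁ ∈ cl S, ∀ ω₂ ∈ cl S, ∀ (s n : ℕ) (t : Fin s → ℂ) (p : Fin n → ℂ),
        (∀ l, t l ∈ cl S) → (∀ i, p i ∈ cl S) → bigField ω₁ ω₂ t p ≤ cl S) ∧
      (∀ S ω₁ ω₂, (ω₂ / ω₁).im ≠ 0 → (jInv ω₁ ω₂ ∈ cl S ↔ ω₂ / ω₁ ∈ cl S)) ∧
      ∀ Q m κ : ℕ, ∃ n₀ : ℕ, ∀ b : Fin m → ℂ, FT Q b → LinearIndependent ℚ b → TrLe κ b →
        ∀ n : ℕ, n₀ ≤ n → ∀ x : Fin n → ℂ, LinearIndependent ℚ x →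
        (∃ P : MvPolynomial (Fin n) ℂ, P ≠ 0 ∧ P.totalDegree ≤ m ∧
          ∀ w : Fin n → ℚ, MvPolynomial.eval (fun i => (w i : ℂ)) P ≠ 0 →
          ∀ z : ℂ, z = ∑ i, (w i : ℂ) * x i →
          ∀ r : ℕ, r + κ + 2 ≤ m →
            ∃ P' : MvPolynomial (Fin r × Fin m) ℂ, P' ≠ 0 ∧ P'.IsHomogeneous r ∧
            ∀ c : Fin r → Fin m → ℚ, MvPolynomial.eval (fun q => (c q.1 q.2 : ℂ)) P' ≠ 0 →
            ∀ u : Fin r → ℂ, (∀ i, u i = (∑ j, (c i j : ℂ) * b j) * z) →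
            ∀ S : Set ℂ, S.Countable →
            ∀ ω₁ ω₂ : ℂ, (ω₂ / ω₁).im ≠ 0 → jInv ω₁ ω₂ ∉ cl S →
            ∀ (s k : ℕ) (t : Fin s → ℂ) (p : Fin k → ℂ) (d : ℕ) (t₀ : Fin d → ℂ),
              InnT (cl S) t (Fin.append u t₀) →
            ∀ (ρ : ℕ) (y : Fin ρ → ℂ), (∀ i, IsAlgebraic (bigField ω₁ ω₂ t p) (y i)) →
              (∀ i, y i ∉ cl (S ∪ y '' {j | j < i})) →
              (d ≤ max 1 ρ → Q1 ω₁ ω₂ t p) ∧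
              ∀ N : ℕ, N + d ≤ tDim t + 4 + kDim2 ω₁ ω₂ p + max 1 ρ →
                HasTrdeg (bigField ω₁ ω₂ t p) N) ∧
        ∀ ω₁ ω₂ : ℂ, LatOK ω₁ ω₂ b →
          ∃ P : MvPolynomial (Fin n) ℂ, P ≠ 0 ∧ P.totalDegree ≤ 2 * m ∧
          ∀ w : Fin n → ℚ, MvPolynomial.eval (fun i => (w i : ℂ)) P ≠ 0 →
          ∀ z : ℂ, z = ∑ i, (w i : ℂ) * x i →
          ∀ r r' : ℕ, r + 2 * r' + κ + 6 ≤ m →
            ∃ P' : MvPolynomial (Fin r × Fin m ⊕ Fin r' × Fin m) ℂ, P' ≠ 0 ∧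
            P'.IsHomogeneous (r + 2 * r') ∧
            ∀ (c : Fin r → Fin m → ℚ) (c' : Fin r' → Fin m → ℚ),
              MvPolynomial.eval (Sum.elim (fun q => (c q.1 q.2 : ℂ))
                (fun q => (c' q.1 q.2 : ℂ))) P' ≠ 0 →
            ∀ (u : Fin r → ℂ) (v : Fin r' → ℂ), (∀ i, u i = (∑ j, (c i j : ℂ) * b j) * z) →
              (∀ i, v i = (∑ j, (c' i j : ℂ) * b j) * z) →
            ∀ S : Set ℂ, S.Countable → ∀ (s k : ℕ) (t : Fin s → ℂ) (p : Fin k → ℂ)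
              (d d' : ℕ) (t₀ : Fin d → ℂ) (p₀ : Fin d' → ℂ),
              InnT (cl S) t (Fin.append u t₀) → InnK (cl S) ω₁ ω₂ p (Fin.append v p₀) →
            ∀ (ρ : ℕ) (y : Fin ρ → ℂ), (∀ i, IsAlgebraic (bigField ω₁ ω₂ t p) (y i)) →
              (∀ i, y i ∉ cl (S ∪ y '' {j | j < i})) →
            ∀ R : ℕ, R = max ρ (min 1 (modDim (cl S) t + modDim2 (cl S) ω₁ ω₂ p)) →
              ((open Classical in if IsCM ω₁ ω₂ then 0 else 2) + d + 2 * d' ≤ R →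
                Q1 ω₁ ω₂ t p) ∧
              ∀ N : ℕ, N + d + 2 * d' ≤ tDim t + 2 + kDim2 ω₁ ω₂ p + R →
                HasTrdeg (bigField ω₁ ω₂ t p) N := by
  obtain ⟨cl, h1, h2, h3, h4, h5, h6, h7, h⟩ := main2 x_MainS x_GenLD x_AlgLD 2 per_two
  refine ⟨cl, h1, h2, h3, h4, h5, h6, h7, fun Q m κ => ?_⟩
  obtain ⟨n₀, hn₀⟩ := h Q m κ
  refine ⟨n₀, fun b hFT hb hκ n hn x hx => ⟨(hn₀ b hFT hb hκ n hn x hx).1, ?_⟩⟩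
  intro ω₁ ω₂ hL
  obtain ⟨P, hP, hPd, hw⟩ := (hn₀ b hFT hb hκ n hn x hx).2 ω₁ ω₂ hL
  refine ⟨P, hP, hPd, fun w hwP z hz r r' hr => ?_⟩
  obtain ⟨P', hP', hP'h, hc⟩ := hw w hwP z hz r r' hr
  refine ⟨P', hP', hP'h, fun c c' hcP u v hu hv S hS s k t p d d' t₀ p₀ hI hIK ρ y hy hyc R hR =>
    ?_⟩
  obtain ⟨g1, g2⟩ := hc c c' hcP u v hu hv S hS s k t p d d' t₀ p₀ hI hIK ρ y hy hyc R hR
  refine ⟨fun hle => g1 ?_, fun N hN => g2 N (by omega)⟩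
  split_ifs at hle ⊢ <;> omega

end Pool.Agent.Work.MP_8da9ea_nt.EC
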