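import Pool.Agent.Work.MP_8da9ea_nt.EC.Stmts
import Pool.Agent.Work.MP_8da9ea_nt.EB.I_LamMul
import Pool.Agent.Work.MP_8da9ea_nt.CD.Add
import Pool.Agent.Work.MP_8da9ea_nt.CD.Tor
import Pool.Agent.Work.MP_8da9ea_nt.CD.Sum
import Pool.Agent.Work.MP_8da9ea_nt.CD.Mul

/-!
# Item EtaMul: the form of the second kind and multiplication by endomorphisms
-/

set_option autoImplicit false

namespace Pool.Agent.Work.MP_8da9ea_nt.EC

open Pool.Agent.Work.MP_8da9ea_nt.EB Pool.Agent.Work.MP_327059_nt.GL Pool.Agent.Work.MP_8da9ea_nt.S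

namespace I_EtaMul

lemma etf_mem {τ μ u : ℂ} (δ : Derivation ℚ ℂ ℂ) (hu : u ∈ Lam τ) : etf τ μ δ u = 0 := by
  unfold etf
  rw [if_pos hu]

lemma etf_not {τ μ u : ℂ} (δ : Derivation ℚ ℂ ℂ) (hu : u ∉ Lam τ) :
    etf τ μ δ u = δ (ze τ μ u) + xe τ μ u * lam τ μ δ u := by
  unfold etf
  rw [if_neg hu]

lemma etf_int (h3 : S_EtaAdd) {τ μ : ℂ} (hN : Nrm τ μ) (δ : Derivation ℚ ℂ ℂ)
    (h1 : δ (μ * et τ) = 0) (h2 : δ (μ * (τ * et τ - kap)) = 0) (n : ℤ) (u : ℂ) :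
    etf τ μ δ ((n : ℂ) * u) = (n : ℂ) * etf τ μ δ u := by
  have h := map_zsmul (AddMonoidHom.mk' (etf τ μ δ) (h3 τ μ hN δ h1 h2)) n u
  simpa [zsmul_eq_mul] using h

lemma etf_tor (h3 : S_EtaAdd) {τ μ : ℂ} (hN : Nrm τ μ) (δ : Derivation ℚ ℂ ℂ)
    (h1 : δ (μ * et τ) = 0) (h2 : δ (μ * (τ * et τ - kap)) = 0) {n : ℕ} {w : ℂ}
    (hn : 0 < n) (hw : (n : ℂ) * w ∈ Lam τ) : etf τ μ δ w = 0 := by
  have h := etf_int h3 hN δ h1 h2 (n : ℤ) w
  rw [Int.cast_natCast, etf_mem δ hw] at h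
  rcases mul_eq_zero.1 h.symm with h5 | h5
  · exact absurd h5 (by exact_mod_cast hn.ne')
  · exact h5

lemma mem_of_alg {K : IntermediateField ℚ ℂ} {x : ℂ} (hx : IsAlgebraic ℚ x) : x ∈ CD.acl K :=
  CD.mem_acl.2 (hx.extendScalars (algebraMap ℚ K).injective)

/-- The base field. -/
lemma base {τ μ : ℂ} (hN : Nrm τ μ) {K : IntermediateField ℚ ℂ} (hK : PerK τ μ K) :
    CD.Base τ (CD.acl K) where
  ac := CD.AC_acl K
  tau := CD.le_acl K hK.tau
  et := CD.le_acl K hK.et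
  kap := CD.le_acl K hK.kap
  g2 := by
    have h1 : μ ∈ CD.acl K := CD.le_acl K hK.mu
    have h2 : gg2 τ = (μ ^ 4)⁻¹ * (μ ^ 4 * gg2 τ) := by
      rw [inv_mul_cancel_left₀ (pow_ne_zero 4 hN.mu)]
    rw [h2]
    exact mul_mem (inv_mem (pow_mem h1 4)) (mem_of_alg hN.g2)
  g3 := by
    have h1 : μ ∈ CD.acl K := CD.le_acl K hK.mu
    have h2 : gg3 τ = (μ ^ 6)⁻¹ * (μ ^ 6 * gg3 τ) := by
      rw [inv_mul_cancel_left₀ (pow_ne_zero 6 hN.mu)]
    rw [h2]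
    exact mul_mem (inv_mem (pow_mem h1 6)) (mem_of_alg hN.g3)

/-- A small rational multiple. -/
lemma small {τ g : ℂ} (hτ : 0 < τ.im) (hg : CD.IsInt τ g) (hg0 : g ≠ 0) :
    ∃ (n : ℕ) (z : ℂ), 0 < n ∧ z ≠ 0 ∧ (n : ℂ) * z ∈ Lam τ ∧ g * z ∉ Lam τ ∧
      g * (2 * z) ∉ Lam τ := by
  have hg2 : CD.IsInt τ (2 * g) := by
    have h := CD.Mul_int_mem (τ := τ) 2 hg.1
    have h' := CD.Mul_int_mem (τ := τ) 2 hg.2
    push_cast at h h'
    exact ⟨h, by rw [mul_assoc]; exact h'⟩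
  have h20 : (2 : ℂ) * g ≠ 0 := mul_ne_zero two_ne_zero hg0
  obtain ⟨n, z, hn, hnz, hgz⟩ := CD.Mul_exists_tor hτ hg2.1 h20
  refine ⟨n, z, hn, ?_, ?_, ?_, ?_⟩
  · rintro rfl
    rw [mul_zero] at hnz
    exact zero_ne_one hnz
  · rw [hnz]
    exact CD.Mul_one_mem
  · intro h
    refine hgz ?_
    have h5 := CD.Mul_int_mem (τ := τ) 2 h
    push_cast at h5
    rw [mul_assoc]
    exact h5
  · intro h
    refine hgz ?_
    have e : 2 * g * z = g * (2 * z) := by ring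
    rw [e]
    exact h

/-- Integral endomorphisms. -/
lemma end_case (hAdd : S_LamAdd) (hMul : S_LamMul) (hEta : S_EtaAdd) (hKf : S_Kf) {τ μ : ℂ}
    (hN : Nrm τ μ) {g : ℂ} (hg : CD.IsInt τ g) : ∃ a s : ℂ,
    ∀ K : IntermediateField ℚ ℂ, PerK τ μ K → ∀ δ ∈ DK K, ∀ u : ℂ, δ u = 0 →
      etf τ μ δ (g * u) = a * etf τ μ δ u + s * lam τ μ δ u := by
  by_cases hg0 : g = 0
  · refine ⟨0, 0, fun K _ δ _ u _ => ?_⟩
    rw [hg0, zero_mul, zero_mul, zero_mul, add_zero]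
    exact etf_mem δ CD.Mul_zero_mem
  have hgE : IsE τ g := ⟨1, one_ne_zero, by simpa using hg.1, by simpa using hg.2⟩
  have hga : IsAlgebraic ℚ g := (hKf τ hN.im).1 g hgE
  obtain ⟨M, hM, hMz⟩ := CD.Sum_norm hN.im hg hg0
  obtain ⟨W, c, c₁, c₀, hW, hz⟩ := CD.prf_Sum τ hN.im g hg hg0
  refine ⟨W.card / g, μ ^ 2 * c / g, fun K hK δ hδ u hu => ?_⟩
  have hkill : ∀ x ∈ CD.acl K, δ x = 0 := fun x hx =>
    Pool.Agent.ED.der_zero_alg K δ hδ x (CD.mem_acl.1 hx)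
  have hB := base hN hK
  have hμL : μ ∈ CD.acl K := CD.le_acl K hK.mu
  have hgL : g ∈ CD.acl K := mem_of_alg hga
  have e1 : δ (μ * et τ) = 0 := hkill _ (mul_mem hμL hB.et)
  have e2 : δ (μ * (τ * et τ - kap)) = 0 :=
    hkill _ (mul_mem hμL (sub_mem (mul_mem hB.tau hB.et) hB.kap))
  -- no poles
  have hnot : ∀ z : ℂ, g * z ∉ Lam τ → ∀ w ∈ W, z + w ∉ Lam τ := by
    intro z hgz w hw h
    refine hgz ?_
    have h1 := CD.Sum_sub (CD.Sum_mul hg h) (hW w hw).1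
    have e : g * (z + w) - g * w = g * z := by ring
    rwa [e] at h1
  -- the values at torsion points
  have htor : ∀ (n : ℕ) (z : ℂ), 0 < n → (n : ℂ) * z ∈ Lam τ → z ∉ Lam τ →
      wp 1 τ z ∈ CD.acl K ∧ zt 1 τ z ∈ CD.acl K := by
    intro n z hn h1 h2
    rcases CD.prf_Tor CD.prf_Add τ hN.im (CD.acl K) hB n z hn h1 with h | h
    · exact absurd h h2
    · exact h
  have hval : ∀ (n : ℕ) (z : ℂ), 0 < n → (n : ℂ) * z ∈ Lam τ → g * z ∉ Lam τ →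
      c ∈ CD.acl K ∧ c₁ * z + c₀ ∈ CD.acl K := by
    intro n z hn h1 h2
    have h3 := hz z h2
    have hgz : (n : ℂ) * (g * z) ∈ Lam τ := by
      have e : (n : ℂ) * (g * z) = g * (n * z) := by ring
      rw [e]
      exact CD.Sum_mul hg h1
    have h4 := htor n (g * z) hn hgz h2
    have h5 : ∀ w ∈ W, wp 1 τ (z + w) ∈ CD.acl K ∧ zt 1 τ (z + w) ∈ CD.acl K := by
      intro w hw
      obtain ⟨n', hn', hnw'⟩ := (hW w hw).2
      refine htor (n * n') (z + w) (Nat.mul_pos hn hn') ?_ (hnot z h2 w hw)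
      have e : ((n * n' : ℕ) : ℂ) * (z + w) = (n' : ℤ) * ((n : ℂ) * z) + (n : ℤ) * ((n' : ℂ) * w) := by
        push_cast
        ring
      rw [e]
      exact CD.Sum_add (CD.Sum_int _ h1) (CD.Sum_int _ hnw')
    constructor
    · have e : c = g ^ 2 * wp 1 τ (g * z) - ∑ w ∈ W, wp 1 τ (z + w) := by
        linear_combination -h3.1
      rw [e]
      exact sub_mem (mul_mem (pow_mem hgL 2) h4.1) (sum_mem fun w hw => (h5 w hw).1)
    · have e : c₁ * z + c₀ = g * zt 1 τ (g * z) - ∑ w ∈ W, zt 1 τ (z + w) := by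
        linear_combination -h3.2
      rw [e]
      exact sub_mem (mul_mem hgL h4.2) (sum_mem fun w hw => (h5 w hw).2)
  obtain ⟨n, z, hn, hz0, hnz, hgz, hg2z⟩ := small hN.im hg hg0
  have hn2z : (n : ℂ) * (2 * z) ∈ Lam τ := by
    have h := CD.Sum_int (τ := τ) 2 hnz
    have e : (n : ℂ) * (2 * z) = ((2 : ℤ) : ℂ) * ((n : ℂ) * z) := by
      push_cast
      ring
    rw [e]
    exact h
  have v1 := hval n z hn hnz hgz
  have v2 := hval n (2 * z) hn hn2z hg2z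
  have hcL : c ∈ CD.acl K := v1.1
  have hc0L : c₀ ∈ CD.acl K := by
    have e : c₀ = (c₁ * z + c₀) + (c₁ * z + c₀) - (c₁ * (2 * z) + c₀) := by ring
    rw [e]
    exact sub_mem (add_mem v1.2 v1.2) v2.2
  have hc1z : c₁ * z ∈ CD.acl K := by
    have e : c₁ * z = (c₁ * z + c₀) - c₀ := by ring
    rw [e]
    exact sub_mem v1.2 hc0L
  have hc1L : c₁ ∈ CD.acl K := by
    have hzL : z ∈ CD.acl K := by
      have hl : (n : ℂ) * z ∈ CD.acl K := CD.Lam_sub hB.tau hnz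
      have hn0 : (n : ℂ) ≠ 0 := by exact_mod_cast hn.ne'
      have e : z = (n : ℂ)⁻¹ * ((n : ℂ) * z) := by
        rw [inv_mul_cancel_left₀ hn0]
      rw [e]
      exact mul_mem (inv_mem (natCast_mem _ n)) hl
    have e : c₁ = c₁ * z * z⁻¹ := by
      rw [mul_inv_cancel_right₀ hz0]
    rw [e]
    exact mul_mem hc1z (inv_mem hzL)
  by_cases hgu : g * u ∈ Lam τ
  · have hMu := hMz u hgu
    rw [etf_mem δ hgu, etf_tor hEta hN δ e1 e2 hM hMu, I_LamMul.lam_tor hAdd hN δ hM hMu, mul_zero,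
      mul_zero, add_zero]
  have hlw : ∀ w ∈ W, lam τ μ δ (u + w) = lam τ μ δ u := by
    intro w hw
    obtain ⟨n', hn', hnw'⟩ := (hW w hw).2
    rw [hAdd τ μ hN δ u w, I_LamMul.lam_tor hAdd hN δ hn' hnw', add_zero]
  have hew : ∀ w ∈ W, etf τ μ δ (u + w) = etf τ μ δ u := by
    intro w hw
    obtain ⟨n', hn', hnw'⟩ := (hW w hw).2
    rw [hEta τ μ hN δ e1 e2 u w, etf_tor hEta hN δ e1 e2 hn' hnw', add_zero]
  have hlg : lam τ μ δ (g * u) = g * lam τ μ δ u := hMul τ μ hN δ g u hgE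
  -- the normalised formulas
  have hx : g ^ 2 * xe τ μ (g * u) = ∑ w ∈ W, xe τ μ (u + w) + μ ^ 2 * c := by
    have h1 := (hz u hgu).1
    unfold xe
    rw [← Finset.mul_sum]
    linear_combination μ ^ 2 * h1
  have hzz : g * ze τ μ (g * u) = ∑ w ∈ W, ze τ μ (u + w) + (μ * c₁ * u + μ * c₀) := by
    have h1 := (hz u hgu).2
    unfold ze
    rw [← Finset.mul_sum]
    linear_combination μ * h1
  have hd : g * δ (ze τ μ (g * u)) = ∑ w ∈ W, δ (ze τ μ (u + w)) := by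
    have h1 := congrArg δ hzz
    have h2 : δ (μ * c₁ * u + μ * c₀) = 0 := by
      rw [map_add, Derivation.leibniz, hu, hkill _ (mul_mem hμL hc1L), hkill _ (mul_mem hμL hc0L),
        smul_zero, smul_zero, add_zero, add_zero]
    rw [Derivation.leibniz, hkill g hgL, smul_zero, add_zero, smul_eq_mul, map_add, h2, add_zero,
      map_sum] at h1
    exact h1
  have hs : ∑ w ∈ W, δ (ze τ μ (u + w)) =
      W.card * etf τ μ δ u - (∑ w ∈ W, xe τ μ (u + w)) * lam τ μ δ u := by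
    have h1 : ∀ w ∈ W, δ (ze τ μ (u + w)) = etf τ μ δ u - xe τ μ (u + w) * lam τ μ δ u := by
      intro w hw
      have h2 := etf_not (μ := μ) δ (hnot u hgu w hw)
      rw [hew w hw, hlw w hw] at h2
      linear_combination -h2
    rw [Finset.sum_congr rfl h1, Finset.sum_sub_distrib, Finset.sum_const, nsmul_eq_mul,
      ← Finset.sum_mul]
  have hf := etf_not (μ := μ) δ hgu
  rw [hlg] at hf
  have key : g * etf τ μ δ (g * u) = W.card * etf τ μ δ u + μ ^ 2 * c * lam τ μ δ u := by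
    rw [hf]
    have h5 := hd
    rw [hs] at h5
    linear_combination h5 + lam τ μ δ u * hx
  apply mul_left_cancel₀ hg0
  rw [key]
  field_simp

end I_EtaMul

/-- E1: `η` and multiplication by endomorphisms. -/
theorem EtaMul_pf (h1 : S_LamAdd) (h2 : S_LamMul) (h3 : S_EtaAdd) (h4 : S_Kf) : S_EtaMul := by
  intro τ μ hN g hg
  obtain ⟨n, hn, hn1, hn2⟩ := hg
  have hint : CD.IsInt τ ((n : ℂ) * g) := ⟨hn1, hn2⟩
  obtain ⟨a, s, h⟩ := I_EtaMul.end_case h1 h2 h3 h4 hN hint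
  have hn0 : (n : ℂ) ≠ 0 := by exact_mod_cast hn
  refine ⟨a / n, s / n, fun K hK δ hδ u hu => ?_⟩
  have hkill : ∀ x ∈ CD.acl K, δ x = 0 := fun x hx =>
    Pool.Agent.ED.der_zero_alg K δ hδ x (CD.mem_acl.1 hx)
  have hB := I_EtaMul.base hN hK
  have hμL : μ ∈ CD.acl K := CD.le_acl K hK.mu
  have e1 : δ (μ * et τ) = 0 := hkill _ (mul_mem hμL hB.et)
  have e2 : δ (μ * (τ * et τ - kap)) = 0 :=
    hkill _ (mul_mem hμL (sub_mem (mul_mem hB.tau hB.et) hB.kap))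
  have h5 := h K hK δ hδ u hu
  rw [mul_assoc, I_EtaMul.etf_int h3 hN δ e1 e2 n (g * u)] at h5
  apply mul_left_cancel₀ hn0
  rw [h5]
  field_simp

end Pool.Agent.Work.MP_8da9ea_nt.EC
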