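import Pool.Agent.Work.MP_8da9ea_nt.EC.Stmts

/-!
# Item GenL: generic curves
-/

set_option autoImplicit false

namespace Pool.Agent.Work.MP_8da9ea_nt.EC

open Pool.Agent.Work.MP_8da9ea_nt.EB Pool.Agent.Work.MP_327059_nt.GL Pool.Agent.Work.MP_8da9ea_nt.S
  Pool.Agent.Work.MP_8da9ea_nt.TG

theorem GenL_pf : S_GenL := by
  intro m κ b z hb hκ hSch
  refine ⟨?_, ?_⟩
  · intro halg F hF ω₁ ω₂ him hj s k t p ht
    refine hF ω₁ ω₂ him hj s k t p fun l t' ht' => ?_
    refine sch_expField b z hSch halg hb t' fun i => ?_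
    obtain ⟨a, q, haq⟩ := span_form _ _ (ht _ (ht' i).2 (ht' i).1)
    refine ⟨a, q, ?_⟩
    rw [haq, Finset.sum_mul]
    congr 1
    exact Finset.sum_congr rfl fun j _ => by ring
  · intro r hm
    obtain ⟨P', hP', hP'h, hP'c⟩ := rel_indep b z hSch κ hκ r 1 (by omega)
      (IntermediateField.adjoin ℚ {2 * (Real.pi : ℂ) * Complex.I})
      (fun _ => 2 * (Real.pi : ℂ) * Complex.I) (by
        intro y hy
        have h1 : Set.range (fun _ : Fin 1 => 2 * (Real.pi : ℂ) * Complex.I) =
            {2 * (Real.pi : ℂ) * Complex.I} := Set.range_const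
        rw [h1]
        exact isAlgebraic_algebraMap (⟨y, hy⟩ :
          IntermediateField.adjoin ℚ {2 * (Real.pi : ℂ) * Complex.I}))
    refine ⟨P', hP', hP'h, fun c hc u hu F hF ω₁ ω₂ him hj s k t p ht => ?_⟩
    have h1 : AlgebraicIndependent (IntermediateField.adjoin ℚ {2 * (Real.pi : ℂ) * Complex.I})
        (fun i => Complex.exp (u i)) := by
      have h2 := hP'c c hc
      simp only [← hu] at h2
      exact h2
    refine hF ω₁ ω₂ him hj s k t p fun l t' ht' => ?_
    exact (sch_comb u h1 t' fun i => span_form _ _ (ht _ (ht' i).2 (ht' i).1)).mono le_rfl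
        (Nat.le_succ _)

end Pool.Agent.Work.MP_8da9ea_nt.EC
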