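import Pool.Agent.Work.MP_8da9ea_nt.EC.Stmts
import Pool.Agent.Work.MP_8da9ea_nt.CD.End

/-!
# Elliptic points of a closed field: the lower bound for one lattice
-/

set_option autoImplicit false

namespace Pool.Agent.Work.MP_8da9ea_nt.EC

open Pool.Agent.Work.MP_8da9ea_nt.EB Pool.Agent.Work.MP_327059_nt.GL Pool.Agent.Work.MP_8da9ea_nt.S

namespace I_OnL

/-- An integral endomorphism is an endomorphism. -/
lemma isE_of_isI {τ g : ℂ} (h : IsI τ g) : IsE τ g := by
  refine ⟨1, one_ne_zero, ?_, ?_⟩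
  · simpa using h.1
  · simpa using h.2

/-- Endomorphisms preserve `ℚ + ℚτ`. -/
lemma isE_rat {τ c : ℂ} (h : IsE τ c) (q q' : ℚ) : ∃ a b : ℚ, c * (q + q' * τ) = a + b * τ := by
  obtain ⟨N, hN, h1, h2⟩ := h
  obtain ⟨m, n, h3⟩ := mem_Lam.1 h1
  obtain ⟨m', n', h4⟩ := mem_Lam.1 h2
  have hN' : (N : ℂ) ≠ 0 := by exact_mod_cast hN
  refine ⟨(q * m + q' * m') / N, (q * n + q' * n') / N, ?_⟩
  push_cast
  have e1 : (N : ℂ) * (c * (q + q' * τ)) = (q * m + q' * m') + (q * n + q' * n') * τ := by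
    linear_combination (q : ℂ) * h3 + (q' : ℂ) * h4
  have e2 : (N : ℂ) * ((q * m + q' * m') / N + (q * n + q' * n') / N * τ) =
      (q * m + q' * m') + (q * n + q' * n') * τ := by
    field_simp
  exact mul_left_cancel₀ hN' (e1.trans e2.symm)

/-- Sums. -/
lemma sum_rat {τ : ℂ} {b : ℕ} (c : Fin b → ℂ) (hc : ∀ i, IsE τ (c i)) (ρ : Fin b → ℂ)
    (hρ : ∀ i, ∃ q q' : ℚ, ρ i = q + q' * τ) : ∃ a a' : ℚ, ∑ i, c i * ρ i = a + a' * τ := by
  choose q q' h using hρ
  choose a a' h' using fun i => isE_rat (hc i) (q i) (q' i)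
  refine ⟨∑ i, a i, ∑ i, a' i, ?_⟩
  push_cast
  rw [Finset.sum_mul, ← Finset.sum_add_distrib]
  exact Finset.sum_congr rfl fun i _ => by rw [h i, h' i]

end I_OnL

open I_OnL in
theorem OnL_pf (h1 : S_Ind) (h2 : S_TPart) (h3 : S_PPart) (h4 : S_Memb) (h5 : S_PerAlg)
    (h6 : S_Tower) : S_OnL := by
  classical
  intro S hS τ μ ω₁ hN hω hμ K hK r r' u v hvK hvL hAI s n t p ht hp ρ y hy hyi e he
  have hdiv : ω₁ * τ / ω₁ = τ := mul_div_cancel_left₀ _ hω
  have hF : CD.Closed (CD.cl S) := CD.closed_cl S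
  obtain ⟨hτF, hmem⟩ := h4 (CD.cl S) hF τ μ ω₁ hN hω hμ
  obtain ⟨hexp, hXZ, hbig⟩ := hmem s n t p
  have him : (ω₁ * τ / ω₁).im ≠ 0 := by
    rw [hdiv]
    exact hN.im.ne'
  obtain ⟨a, M, hM1, hM2, hM3⟩ := h2 (CD.cl S) hF.kap s t
  obtain ⟨b, g, hg1, hg2, hg3, hg4⟩ := h3 (CD.cl S) ω₁ (ω₁ * τ) him (by rw [hdiv]; exact hτF) n p
  rw [hdiv] at hg1 hg3
  -- the exponential part
  have hA : ∀ i, ∃ (A' : Fin r → ℚ) (q : ℚ), ∑ l, (M i l : ℂ) * t l =
      (∑ j, (A' j : ℂ) * u j) + (q : ℂ) * (2 * (Real.pi : ℂ) * Complex.I) := by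
    intro i
    refine TG.span_form u _ (ht _ ?_ (hM1 i))
    refine Submodule.sum_mem _ fun l _ => ?_
    have e1 : (M i l : ℂ) * t l = (M i l : ℚ) • t l := by
      rw [Rat.smul_def]
      push_cast
      rfl
    rw [e1]
    exact Submodule.smul_mem _ _ (Submodule.subset_span ⟨l, rfl⟩)
  choose A' q hAq using hA
  obtain ⟨D, d, hD, hd⟩ := TG.exists_den q
  -- the elliptic part
  have hG : ∀ i, ∃ (h : Fin r' → ℂ) (q q' : ℚ), (∀ l, IsE (ω₁ * τ / ω₁) (h l)) ∧
      ∑ j, g i j * (p j / ω₁) = ∑ l, h l * (v l / ω₁) + q + q' * (ω₁ * τ / ω₁) := fun i =>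
    hp (g i) (fun j => by rw [hdiv]; exact isE_of_isI (hg1 i j)) (hg2 i)
  choose G q1 q2 hG1 hG2 using hG
  rw [hdiv] at hG1 hG2
  -- independence of the rows
  have hAind : LinearIndependent ℚ (fun i j => (D : ℚ) * A' i j) := by
    rw [Fintype.linearIndependent_iff]
    intro c hc
    have e1 : ∀ j, ∑ i, c i * ((D : ℚ) * A' i j) = 0 := by
      intro j
      have := congrFun hc j
      simpa [Finset.sum_apply, Pi.smul_apply, smul_eq_mul] using this
    have e2 : ∀ j, ∑ i, (c i : ℂ) * ((D : ℂ) * A' i j) = 0 := by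
      intro j
      have := congrArg (fun x : ℚ => (x : ℂ)) (e1 j)
      push_cast at this
      exact this
    have e3 : ∑ i, ((c i * D : ℚ) : ℂ) * ∑ l, (M i l : ℂ) * t l =
        ((∑ i, c i * D * q i : ℚ) : ℂ) * kap := by
      simp only [hAq]
      push_cast
      have e4 : ∀ i, (c i : ℂ) * (D : ℂ) * (∑ j, (A' i j : ℂ) * u j +
          (q i : ℂ) * (2 * (Real.pi : ℂ) * Complex.I)) =
          (∑ j, (c i : ℂ) * ((D : ℂ) * A' i j) * u j) + (c i : ℂ) * D * q i * kap := by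
        intro i
        have : kap = 2 * (Real.pi : ℂ) * Complex.I := rfl
        rw [this, mul_add, Finset.mul_sum]
        congr 1
        · exact Finset.sum_congr rfl fun j _ => by ring
        · ring
      rw [Finset.sum_congr rfl fun i _ => e4 i, Finset.sum_add_distrib, Finset.sum_comm]
      have e5 : ∀ j, ∑ i, (c i : ℂ) * ((D : ℂ) * A' i j) * u j = 0 := by
        intro j
        rw [← Finset.sum_mul, e2 j, zero_mul]
      rw [Finset.sum_congr rfl fun j _ => e5 j, Finset.sum_const_zero, zero_add, Finset.sum_mul]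
    have e6 := hM2 (fun i => c i * D) _ e3
    intro i
    have e7 := congrFun e6 i
    have hD' : (D : ℚ) ≠ 0 := by exact_mod_cast hD
    simpa [hD'] using e7
  have hGind : ∀ c : Fin b → ℂ, (∀ i, IsE τ (c i)) → (∀ l, ∑ i, c i * G i l = 0) → c = 0 := by
    intro c hc hc0
    obtain ⟨z, z', hz⟩ := sum_rat c hc (fun i => (q1 i : ℂ) + q2 i * τ) (fun i => ⟨_, _, rfl⟩)
    refine hg3 c z z' hc ?_
    rw [← hz]
    simp only [hG2]
    have e4 : ∀ i, c i * (∑ l, G i l * (v l / ω₁) + (q1 i : ℂ) + q2 i * τ) =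
        (∑ l, c i * G i l * (v l / ω₁)) + c i * ((q1 i : ℂ) + q2 i * τ) := by
      intro i
      rw [add_assoc, mul_add, Finset.mul_sum]
      congr 1
      exact Finset.sum_congr rfl fun j _ => by ring
    rw [Finset.sum_congr rfl fun i _ => e4 i, Finset.sum_add_distrib, Finset.sum_comm]
    have e5 : ∀ l, ∑ i, c i * G i l * (v l / ω₁) = 0 := by
      intro l
      rw [← Finset.sum_mul, hc0 l, zero_mul]
    rw [Finset.sum_congr rfl fun l _ => e5 l, Finset.sum_const_zero, zero_add]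
  obtain ⟨hL, hI⟩ := h1 τ μ hN K hK r r' u (fun i => v i / ω₁) hvK hvL hAI a b
    (fun i j => (D : ℚ) * A' i j) G (fun i => (q1 i : ℂ) + q2 i * τ) hAind hG1 hGind
    (fun i => ⟨_, _, rfl⟩)
  have hpt : ∀ i, ∑ l, G i l * (v l / ω₁) + ((q1 i : ℂ) + q2 i * τ) =
      ∑ j, g i j * (p j / ω₁) := fun i => by rw [hG2 i, add_assoc]
  simp only [hpt] at hL hI
  -- membership
  have hmemf : ∀ o, fm τ μ (fun i => ∑ j, (((D : ℚ) * A' i j : ℚ) : ℂ) * u j)
      (fun i => ∑ j, g i j * (p j / ω₁)) o ∈ CD.acl (bigField ω₁ (ω₁ * τ) t p) ⊓ CD.cl S := by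
    rintro (i | ⟨i, k⟩)
    · show Complex.exp (∑ j, (((D : ℚ) * A' i j : ℚ) : ℂ) * u j) ∈ _
      have e1 : ∑ l, ((((D : ℤ) * M i l : ℤ)) : ℂ) * t l = (D : ℂ) * ∑ l, (M i l : ℂ) * t l := by
        rw [Finset.mul_sum]
        refine Finset.sum_congr rfl fun l _ => ?_
        push_cast
        ring
      have e2 := hexp (fun l => (D : ℤ) * M i l) (by
        rw [e1]
        exact mul_mem (natCast_mem _ D) (hM1 i))
      have e3 : (D : ℂ) * q i = d i := by
        have := congrArg (fun x : ℚ => (x : ℂ)) (hd i)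
        push_cast at this
        exact this
      have e4 : Complex.exp (∑ l, ((((D : ℤ) * M i l : ℤ)) : ℂ) * t l) =
          Complex.exp (∑ j, (((D : ℚ) * A' i j : ℚ) : ℂ) * u j) := by
        have e5 : (D : ℂ) * ∑ l, (M i l : ℂ) * t l =
            (∑ j, (((D : ℚ) * A' i j : ℚ) : ℂ) * u j) +
              (d i : ℂ) * (2 * (Real.pi : ℂ) * Complex.I) := by
          rw [hAq i, mul_add, Finset.mul_sum, ← e3]
          congr 1
          · refine Finset.sum_congr rfl fun l _ => ?_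
            push_cast
            ring
          · ring
        rw [e1, e5, Complex.exp_add, Complex.exp_int_mul_two_pi_mul_I, mul_one]
      rw [← e4]
      exact e2
    · have e1 := hXZ (g i) (hg1 i) (hg2 i) (hL i)
      cases k
      · show xe τ μ (∑ j, g i j * (p j / ω₁)) ∈ _
        exact e1.1
      · show ze τ μ (∑ j, g i j * (p j / ω₁)) ∈ _
        exact e1.2
  have hB := h6 K (bigField 1 τ (![] : Fin 0 → ℂ) (![] : Fin 0 → ℂ))
    (CD.acl (bigField ω₁ (ω₁ * τ) t p) ⊓ CD.cl S) (h5 τ μ hN K hK) hbig e (a + 2 * b)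
    (Fin a ⊕ Fin b × Bool) _ he (by
      simp only [Fintype.card_sum, Fintype.card_fin, Fintype.card_prod, Fintype.card_bool]
      omega) hI hmemf
  have hj : jInv ω₁ (ω₁ * τ) ∈ CD.cl S :=
    (CD.closed_jiff hF him).2 (by rw [hdiv]; exact hτF)
  have hR := CD.all_fix (t := t) (p := p) CD.prf_Lin CD.prf_Lin2 CD.prf_Add CD.end_Mul him hS hj y
    (fun i => CD.mem_acl.2 (hy i)) hyi
  have hR' := (hR.mono (CD.le_acl _) le_rfl le_rfl).hasTrdeg hB
  refine (CD.hasTrdeg_acl hR').mono le_rfl ?_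
  omega

end Pool.Agent.Work.MP_8da9ea_nt.EC
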