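import Pool.Agent.Work.MP_8da9ea_nt.EC.Stmts

/-!
# Item Tower: numbers of an algebraic extension of `K` and numbers independent over `K`
-/

set_option autoImplicit false

namespace Pool.Agent.Work.MP_8da9ea_nt.EC

open Pool.Agent.Work.MP_8da9ea_nt.EB Pool.Agent.Work.MP_327059_nt.GL Pool.Agent.Work.MP_8da9ea_nt.S

namespace I_Tower

theorem indep_acl {K : IntermediateField ℚ ℂ} {T : Type} {f : T → ℂ}
    (hf : AlgebraicIndependent K f) : AlgebraicIndependent (CD.acl K) f := by
  have h1 : AlgebraicIndependent (algebraicClosure K ℂ) f := hf.algebraicClosure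
  exact h1

end I_Tower

theorem Tower_pf : S_Tower := by
  intro K L B hLK hLB e d T _ f hL hd hf hfB
  obtain ⟨x, hx, hxi⟩ := hL
  have hf' := I_Tower.indep_acl hf
  have hs : AlgebraicIndependent ℚ (Sum.elim f x) := by
    refine hxi.sumElim_of_tower (S := CD.acl K) ?_ hf'
    rintro _ ⟨j, rfl⟩
    exact ⟨⟨x j, hLK (hx j)⟩, rfl⟩
  let g : Fin d → T := fun i => (Fintype.equivFin T).symm (Fin.castLE hd i)
  have hg : Function.Injective g :=
    (Fintype.equivFin T).symm.injective.comp (Fin.castLE_injective hd)
  let e' : Fin (e + d) → T ⊕ Fin e :=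
    fun i => Sum.elim (fun a => Sum.inr a) (fun b => Sum.inl (g b)) (finSumFinEquiv.symm i)
  have he' : Function.Injective e' := by
    intro a b hab
    apply finSumFinEquiv.symm.injective
    simp only [e'] at hab
    rcases ha : finSumFinEquiv.symm a with a' | a' <;> rcases hb : finSumFinEquiv.symm b with b' | b' <;>
      rw [ha, hb] at hab <;> simp only [Sum.elim_inl, Sum.elim_inr] at hab
    · exact congrArg Sum.inl (Sum.inr_injective hab)
    · exact absurd hab (by simp)
    · exact absurd hab (by simp)
    · exact congrArg Sum.inr (hg (Sum.inl_injective hab))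
  refine ⟨Sum.elim f x ∘ e', ?_, hs.comp _ he'⟩
  intro j
  simp only [Function.comp_apply]
  rcases e' j with i | i
  · exact hfB i
  · exact hLB (hx i)

end Pool.Agent.Work.MP_8da9ea_nt.EC
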