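import Pool.Agent.Work.MP_8da9ea_nt.EC.Defs

/-!
# Points of a closed field on lines: statements of the items
-/

set_option autoImplicit false

namespace Pool.Agent.Work.MP_8da9ea_nt.EC

open Pool.Agent.Work.MP_8da9ea_nt.EB Pool.Agent.Work.MP_327059_nt.GL Pool.Agent.Work.MP_8da9ea_nt.S

/-- E1: `η` and multiplication by endomorphisms -/
def S_EtaMul : Prop := ∀ (τ μ : ℂ), Nrm τ μ → ∀ g : ℂ, IsE τ g → ∃ a s : ℂ,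
  ∀ K : IntermediateField ℚ ℂ, PerK τ μ K → ∀ δ ∈ DK K, ∀ u : ℂ, δ u = 0 →
    etf τ μ δ (g * u) = a * etf τ μ δ u + s * lam τ μ δ u

/-- E2: derivations with given forms from algebraic independence -/
def S_Pres : Prop := ∀ (τ μ : ℂ), Nrm τ μ → ∀ K : IntermediateField ℚ ℂ, PerK τ μ K →
  ∀ (r r' : ℕ) (u : Fin r → ℂ) (v : Fin r' → ℂ), (∀ i, v i ∉ Lam τ) →
    AlgebraicIndependent K (fm τ μ u v) →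
      ∀ w : Fin r ⊕ Fin r' × Bool → ℂ, ∃ δ ∈ DK K, enE τ μ u v δ = w

/-- E3: algebraic independence from derivations with given forms -/
def S_Jac : Prop := ∀ (τ μ : ℂ), Nrm τ μ → ∀ K : IntermediateField ℚ ℂ,
  ∀ (r r' : ℕ) (u : Fin r → ℂ) (v : Fin r' → ℂ),
    (∀ w : Fin r ⊕ Fin r' × Bool → ℂ, ∃ δ ∈ DK K, enE τ μ u v δ = w) →
      (∀ i, v i ∉ Lam τ) ∧ AlgebraicIndependent K (fm τ μ u v)

/-- E4: matrices with independent rows under a homomorphism of the coefficient field -/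
def S_HomSurj : Prop := ∀ (k : IntermediateField ℚ ℂ) (φ : k →+* ℂ) (b r : ℕ)
  (G : Fin b → Fin r → k), LinearIndependent k G → ∀ α : Fin b → ℂ,
    ∃ y : Fin r → ℂ, ∀ i, ∑ l, φ (G i l) * y l = α i

/-- E5: independence of combinations -/
def S_Ind : Prop := ∀ (τ μ : ℂ), Nrm τ μ → ∀ K : IntermediateField ℚ ℂ, PerK τ μ K →
  ∀ (r r' : ℕ) (u : Fin r → ℂ) (v : Fin r' → ℂ), (∀ i, v i ∈ K) → (∀ i, v i ∉ Lam τ) →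
    AlgebraicIndependent K (fm τ μ u v) →
  ∀ (a b : ℕ) (A : Fin a → Fin r → ℚ) (G : Fin b → Fin r' → ℂ) (ρ : Fin b → ℂ),
    LinearIndependent ℚ A → (∀ i l, IsE τ (G i l)) →
    (∀ c : Fin b → ℂ, (∀ i, IsE τ (c i)) → (∀ l, ∑ i, c i * G i l = 0) → c = 0) →
    (∀ i, ∃ q q' : ℚ, ρ i = q + q' * τ) →
      (∀ i, ∑ l, G i l * v l + ρ i ∉ Lam τ) ∧
      AlgebraicIndependent K (fm τ μ (fun i => ∑ j, (A i j : ℂ) * u j)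
        (fun i => ∑ l, G i l * v l + ρ i))

/-- E6: the part of `t` in `F` -/
def S_TPart : Prop := ∀ F : IntermediateField ℚ ℂ, kap ∈ F → ∀ (s : ℕ) (t : Fin s → ℂ),
  ∃ (a : ℕ) (M : Fin a → Fin s → ℤ), (∀ i, ∑ l, (M i l : ℂ) * t l ∈ F) ∧
    (∀ (c : Fin a → ℚ) (q : ℚ), ∑ i, (c i : ℂ) * ∑ l, (M i l : ℂ) * t l = q * kap → c = 0) ∧
    tDim t ≤ a + modDim F t

/-- E7: the part of `p` in `F` -/
def S_PPart : Prop := ∀ (F : IntermediateField ℚ ℂ) (ω₁ ω₂ : ℂ), (ω₂ / ω₁).im ≠ 0 →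
  ω₂ / ω₁ ∈ F → ∀ (n : ℕ) (p : Fin n → ℂ),
  ∃ (b : ℕ) (g : Fin b → Fin n → ℂ), (∀ i j, IsI (ω₂ / ω₁) (g i j)) ∧
    (∀ i, ∑ j, g i j * (p j / ω₁) ∈ F) ∧
    (∀ (c : Fin b → ℂ) (q q' : ℚ), (∀ i, IsE (ω₂ / ω₁) (c i)) →
      ∑ i, c i * ∑ j, g i j * (p j / ω₁) = q + q' * (ω₂ / ω₁) → c = 0) ∧
    kDim2 ω₁ ω₂ p ≤ 2 * b + modDim2 F ω₁ ω₂ p

/-- E8: membership -/
def S_Memb : Prop := ∀ F : IntermediateField ℚ ℂ, CD.Closed F → ∀ (τ μ ω₁ : ℂ), Nrm τ μ →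
  ω₁ ≠ 0 → (∀ K : IntermediateField ℚ ℂ, gg2 τ ∈ K → gg3 τ ∈ K → IsAlgebraic K μ) →
  τ ∈ F ∧ ∀ (s n : ℕ) (t : Fin s → ℂ) (p : Fin n → ℂ),
    (∀ M : Fin s → ℤ, ∑ l, (M l : ℂ) * t l ∈ F →
      Complex.exp (∑ l, (M l : ℂ) * t l) ∈ CD.acl (bigField ω₁ (ω₁ * τ) t p) ⊓ F) ∧
    (∀ g : Fin n → ℂ, (∀ j, IsI τ (g j)) → ∑ j, g j * (p j / ω₁) ∈ F →
      ∑ j, g j * (p j / ω₁) ∉ Lam τ →
        xe τ μ (∑ j, g j * (p j / ω₁)) ∈ CD.acl (bigField ω₁ (ω₁ * τ) t p) ⊓ F ∧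
        ze τ μ (∑ j, g j * (p j / ω₁)) ∈ CD.acl (bigField ω₁ (ω₁ * τ) t p) ⊓ F) ∧
    bigField 1 τ (![] : Fin 0 → ℂ) (![] : Fin 0 → ℂ) ≤ CD.acl (bigField ω₁ (ω₁ * τ) t p) ⊓ F

/-- E8': the field of periods is algebraic over `K` -/
def S_PerAlg : Prop := ∀ (τ μ : ℂ), Nrm τ μ → ∀ K : IntermediateField ℚ ℂ, PerK τ μ K →
  bigField 1 τ (![] : Fin 0 → ℂ) (![] : Fin 0 → ℂ) ≤ CD.acl K

/-- E9: independence of numbers of an algebraic extension of `K` and numbers independent over `K` -/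
def S_Tower : Prop := ∀ (K L B : IntermediateField ℚ ℂ), L ≤ CD.acl K → L ≤ B →
  ∀ (e d : ℕ) (T : Type) [Fintype T] (f : T → ℂ), HasTrdeg L e → d ≤ Fintype.card T →
    AlgebraicIndependent K f → (∀ i, f i ∈ B) → HasTrdeg B (e + d)

/-- E10: the points `u`, `v` on the line through `z` -/
def S_RelEC : Prop := ∀ (m κ r r' : ℕ) (b : Fin m → ℂ) (z z' τ μ : ℂ), Nrm τ μ →
  r + 2 * r' + κ + 6 ≤ m →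
  m ≤ κ + 1 + Module.finrank ℂ ((TT b).map (lgV (fun j => b j * z))) →
  m ≤ 1 + κ + Module.finrank ℂ ((TT b).map (lamV τ μ (fun j => b j * z'))) →
  ∃ (K : IntermediateField ℚ ℂ) (P : MvPolynomial (Fin r × Fin m ⊕ Fin r' × Fin m) ℂ),
    PerK τ μ K ∧ z' ∈ K ∧ (∀ j, b j ∈ K) ∧ P ≠ 0 ∧ P.IsHomogeneous (r + 2 * r') ∧
    ∀ (c : Fin r → Fin m → ℚ) (c' : Fin r' → Fin m → ℚ),
      MvPolynomial.eval (Sum.elim (fun q => (c q.1 q.2 : ℂ)) (fun q => (c' q.1 q.2 : ℂ))) P ≠ 0 →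
      (∀ i, ∑ j, (c' i j : ℂ) * (b j * z') ∉ Lam τ) ∧
      AlgebraicIndependent K (fm τ μ (fun i => ∑ j, (c i j : ℂ) * (b j * z))
        (fun i => ∑ j, (c' i j : ℂ) * (b j * z')))

/-- E11: the lower bound for one lattice -/
def S_OnL : Prop := ∀ S : Set ℂ, S.Countable → ∀ (τ μ ω₁ : ℂ), Nrm τ μ → ω₁ ≠ 0 →
  (∀ K : IntermediateField ℚ ℂ, gg2 τ ∈ K → gg3 τ ∈ K → IsAlgebraic K μ) →
  ∀ K : IntermediateField ℚ ℂ, PerK τ μ K →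
  ∀ (r r' : ℕ) (u : Fin r → ℂ) (v : Fin r' → ℂ), (∀ i, v i / ω₁ ∈ K) → (∀ i, v i / ω₁ ∉ Lam τ) →
    AlgebraicIndependent K (fm τ μ u (fun i => v i / ω₁)) →
  ∀ (s n : ℕ) (t : Fin s → ℂ) (p : Fin n → ℂ), TG.Inn (CD.cl S) t u →
    InnE (CD.cl S) ω₁ (ω₁ * τ) p v →
  ∀ (ρ : ℕ) (y : Fin ρ → ℂ), (∀ i, IsAlgebraic (bigField ω₁ (ω₁ * τ) t p) (y i)) → ClInd S y →
  ∀ e : ℕ, HasTrdeg (bigField 1 τ (![] : Fin 0 → ℂ) (![] : Fin 0 → ℂ)) e →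
    HasTrdeg (bigField ω₁ (ω₁ * τ) t p) (e + tDim t + kDim2 ω₁ (ω₁ * τ) p +
      max ρ (min 1 (modDim (CD.cl S) t + modDim2 (CD.cl S) ω₁ (ω₁ * τ) p)))

/-- The inequality for the lattices with generic invariant follows from Schanuel's inequality for the
elements of `F` in the span of `t`. -/
def GenF (F : IntermediateField ℚ ℂ) : Prop :=
  ∀ ω₁ ω₂ : ℂ, (ω₂ / ω₁).im ≠ 0 → jInv ω₁ ω₂ ∉ F → ∀ (s k : ℕ) (t : Fin s → ℂ) (p : Fin k → ℂ),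
    (∀ (m : ℕ) (t' : Fin m → ℂ), (∀ l, t' l ∈ F ∧ t' l ∈ Submodule.span ℚ (Set.range t)) →
      HasTrdeg (expField t') (tDim t')) → Q1 ω₁ ω₂ t p

/-- E12: generic curves -/
def S_GenL : Prop := ∀ (m κ : ℕ) (b : Fin m → ℂ) (z : ℂ), LinearIndependent ℚ b → TrLe κ b →
  Sch b z →
    ((∀ j, IsAlgebraic ℚ (b j)) → ∀ F : IntermediateField ℚ ℂ, GenF F →
      ∀ ω₁ ω₂ : ℂ, (ω₂ / ω₁).im ≠ 0 → jInv ω₁ ω₂ ∉ F →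
      ∀ (s k : ℕ) (t : Fin s → ℂ) (p : Fin k → ℂ), TG.Inn F t (fun j => b j * z) →
        Q1 ω₁ ω₂ t p) ∧
    ∀ r : ℕ, r + κ + 2 ≤ m →
      ∃ P' : MvPolynomial (Fin r × Fin m) ℂ, P' ≠ 0 ∧ P'.IsHomogeneous r ∧
      ∀ c : Fin r → Fin m → ℚ, MvPolynomial.eval (fun q => (c q.1 q.2 : ℂ)) P' ≠ 0 →
      ∀ u : Fin r → ℂ, (∀ i, u i = (∑ j, (c i j : ℂ) * b j) * z) →
      ∀ F : IntermediateField ℚ ℂ, GenF F →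
      ∀ ω₁ ω₂ : ℂ, (ω₂ / ω₁).im ≠ 0 → jInv ω₁ ω₂ ∉ F →
        ∀ (s k : ℕ) (t : Fin s → ℂ) (p : Fin k → ℂ), TG.Inn F t u → Q1 ω₁ ω₂ t p

/-- E13: the lower bound for lattices with algebraic invariant -/
def S_AlgL : Prop := ∀ Q m κ : ℕ, ∃ n₀ : ℕ, ∀ b : Fin m → ℂ, FT Q b → TrLe κ b →
  ∀ ω₁ ω₂ : ℂ, (ω₂ / ω₁).im ≠ 0 → IsAlgebraic ℚ (jInv ω₁ ω₂) → KLI (ω₂ / ω₁) b →
  ∀ n : ℕ, n₀ ≤ n → ∀ x : Fin n → ℂ, LinearIndependent ℚ x →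
  ∃ P : MvPolynomial (Fin n) ℂ, P ≠ 0 ∧ P.totalDegree ≤ 2 * m ∧
  ∀ w : Fin n → ℚ, MvPolynomial.eval (fun i => (w i : ℂ)) P ≠ 0 →
  ∀ z : ℂ, z = ∑ i, (w i : ℂ) * x i →
  ∀ r r' : ℕ, r + 2 * r' + κ + 6 ≤ m →
  ∃ P' : MvPolynomial (Fin r × Fin m ⊕ Fin r' × Fin m) ℂ, P' ≠ 0 ∧ P'.IsHomogeneous (r + 2 * r') ∧
  ∀ (c : Fin r → Fin m → ℚ) (c' : Fin r' → Fin m → ℚ),
    MvPolynomial.eval (Sum.elim (fun q => (c q.1 q.2 : ℂ)) (fun q => (c' q.1 q.2 : ℂ))) P' ≠ 0 →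
  ∀ (u : Fin r → ℂ) (v : Fin r' → ℂ), (∀ i, u i = (∑ j, (c i j : ℂ) * b j) * z) →
    (∀ i, v i = (∑ j, (c' i j : ℂ) * b j) * z) →
  ∀ S : Set ℂ, S.Countable → ∀ (s k : ℕ) (t : Fin s → ℂ) (p : Fin k → ℂ),
    TG.Inn (CD.cl S) t u → InnE (CD.cl S) ω₁ ω₂ p v →
  ∀ (ρ : ℕ) (y : Fin ρ → ℂ), (∀ i, IsAlgebraic (bigField ω₁ ω₂ t p) (y i)) → ClInd S y →
  ∀ R : ℕ, R = max ρ (min 1 (modDim (CD.cl S) t + modDim2 (CD.cl S) ω₁ ω₂ p)) →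
  ∀ e : ℕ, (HasTrdeg (bigField 1 (ω₂ / ω₁) (![] : Fin 0 → ℂ) (![] : Fin 0 → ℂ)) e ∨ e = 1) →
    HasTrdeg (bigField ω₁ ω₂ t p) (e + tDim t + kDim2 ω₁ ω₂ p + R) ∧
    ((open Classical in if IsCM ω₁ ω₂ then 2 else 4) ≤ e + R → Q1 ω₁ ω₂ t p)

end Pool.Agent.Work.MP_8da9ea_nt.EC
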